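import Mathlib
import Pool.Agent.H302R2.Basic

/-!
# Groups of prime degree
-/

set_option autoImplicit false
set_option linter.unusedSectionVars false

namespace Pool.Agent.X21.Sy

open Equiv Equiv.Perm MulAction

variable {α : Type} [Fintype α] [DecidableEq α] {p : ℕ} [hp : Fact p.Prime]

lemma cyc_of_order (hα : Fintype.card α = p) {x : Perm α} (hx : orderOf x = p) :
    x.IsCycle ∧ x.support = Finset.univ := by
  have h1 : x.IsCycle := by
    apply Equiv.Perm.isCycle_of_prime_order'
    · rw [hx]; exact hp.out
    · rw [hx, hα]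
      have := hp.out.pos
      omega
  refine ⟨h1, ?_⟩
  rw [← Finset.card_eq_iff_eq_univ, ← h1.orderOf, hx, hα]

lemma no_fix (hα : Fintype.card α = p) {x : Perm α} (hx : orderOf x = p) (a : α) : x a ≠ a := by
  have h := (cyc_of_order hα hx).2
  have h2 : a ∈ x.support := by rw [h]; exact Finset.mem_univ a
  exact Equiv.Perm.mem_support.mp h2

lemma trans_of_order (hα : Fintype.card α = p) {x : Perm α} (hx : orderOf x = p) (a b : α) :
    ∃ i : ℤ, (x ^ i) a = b :=
  (cyc_of_order hα hx).1.exists_zpow_eq (no_fix hα hx a) (no_fix hα hx b)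

lemma mem_zpowers_of_comm (hα : Fintype.card α = p) {x : Perm α} (hx : orderOf x = p)
    {y : Perm α} (hy : y * x = x * y) : y ∈ Subgroup.zpowers x := by
  have hne : Nonempty α := by
    rw [← Fintype.card_pos_iff, hα]
    exact hp.out.pos
  obtain ⟨a⟩ := hne
  obtain ⟨k, hk⟩ := trans_of_order hα hx a (y a)
  refine Subgroup.mem_zpowers_iff.mpr ⟨k, ?_⟩
  ext b
  obtain ⟨i, rfl⟩ := trans_of_order hα hx a b
  have h1 : y * x ^ i = x ^ i * y := (Commute.zpow_right (show Commute y x from hy) i).eq
  calc (x ^ k) ((x ^ i) a) = (x ^ i) ((x ^ k) a) := by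
        rw [← Perm.mul_apply, ← Perm.mul_apply, ← zpow_add, ← zpow_add, add_comm]
    _ = (x ^ i * y) a := by rw [hk]; rfl
    _ = y ((x ^ i) a) := by rw [← h1]; rfl

lemma sq_not_dvd (hα : Fintype.card α = p) (H : Subgroup (Perm α)) : ¬ p ^ 2 ∣ Nat.card H := by
  intro h
  have h1 : Nat.card H ∣ Nat.card (Perm α) := Subgroup.card_subgroup_dvd_card H
  rw [Nat.card_eq_fintype_card (α := Perm α), Fintype.card_perm, hα] at h1
  have h2 := h.trans h1
  obtain ⟨q, hq⟩ : ∃ q, p = q + 1 := ⟨p - 1, by have := hp.out.pos; omega⟩
  have h3 : p.factorial = p * (p - 1).factorial := by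
    rw [Nat.mul_factorial_pred hp.out.pos.ne']
  rw [h3, pow_two] at h2
  have h4 := Nat.dvd_of_mul_dvd_mul_left hp.out.pos h2
  rw [hp.out.dvd_factorial] at h4
  have := hp.out.pos
  omega

/-- a subgroup of order divisible by `p` is transitive -/
lemma exists_order {H : Subgroup (Perm α)} (h : p ∣ Nat.card H) :
    ∃ x : H, orderOf (x : Perm α) = p := by
  have : Fintype H := Fintype.ofFinite H
  rw [Nat.card_eq_fintype_card] at h
  obtain ⟨x, hx⟩ := exists_prime_orderOf_dvd_card p h
  exact ⟨x, by rw [← hx, Subgroup.orderOf_coe]⟩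

lemma pretrans (hα : Fintype.card α = p) {H : Subgroup (Perm α)} (x : H)
    (hx : orderOf (x : Perm α) = p) : IsPretransitive H α := by
  refine ⟨fun a b => ?_⟩
  obtain ⟨i, hi⟩ := trans_of_order hα hx a b
  exact ⟨x ^ i, by rw [← hi]; rfl⟩

lemma dvd_of_pretrans (hα : Fintype.card α = p) {H : Subgroup (Perm α)}
    (h : IsPretransitive H α) : p ∣ Nat.card H := by
  have hne : Nonempty α := by
    rw [← Fintype.card_pos_iff, hα]
    exact hp.out.pos
  obtain ⟨a⟩ := hne
  have h1 := MulAction.index_stabilizer_of_transitive H a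
  rw [Nat.card_eq_fintype_card, hα] at h1
  rw [← h1]
  exact Subgroup.index_dvd_card _

/-- the key case distinction for a linear character which is nontrivial on an element of order
`p` -/
lemma card_eq_of_nontriv (hα : Fintype.card α = p) {H : Subgroup (Perm α)} (l : H →* ℂˣ) (x : H)
    (hx : orderOf (x : Perm α) = p) (hlx : l x ≠ 1) : Nat.card H = p := by
  have ht := pretrans hα x hx
  have hpr : IsPreprimitive H α := by
    apply IsPreprimitive.of_prime_card
    rw [Nat.card_eq_fintype_card, hα]
    exact hp.out
  have hxH : orderOf x = p := by rw [← hx, Subgroup.orderOf_coe]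
  have hK : l.ker = ⊥ := by
    by_contra hne
    have h1 : fixedPoints l.ker α ≠ Set.univ := by
      intro h
      apply hne
      rw [eq_bot_iff]
      intro k hk
      rw [Subgroup.mem_bot]
      ext a
      have h2 : a ∈ fixedPoints l.ker α := by rw [h]; exact Set.mem_univ a
      exact h2 ⟨k, hk⟩
    have h2 : IsPretransitive l.ker α :=
      IsQuasiPreprimitive.isPretransitive_of_normal (G := H) h1
    have hne : Nonempty α := by
      rw [← Fintype.card_pos_iff, hα]
      exact hp.out.pos
    obtain ⟨a⟩ := hne
    have h3 := MulAction.index_stabilizer_of_transitive l.ker a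
    rw [Nat.card_eq_fintype_card, hα] at h3
    have h4 : p ∣ Nat.card l.ker := by
      rw [← h3]
      exact Subgroup.index_dvd_card _
    have h5 : ¬ p ∣ l.ker.index := by
      intro h6
      apply sq_not_dvd hα H
      rw [← Subgroup.card_mul_index l.ker, pow_two]
      exact Nat.mul_dvd_mul h4 h6
    have h6 : x ^ l.ker.index ∈ l.ker := Subgroup.pow_index_mem _ x
    rw [MonoidHom.mem_ker, map_pow] at h6
    have h7 : l x ^ p = 1 := by
      rw [← map_pow, ← hxH, pow_orderOf_eq_one, map_one]
    have h8 : orderOf (l x) = p := orderOf_eq_prime h7 hlx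
    exact h5 (h8 ▸ orderOf_dvd_of_pow_eq_one h6)
  have hinj : Function.Injective l := (MonoidHom.ker_eq_bot_iff l).mp hK
  have hall : ∀ y : H, y ∈ Subgroup.zpowers x := by
    intro y
    have h1 : y * x = x * y := by
      apply hinj
      rw [map_mul, map_mul, mul_comm]
    have h2 : (y : Perm α) * x = x * y := by
      have := congrArg (fun z : H => (z : Perm α)) h1
      simpa using this
    obtain ⟨k, hk⟩ := Subgroup.mem_zpowers_iff.mp (mem_zpowers_of_comm hα hx h2)
    refine Subgroup.mem_zpowers_iff.mpr ⟨k, ?_⟩
    apply Subtype.ext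
    rw [← hk]
    rfl
  rw [← hxH, ← Nat.card_zpowers]
  have : Subgroup.zpowers x = ⊤ := by
    rw [eq_top_iff]
    intro y _
    exact hall y
  rw [this, Subgroup.card_top]

/-- the size of the class times the order of the centraliser -/
lemma card_class_mul {G : Type*} [Group G] [Finite G] (x : G) :
    Nat.card {y : G // IsConj x y} * Nat.card (Subgroup.centralizer ({x} : Set G)) =
      Nat.card G := by
  classical
  have := Fintype.ofFinite G
  rw [Subgroup.nat_card_centralizer_nat_card_stabilizer]
  have h1 := MulAction.card_orbit_mul_card_stabilizer_eq_card_group (ConjAct G) x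
  have h2 : Nat.card {y : G // IsConj x y} = Nat.card (MulAction.orbit (ConjAct G) x) := by
    refine Nat.card_congr (Equiv.subtypeEquivRight fun y => ?_)
    rw [ConjAct.mem_orbit_conjAct, isConj_comm]
  rw [h2]
  simp only [Nat.card_eq_fintype_card]
  rw [h1]
  rfl

open Classical in
/-- the number of elements of order `p` -/
lemma card_dvd (hα : Fintype.card α = p) (H : Subgroup (Perm α)) [Fintype H] :
    Nat.card H ∣ p * (Finset.univ.filter fun x : H => orderOf x = p).card := by
  set X := Finset.univ.filter fun x : H => orderOf x = p with hX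
  rw [Finset.card_eq_sum_card_fiberwise (f := fun x : H => ConjClasses.mk x)
    (t := Finset.univ) (fun x _ => Finset.mem_univ _), Finset.mul_sum]
  refine Finset.dvd_sum fun C _ => ?_
  by_cases hC : ∃ x ∈ X, ConjClasses.mk x = C
  · obtain ⟨x, hx, rfl⟩ := hC
    rw [hX, Finset.mem_filter] at hx
    have hxp : orderOf (x : Perm α) = p := by rw [Subgroup.orderOf_coe]; exact hx.2
    have h1 : X.filter (fun y => ConjClasses.mk y = ConjClasses.mk x)
        = Finset.univ.filter (fun y : H => IsConj x y) := by
      ext y
      simp only [hX, Finset.mem_filter, Finset.mem_univ, true_and, ConjClasses.mk_eq_mk_iff_isConj]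
      constructor
      · rintro ⟨-, h⟩
        exact h.symm
      · intro h
        refine ⟨?_, h.symm⟩
        obtain ⟨c, rfl⟩ := isConj_iff.mp h
        rw [← hx.2]
        exact (MulEquiv.orderOf_eq (MulAut.conj c) x)
    rw [h1]
    have h2 : (Finset.univ.filter (fun y : H => IsConj x y)).card = Nat.card {y : H // IsConj x y} := by
      rw [Nat.card_eq_fintype_card, Fintype.card_subtype]
    have h3 : Nat.card (Subgroup.centralizer ({x} : Set H)) = p := by
      have h4 : Subgroup.centralizer ({x} : Set H) = Subgroup.zpowers x := by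
        ext y
        rw [Subgroup.mem_centralizer_singleton_iff]
        constructor
        · intro h
          have h5 : (y : Perm α) * x = x * y := by
            have := congrArg (fun z : H => (z : Perm α)) h
            simpa using this
          obtain ⟨k, hk⟩ := Subgroup.mem_zpowers_iff.mp (mem_zpowers_of_comm hα hxp h5)
          refine Subgroup.mem_zpowers_iff.mpr ⟨k, ?_⟩
          apply Subtype.ext
          rw [← hk]
          rfl
        · intro h
          obtain ⟨k, rfl⟩ := Subgroup.mem_zpowers_iff.mp h
          rw [← zpow_add_one, ← zpow_one_add, add_comm]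
      rw [h4, Nat.card_zpowers, hx.2]
    rw [h2, ← card_class_mul x, h3, mul_comm]
  · have : X.filter (fun y => ConjClasses.mk y = C) = ∅ := by
      rw [Finset.filter_eq_empty_iff]
      intro y hy h
      exact hC ⟨y, hy, h⟩
    rw [this]
    simp

end Pool.Agent.X21.Sy
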