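import Mathlib
import Pool.Agent.X21.Sy.Bar1
import Pool.Agent.H541R3.ART.Irr

/-!
# A Heilbronn function of degree `p - 2` on the symmetric group of prime degree `p`
-/

set_option autoImplicit false
set_option linter.unusedSectionVars false

namespace Pool.Agent.X21.Sy

open Equiv Equiv.Perm MulAction Pool.Agent.H302R2 Pool.Agent.H541R3.ART

section perm

variable {α : Type} [Fintype α] [DecidableEq α]

/-- the number of fixed points -/
def fx (g : Perm α) : ℕ := (Finset.univ.filter fun a => g a = a).card

lemma fx_one : fx (1 : Perm α) = Fintype.card α := by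
  simp [fx]

lemma fx_conj (g h : Perm α) : fx (h * g * h⁻¹) = fx g := by
  unfold fx
  refine Finset.card_bij (fun a _ => h⁻¹ a) ?_ ?_ ?_
  · intro a ha
    rw [Finset.mem_filter] at ha ⊢
    refine ⟨Finset.mem_univ _, ?_⟩
    have h1 := congrArg (fun b => h⁻¹ b) ha.2
    simpa using h1
  · intro a _ b _ hab
    exact h⁻¹.injective hab
  · intro b hb
    rw [Finset.mem_filter] at hb
    refine ⟨h b, ?_, by simp⟩
    rw [Finset.mem_filter]
    refine ⟨Finset.mem_univ _, ?_⟩
    simp [hb.2]

/-- the permutation representation -/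
noncomputable def permRep (α : Type) : Representation ℂ (Perm α) (α → ℂ) where
  toFun σ := LinearMap.funLeft ℂ ℂ (σ⁻¹ : Perm α)
  map_one' := by
    ext v
    simp [LinearMap.funLeft]
  map_mul' a b := by
    ext v
    simp [LinearMap.funLeft]

lemma permRep_char (g : Perm α) : (permRep α).character g = fx g := by
  change LinearMap.trace ℂ (α → ℂ) (LinearMap.funLeft ℂ ℂ (g⁻¹ : Perm α)) = _
  rw [LinearMap.trace_eq_matrix_trace ℂ (Pi.basisFun ℂ α), Matrix.trace]
  simp only [Matrix.diag_apply, LinearMap.toMatrix_apply, Pi.basisFun_apply, Pi.basisFun_repr,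
    LinearMap.funLeft_apply, Pi.single_apply]
  rw [Finset.sum_boole, fx]
  congr 2
  ext a
  simp only [Finset.mem_filter, Finset.mem_univ, true_and]
  rw [Equiv.Perm.inv_eq_iff_eq]
  exact eq_comm

/-- multiplicities of linear characters in restrictions of characters -/
lemma rep_mult {G V : Type} [Group G] [AddCommGroup V] [Module ℂ V] [FiniteDimensional ℂ V]
    (ρ : Representation ℂ G V) (H : Subgroup G) [Fintype H] (ψ : H →* ℂˣ) :
    ∃ m : ℕ, ∑ h : H, ρ.character h * (((ψ h)⁻¹ : ℂˣ) : ℂ) = (m : ℂ) * (Nat.card H : ℂ) := by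
  classical
  have hH : (Nat.card H : ℂ) ≠ 0 := by exact_mod_cast Nat.card_pos.ne'
  have : Invertible (Nat.card H : ℂ) := invertibleOfNonzero hH
  let σ : Representation ℂ H V := ρ.comp H.subtype
  have h := Representation.card_inv_mul_sum_char_mul_char_eq_finrank (linRep ψ) σ
  refine ⟨Module.finrank ℂ (Representation.IntertwiningMap (linRep ψ) σ), ?_⟩
  rw [← h]
  have h2 : ∀ x : H, σ.character x * (linRep ψ).character x⁻¹
      = ρ.character (x : G) * (((ψ x)⁻¹ : ℂˣ) : ℂ) := by
    intro x
    rw [linRep_char, map_inv]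
    rfl
  rw [Finset.sum_congr rfl (fun x _ => h2 x)]
  field_simp

lemma fx_mult (H : Subgroup (Perm α)) [Fintype H] (ψ : H →* ℂˣ) :
    ∃ m : ℕ, ∑ h : H, (fx (h : Perm α) : ℂ) * (((ψ h)⁻¹ : ℂˣ) : ℂ)
      = (m : ℂ) * (Nat.card H : ℂ) := by
  obtain ⟨m, hm⟩ := rep_mult (permRep α) H ψ
  refine ⟨m, ?_⟩
  rw [← hm]
  refine Finset.sum_congr rfl fun h _ => ?_
  rw [permRep_char]

/-- the number of orbits -/
lemma two_le_orbits (H : Subgroup (Perm α)) [Fintype H] [Nonempty α] {m : ℕ}
    (hm : ∑ h : H, (fx (h : Perm α) : ℂ) = (m : ℂ) * (Nat.card H : ℂ))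
    (hH : ¬ IsPretransitive H α) : 2 ≤ m := by
  classical
  have h1 := MulAction.sum_card_fixedBy_eq_card_orbits_mul_card_group H α
  have h2 : ∀ h : H, Fintype.card (fixedBy α h) = fx (h : Perm α) := by
    intro h
    rw [fx, Fintype.card_of_subtype]
    intro a
    simp [MulAction.mem_fixedBy, Subgroup.smul_def]
  simp_rw [h2] at h1
  have h3 : (m : ℂ) * (Nat.card H : ℂ) = ((Fintype.card (orbitRel.Quotient H α) *
      Fintype.card H : ℕ) : ℂ) := by
    rw [← hm, ← h1]
    push_cast
    rfl
  have h4 : m = Fintype.card (orbitRel.Quotient H α) := by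
    have h5 : m * Nat.card H = Fintype.card (orbitRel.Quotient H α) * Fintype.card H := by
      exact_mod_cast h3
    rw [Nat.card_eq_fintype_card] at h5
    exact Nat.eq_of_mul_eq_mul_right Fintype.card_pos h5
  rw [h4]
  by_contra hlt
  apply hH
  rw [MulAction.pretransitive_iff_subsingleton_quotient]
  rw [← Fintype.card_le_one_iff_subsingleton]
  omega

lemma sum_inv_hom {H : Type} [Group H] [Fintype H] {l : H →* ℂˣ} (hl : l ≠ 1) :
    ∑ h : H, (((l h)⁻¹ : ℂˣ) : ℂ) = 0 := by
  classical
  let f : H →* ℂ := (Units.coeHom ℂ).comp (l⁻¹)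
  have hf : f ≠ 1 := by
    intro h
    apply hl
    ext x
    have h1 := DFunLike.congr_fun h x
    change (((l x)⁻¹ : ℂˣ) : ℂ) = 1 at h1
    rw [Units.val_eq_one, inv_eq_one] at h1
    rw [h1]
    rfl
  exact sum_hom_units_eq_zero f hf

end perm

section bar

variable {α : Type} [Fintype α] [DecidableEq α] {p : ℕ} [hp : Fact p.Prime]

/-- the barrier function -/
noncomputable def bt (p : ℕ) (g : Perm α) : ℂ := (fx g : ℂ) - 2 + if orderOf g = p then (p : ℂ) else 0

lemma bt_conj (g h : Perm α) : bt p (h * g * h⁻¹) = bt p g := by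
  unfold bt
  rw [fx_conj, show orderOf (h * g * h⁻¹) = orderOf g from (MulEquiv.orderOf_eq (MulAut.conj h) g)]

lemma fx_zero (hα : Fintype.card α = p) {x : Perm α} (hx : orderOf x = p) : fx x = 0 := by
  rw [fx, Finset.card_eq_zero, Finset.filter_eq_empty_iff]
  intro a _
  exact no_fix hα hx a

theorem bt_heilbronn (hα : Fintype.card α = p) (h3 : 3 ≤ p) :
    IsHeilbronn (bt p : Perm α → ℂ) := by
  classical
  refine ⟨bt_conj, fun H l => ?_⟩
  have : Fintype H := Fintype.ofFinite H
  have hne : Nonempty α := by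
    rw [← Fintype.card_pos_iff, hα]
    exact hp.out.pos
  rw [finsum_eq_sum_of_fintype]
  have hN : (Nat.card H : ℂ) ≠ 0 := by exact_mod_cast Nat.card_pos.ne'
  obtain ⟨m, hm⟩ := fx_mult H l
  have hord : ∀ h : H, orderOf (h : Perm α) = orderOf h := fun h => Subgroup.orderOf_coe h
  have hsplit : ∑ h : H, bt p (h : Perm α) * (((l h)⁻¹ : ℂˣ) : ℂ)
      = (m : ℂ) * (Nat.card H : ℂ) - 2 * ∑ h : H, (((l h)⁻¹ : ℂˣ) : ℂ)
        + (p : ℂ) * ∑ h ∈ Finset.univ.filter (fun h : H => orderOf h = p),
            (((l h)⁻¹ : ℂˣ) : ℂ) := by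
    rw [← hm, Finset.mul_sum, Finset.mul_sum, ← Finset.sum_sub_distrib, Finset.sum_filter,
      ← Finset.sum_add_distrib]
    refine Finset.sum_congr rfl fun h _ => ?_
    rw [bt, hord]
    split_ifs <;> ring
  by_cases hc : ∃ x : H, orderOf (x : Perm α) = p ∧ l x ≠ 1
  · -- |H| = p
    obtain ⟨x, hx, hlx⟩ := hc
    have hcard := card_eq_of_nontriv hα l x hx hlx
    refine ⟨0, ?_⟩
    have hl : l ≠ 1 := by
      intro h
      rw [h] at hlx
      exact hlx rfl
    have h1 : ∀ h : H, bt p (h : Perm α) = (p : ℂ) - 2 := by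
      intro h
      by_cases h2 : h = 1
      · subst h2
        rw [bt, Subgroup.coe_one, fx_one, hα, orderOf_one, if_neg (by omega)]
        ring
      · have h3 : orderOf h = p := by
          have h4 : orderOf h ∣ p := by
            rw [← hcard]
            exact orderOf_dvd_natCard h
          rcases (Nat.dvd_prime hp.out).mp h4 with h5 | h5
          · exact absurd (orderOf_eq_one_iff.mp h5) h2
          · exact h5
        have h4 : orderOf (h : Perm α) = p := by rw [hord, h3]
        rw [bt, fx_zero hα h4, if_pos h4]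
        push_cast
        ring
    rw [Finset.sum_congr rfl (fun h _ => by rw [h1 h]), ← Finset.mul_sum, sum_inv_hom hl]
    simp
  · push Not at hc
    have hX : ∑ h ∈ Finset.univ.filter (fun h : H => orderOf h = p), (((l h)⁻¹ : ℂˣ) : ℂ)
        = ((Finset.univ.filter (fun h : H => orderOf h = p)).card : ℂ) := by
      rw [Finset.card_eq_sum_ones, Nat.cast_sum]
      refine Finset.sum_congr rfl fun h hh => ?_
      rw [Finset.mem_filter] at hh
      rw [hc h (by rw [hord]; exact hh.2)]
      simp
    obtain ⟨k, hk⟩ := card_dvd hα H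
    have hT : (p : ℂ) * ((Finset.univ.filter (fun h : H => orderOf h = p)).card : ℂ)
        = (k : ℂ) * (Nat.card H : ℂ) := by
      have : p * (Finset.univ.filter (fun h : H => orderOf h = p)).card = k * Nat.card H := by
        rw [mul_comm k, ← hk]
      exact_mod_cast this
    rw [hX, hT] at hsplit
    by_cases hl : l = 1
    · subst hl
      have hsum : ∑ h : H, ((((1 : H →* ℂˣ) h)⁻¹ : ℂˣ) : ℂ) = (Nat.card H : ℂ) := by
        simp [Nat.card_eq_fintype_card]
      rw [hsum] at hsplit
      have hm' : ∑ h : H, (fx (h : Perm α) : ℂ) = (m : ℂ) * (Nat.card H : ℂ) := by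
        rw [← hm]
        refine Finset.sum_congr rfl fun h _ => ?_
        simp
      have h2 : 2 ≤ m + k := by
        by_cases hpt : IsPretransitive H α
        · have h5 := dvd_of_pretrans hα hpt
          obtain ⟨x, hx⟩ := exists_order h5
          have hk1 : k ≠ 0 := by
            intro h0
            rw [h0, mul_zero] at hk
            rcases Nat.mul_eq_zero.mp hk with h6 | h6
            · exact hp.out.ne_zero h6
            · rw [Finset.card_eq_zero, Finset.filter_eq_empty_iff] at h6
              exact h6 (Finset.mem_univ x) (by rw [← hord]; exact hx)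
          have hm1 : m ≠ 0 := by
            intro h0
            rw [h0] at hm'
            have h7 : ∑ h : H, fx (h : Perm α) = 0 := by
              have : ((∑ h : H, fx (h : Perm α) : ℕ) : ℂ) = 0 := by
                push_cast
                rw [hm']
                simp
              exact_mod_cast this
            have h8 := (Finset.sum_eq_zero_iff.mp h7) 1 (Finset.mem_univ _)
            rw [Subgroup.coe_one, fx_one, hα] at h8
            exact hp.out.ne_zero h8
          omega
        · have := two_le_orbits H hm' hpt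
          omega
      refine ⟨m + k - 2, ?_⟩
      rw [hsplit]
      push_cast [Nat.cast_sub h2]
      ring
    · rw [sum_inv_hom hl] at hsplit
      refine ⟨m + k, ?_⟩
      rw [hsplit]
      push_cast
      ring

lemma bt_one (hα : Fintype.card α = p) : bt p (1 : Perm α) = (p : ℂ) - 2 := by
  rw [bt, fx_one, hα, orderOf_one, if_neg (fun h => hp.out.one_lt.ne h)]
  ring

end bar

end Pool.Agent.X21.Sy
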