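import Mathlib
import Pool.Agent.X21.Sy.Bar2
import Pool.Agent.W446.AS.Virt
import Pool.Agent.Helper884.IC.Compl

/-!
# Functions with the formal properties of Artin L-functions, from virtual Heilbronn characters
-/

set_option autoImplicit false
set_option linter.unusedSectionVars false

namespace Pool.Agent.X21.Sy

open Equiv Equiv.Perm MulAction Pool.Agent.H302R2 Pool.Agent.H541R3.ART Pool.Agent.W446.AS
  Filter Topology

section gen

variable {G : Type} [Group G] [Finite G]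

lemma irr_of_ic {χ : G → ℂ} (h : Pool.Agent.Helper884.IC.IsIrrChar χ) : χ ∈ Irr G := by
  obtain ⟨V, _, _, _, ρ, hρ, rfl⟩ := h
  exact irr_of_irred ((irred_iff ρ).mpr hρ)

/-- a class function with integral multiplicities is a virtual character -/
lemma virt_of_int [Fintype G] {f : G → ℂ} (hf : ∀ g y : G, f (y * g * y⁻¹) = f g)
    (h : ∀ χ ∈ Irr G, ∃ k : ℤ, ∑ g : G, f g * χ g⁻¹ = (k : ℂ) * Nat.card G) : Virt f := by
  classical
  rw [Pool.Agent.Helper884.IC.expand f hf]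
  unfold Virt
  refine sum_mem fun χ hχ => ?_
  have h1 := irr_of_ic (Pool.Agent.Helper884.IC.mem_Irr.mp hχ)
  obtain ⟨k, hk⟩ := h χ h1
  have h2 : Pool.Agent.Helper884.IC.B f χ = (k : ℂ) := by
    unfold Pool.Agent.Helper884.IC.B
    rw [hk]
    have : (Nat.card G : ℂ) ≠ 0 := by exact_mod_cast Nat.card_pos.ne'
    field_simp
  rw [h2]
  have h3 : (k : ℂ) • χ = k • χ := by
    funext g
    simp
  rw [h3]
  exact zsmul_mem (AddSubgroup.subset_closure h1) k

lemma prod_zpow_sum {ι : Type*} (s : Finset ι) (f : ι → ℤ) {a : ℂ} (ha : a ≠ 0) :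
    ∏ i ∈ s, a ^ f i = a ^ ∑ i ∈ s, f i := by
  classical
  induction s using Finset.induction_on with
  | empty => simp
  | insert i s hi ih => rw [Finset.prod_insert hi, Finset.sum_insert hi, zpow_add₀ ha, ih]

lemma order_zpow (s₀ : ℂ) (N : ℤ) :
    MeromorphicAt (fun s : ℂ => (s - s₀) ^ N) s₀ ∧
      meromorphicOrderAt (fun s : ℂ => (s - s₀) ^ N) s₀ = (N : WithTop ℤ) := by
  have h1 : MeromorphicAt (fun s : ℂ => (s - s₀) ^ N) s₀ := by
    have h2 : MeromorphicAt (fun s : ℂ => s - s₀) s₀ :=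
      (analyticAt_id.sub analyticAt_const).meromorphicAt
    exact h2.zpow N
  refine ⟨h1, ?_⟩
  rw [meromorphicOrderAt_eq_int_iff h1]
  exact ⟨fun _ => 1, analyticAt_const, one_ne_zero, Filter.Eventually.of_forall fun z => by simp⟩

/-- a Heilbronn function which is a virtual character gives functions with the formal properties of
the Artin L-functions -/
theorem artin_of_virt {θ : G → ℂ} (hθ : IsHeilbronn θ) (hv : Virt θ) (s₀ : ℂ) :
    ∃ A : ArtinData G s₀,
      (∀ χ ∈ Irr G, ∀ k : ℤ, pr θ χ = k → meromorphicOrderAt (A.L χ) s₀ = (k : WithTop ℤ)) ∧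
      ∀ r : ℕ, θ 1 = r → meromorphicOrderAt (A.Lin ⊥ 1) s₀ = (r : WithTop ℤ) := by
  classical
  choose! N hN using fun χ (hχ : χ ∈ Irr G) => hv.pr_int hχ
  choose! M hM using fun (H : Subgroup G) (ψ : H →* ℂˣ) χ (hχ : χ ∈ Irr G) => exists_mult hχ H ψ
  have hth : (theta N : G → ℂ) = θ := by
    funext g
    rw [theta, hv.expand g]
    exact Finset.sum_congr rfl fun χ hχ => by rw [hN χ (mem_irrF.mp hχ)]
  have hE : ∀ (H : Subgroup G) (ψ : H →* ℂˣ), ∑ᶠ h : H, θ h * (((ψ h)⁻¹ : ℂˣ) : ℂ)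
      = ((∑ χ ∈ irrF G, (M H ψ χ : ℤ) * N χ : ℤ) : ℂ) * (Nat.card H : ℂ) := by
    intro H ψ
    have := theta_mult N H ψ (M H ψ) (fun χ hχ => hM H ψ χ hχ)
    rw [hth] at this
    exact this
  let A : ArtinData G s₀ :=
    { L := fun χ s => (s - s₀) ^ N χ
      Lin := fun H ψ s => (s - s₀) ^ (∑ χ ∈ irrF G, (M H ψ χ : ℤ) * N χ)
      mero := fun χ _ => ⟨(order_zpow s₀ _).1, by rw [(order_zpow s₀ _).2]; exact WithTop.coe_ne_top⟩
      hecke := by
        intro H ψ
        rw [(order_zpow s₀ _).2]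
        obtain ⟨k, hk⟩ := hθ.mult H ψ
        rw [hE H ψ] at hk
        have hH : (Nat.card H : ℂ) ≠ 0 := by exact_mod_cast Nat.card_pos.ne'
        have h1 := mul_right_cancel₀ hH hk
        have h2 : (∑ χ ∈ irrF G, (M H ψ χ : ℤ) * N χ : ℤ) = (k : ℤ) := by exact_mod_cast h1
        rw [h2]
        exact_mod_cast Int.natCast_nonneg k
      induce := by
        intro H ψ m hm
        have hmM : ∀ χ ∈ Irr G, m χ = M H ψ χ := by
          intro χ hχ
          have hH : (Nat.card H : ℂ) ≠ 0 := by exact_mod_cast Nat.card_pos.ne'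
          have h1 := hm χ hχ
          rw [hM H ψ χ hχ] at h1
          have h2 := mul_right_cancel₀ hH h1
          exact_mod_cast h2.symm
        have hne : ∀ᶠ s in 𝓝[≠] s₀, s ≠ s₀ := by
          exact eventually_mem_nhdsWithin
        filter_upwards [hne] with s hs
        rw [finprod_mem_eq_finite_toFinset_prod _ (irr_finite (G := G))]
        change _ = ∏ χ ∈ irrF G, _
        have hs' : s - s₀ ≠ 0 := sub_ne_zero.mpr hs
        rw [← prod_zpow_sum _ _ hs']
        refine Finset.prod_congr rfl fun χ hχ => ?_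
        rw [hmM χ (mem_irrF.mp hχ), mul_comm, zpow_mul, zpow_natCast] }
  refine ⟨A, ?_, ?_⟩
  · intro χ hχ k hk
    change meromorphicOrderAt (fun s => (s - s₀) ^ N χ) s₀ = _
    rw [(order_zpow s₀ _).2]
    rw [hN χ hχ] at hk
    have : N χ = k := by exact_mod_cast hk
    rw [this]
  · intro r hr
    change meromorphicOrderAt (fun s => (s - s₀) ^ (∑ χ ∈ irrF G, (M ⊥ 1 χ : ℤ) * N χ)) s₀ = _
    rw [(order_zpow s₀ _).2]
    have h1 := hE ⊥ 1
    have : Fintype (⊥ : Subgroup G) := Fintype.ofFinite _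
    rw [finsum_eq_sum_of_fintype, Fintype.sum_eq_single (1 : (⊥ : Subgroup G))] at h1
    · have h2 : ((∑ χ ∈ irrF G, (M ⊥ 1 χ : ℤ) * N χ : ℤ) : ℂ) = ((r : ℤ) : ℂ) := by
        have h3 : (Nat.card (⊥ : Subgroup G) : ℂ) = 1 := by simp
        rw [h3, mul_one] at h1
        rw [← h1]
        simp [hr]
      have h3 : (∑ χ ∈ irrF G, (M ⊥ 1 χ : ℤ) * N χ : ℤ) = (r : ℤ) := by exact_mod_cast h2
      rw [h3]
      rfl
    · intro x hx
      exact absurd (Subsingleton.elim x 1) hx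

/-- the kernel of an irreducible character -/
lemma char_kernel {χ : G → ℂ} (hχ : χ ∈ Irr G) {c : G} (hc : χ c = χ 1) (g : G) :
    χ (c * g) = χ g := by
  classical
  have hH := irr_heilbronn hχ
  obtain ⟨n, ρ, hρ, rfl⟩ := hχ
  have : Fintype (Subgroup.zpowers c) := Fintype.ofFinite _
  let σ : Representation ℂ (Subgroup.zpowers c) (Fin n → ℂ) := ρ.comp (Subgroup.zpowers c).subtype
  have hN : (Nat.card (Subgroup.zpowers c) : ℂ) ≠ 0 := by exact_mod_cast Nat.card_pos.ne'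
  have hinv : Invertible (Nat.card (Subgroup.zpowers c) : ℂ) := invertibleOfNonzero hN
  have h1 := Representation.card_inv_mul_sum_char_eq_finrank σ
  have h2 : ∀ x : Subgroup.zpowers c, σ.character x = ρ.character 1 := by
    rintro ⟨x, hx⟩
    obtain ⟨k, rfl⟩ := (mem_powers_iff_mem_zpowers (x := c)).mpr hx
    exact hH.pow_of_eq hc k
  rw [Finset.sum_congr rfl (fun x _ => h2 x), Finset.sum_const, Finset.card_univ,
    ← Nat.card_eq_fintype_card, nsmul_eq_mul, ← mul_assoc, inv_mul_cancel₀ hN, one_mul, ρ.char_one] at h1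
  have h3 : Module.finrank ℂ (Fin n → ℂ) = Module.finrank ℂ σ.invariants := by exact_mod_cast h1
  have h4 : σ.invariants = ⊤ := Submodule.eq_top_of_finrank_eq h3.symm
  have h5 : ρ c = 1 := by
    refine LinearMap.ext fun v => ?_
    have hv : v ∈ σ.invariants := by rw [h4]; exact Submodule.mem_top
    exact hv ⟨c, Subgroup.mem_zpowers c⟩
  change LinearMap.trace ℂ _ (ρ (c * g)) = LinearMap.trace ℂ _ (ρ g)
  rw [map_mul, h5, one_mul]

/-- a virtual character without negative multiplicities -/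
lemma kernel_of_nonneg {θ : G → ℂ} (hv : Virt θ)
    (hpos : ∀ χ ∈ Irr G, ∀ k : ℤ, pr θ χ = k → 0 ≤ k) {c : G} (hc : θ c = θ 1) (t : G) :
    θ (c * (t * c⁻¹ * t⁻¹)) = θ 1 := by
  classical
  choose! N hN using fun χ (hχ : χ ∈ Irr G) => hv.pr_int hχ
  have hexp : ∀ g, θ g = ∑ χ ∈ irrF G, (N χ : ℂ) * χ g := by
    intro g
    rw [hv.expand g]
    exact Finset.sum_congr rfl fun χ hχ => by rw [hN χ (mem_irrF.mp hχ)]
  have hNpos : ∀ χ ∈ irrF G, 0 ≤ N χ := fun χ hχ => hpos χ (mem_irrF.mp hχ) _ (hN χ (mem_irrF.mp hχ))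
  have hle : ∀ χ ∈ irrF G, (χ c).re ≤ (χ 1).re := fun χ hχ =>
    (Complex.re_le_norm _).trans ((irr_heilbronn (mem_irrF.mp hχ)).norm_le c)
  have hsum : ∑ χ ∈ irrF G, (N χ : ℝ) * ((χ 1).re - (χ c).re) = 0 := by
    have h1 := congrArg Complex.re hc
    rw [hexp, hexp, Complex.re_sum, Complex.re_sum] at h1
    have h2 : ∀ (χ : G → ℂ) (x : G), ((N χ : ℂ) * χ x).re = (N χ : ℝ) * (χ x).re := by
      intro χ x
      have : (N χ : ℂ) = ((N χ : ℝ) : ℂ) := by push_cast; rfl
      rw [this, Complex.re_ofReal_mul]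
    simp only [h2] at h1
    simp only [mul_sub, Finset.sum_sub_distrib]
    rw [h1, sub_self]
  have hz : ∀ χ ∈ irrF G, (N χ : ℝ) * ((χ 1).re - (χ c).re) = 0 := by
    refine (Finset.sum_eq_zero_iff_of_nonneg fun χ hχ => ?_).mp hsum
    have h1 : (0 : ℝ) ≤ (N χ : ℝ) := by exact_mod_cast hNpos χ hχ
    have h2 := hle χ hχ
    exact mul_nonneg h1 (by linarith)
  rw [hexp, hexp]
  refine Finset.sum_congr rfl fun χ hχ => ?_
  rcases mul_eq_zero.mp (hz χ hχ) with h | h
  · have : N χ = 0 := by exact_mod_cast h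
    rw [this]
    simp
  · have hχ' := mem_irrF.mp hχ
    have h1 : χ c = χ 1 := (irr_heilbronn hχ').eq_deg_of_re (by linarith)
    have h2 := char_kernel hχ' h1
    have h3 : χ c⁻¹ = χ 1 := by
      rw [← h2 c⁻¹, mul_inv_cancel]
    rw [h2, Irr.conj hχ' c⁻¹ t, h3]

end gen

end Pool.Agent.X21.Sy
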