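import Mathlib
import Pool.Agent.H302R2.SymFinal
import Pool.Agent.H302R2.Average
import Pool.Agent.H302R2.Kernel

/-!
# Heilbronn functions on cosets of abelian subgroups
-/

set_option autoImplicit false
set_option linter.unusedSectionVars false

namespace Pool.Agent.X21.Sy

open Pool.Agent.H302R2 Subgroup

universe u v

section gen

variable {G : Type u} [Group G] [Finite G] {θ : G → ℂ}

/-- the average over `D` as a Heilbronn function on the normalizer modulo `D` -/
lemma exists_avg (hθ : IsHeilbronn θ) (D : Subgroup G) :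
    ∃ (Q : Type u) (_ : Group Q) (_ : Finite Q) (Θ : Q → ℂ)
      (π : normalizer (D : Set G) →* Q), IsHeilbronn Θ ∧
      (∀ g : normalizer (D : Set G), Θ (π g) = (Nat.card D : ℂ)⁻¹ * ∑ᶠ n : D, θ (g * n)) ∧
      ∀ g h : normalizer (D : Set G), (g : G)⁻¹ * h ∈ D → π g = π h := by
  have hQN : D ≤ normalizer (D : Set G) := le_normalizer
  have h1 := hθ.comp (normalizer (D : Set G)).subtype
  let e := (subgroupOfEquivOfLe hQN).toEquiv
  have hn : (D.subgroupOf (normalizer (D : Set G))).Normal := normal_in_normalizer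
  refine ⟨_, inferInstance, inferInstance, _,
    QuotientGroup.mk' (D.subgroupOf (normalizer (D : Set G))), h1.avg _, ?_, ?_⟩
  · intro g
    change avg (D.subgroupOf (normalizer (D : Set G))) _ (QuotientGroup.mk g) = _
    rw [avg_mk]
    congr 1
    · congr 2
      exact Nat.card_congr e
    · exact finsum_comp_equiv e (f := fun n : D => θ (g * n))
  · intro g h hgh
    exact (QuotientGroup.eq).mpr (by simpa [mem_subgroupOf] using hgh)

/-- averages over cosets in the normalizer -/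
lemma norm_avg (hθ : IsHeilbronn θ) (D : Subgroup G) {g : G}
    (hg : g ∈ normalizer (D : Set G)) :
    ‖∑ᶠ n : D, θ (g * n)‖ ≤ (∑ᶠ n : D, θ n).re := by
  obtain ⟨Q, _, _, Θ, π, hΘ, h1, -⟩ := exists_avg hθ D
  have h2 := hΘ.norm_le (π ⟨g, hg⟩)
  rw [← map_one π, h1, h1] at h2
  have hc : (0 : ℝ) < (Nat.card D : ℝ) := by exact_mod_cast Nat.card_pos
  have e1 : ((Nat.card D : ℂ)⁻¹) = (((Nat.card D : ℝ)⁻¹ : ℝ) : ℂ) := by push_cast; rfl
  rw [e1, norm_mul, Complex.norm_real, Complex.re_ofReal_mul, Real.norm_of_nonneg (by positivity)]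
    at h2
  have h3 := le_of_mul_le_mul_left h2 (by positivity)
  simpa using h3

section hom

variable {M : Type v} [CommGroup M] [Fintype M] (φ : M →* G) (κ : M →* M) {g : G}

/-- `x ↦ x * (κ x)⁻¹` -/
def dl : M →* M where
  toFun x := x * (κ x)⁻¹
  map_one' := by simp
  map_mul' x y := by rw [map_mul]; rw [mul_inv_rev, mul_comm (κ y)⁻¹]; exact mul_mul_mul_comm _ _ _ _

lemma dl_apply (x : M) : dl κ x = x * (κ x)⁻¹ := rfl

lemma conj_coset (hθ : IsHeilbronn θ) (hκ : ∀ a, g * φ a * g⁻¹ = φ (κ a)) (a x : M) :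
    θ (g * φ a * φ (dl κ x)) = θ (g * φ a) := by
  have h1 := hθ.conj (g * φ a) (φ (κ x))
  rw [← h1]
  congr 1
  have h2 : φ (κ x) * g = g * φ x := by rw [← hκ x]; group
  have h3 : φ a * φ x = φ x * φ a := by rw [← map_mul, ← map_mul, mul_comm]
  calc g * φ a * φ (dl κ x) = g * (φ a * φ x) * (φ (κ x))⁻¹ := by
        rw [dl_apply, map_mul, map_inv]; group
    _ = g * φ x * φ a * (φ (κ x))⁻¹ := by rw [h3]; group
    _ = φ (κ x) * g * φ a * (φ (κ x))⁻¹ := by rw [← h2]
    _ = _ := by group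

lemma mem_norm_range (hκ : ∀ a, g * φ a * g⁻¹ = φ (κ a)) (ε : M →* M)
    (hε : ∀ x, κ (ε x) = ε (κ x)) :
    g ∈ normalizer ((φ.comp ε).range : Set G) := by
  have hfin : Finite (φ.comp ε).range := inferInstance
  have hle : ∀ x ∈ (φ.comp ε).range, g * x * g⁻¹ ∈ (φ.comp ε).range := by
    rintro _ ⟨x, rfl⟩
    refine ⟨κ x, ?_⟩
    rw [MonoidHom.comp_apply, MonoidHom.comp_apply, hκ, hε]
  rw [mem_normalizer_iff]
  intro x
  refine ⟨fun hx => hle x hx, fun hx => ?_⟩
  -- injective on a finite set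
  let f : (φ.comp ε).range → (φ.comp ε).range := fun y => ⟨g * y * g⁻¹, hle y y.2⟩
  have hf : Function.Injective f := by
    intro y z h
    have := congrArg Subtype.val h
    simp only [f] at this
    exact Subtype.ext (mul_left_cancel (mul_right_cancel this))
  obtain ⟨y, hy⟩ := (Finite.injective_iff_surjective.mp hf) ⟨g * x * g⁻¹, hx⟩
  have := congrArg Subtype.val hy
  simp only [f] at this
  have h2 := mul_left_cancel (mul_right_cancel this)
  rw [← h2]; exact y.2

/-- **Coset lemma.** -/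
theorem coset_const (hθ : IsHeilbronn θ) (hκ : ∀ a, g * φ a * g⁻¹ = φ (κ a))
    (hsum : ∀ a, ∑ x, θ (φ (a * dl κ x)) = ∑ x, θ (φ (dl κ x))) (a : M) :
    θ (g * φ a) = θ g := by
  classical
  set D := (φ.comp (dl κ)).range with hD
  have hgN : g ∈ normalizer (D : Set G) :=
    mem_norm_range φ κ hκ (dl κ) (fun x => by rw [dl_apply, dl_apply, map_mul, map_inv])
  have haN : ∀ b : M, φ b ∈ normalizer (D : Set G) := by
    intro b
    rw [mem_normalizer_iff]
    intro x
    constructor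
    · rintro ⟨y, rfl⟩
      refine ⟨y, ?_⟩
      rw [MonoidHom.comp_apply, ← map_mul, ← map_inv, ← map_mul, mul_comm b, mul_inv_cancel_right]
    · rintro ⟨y, hy⟩
      refine ⟨y, ?_⟩
      rw [MonoidHom.comp_apply] at hy ⊢
      have : x = (φ b)⁻¹ * φ (dl κ y) * φ b := by rw [hy]; group
      rw [this, ← map_inv, ← map_mul, ← map_mul, mul_comm b⁻¹, inv_mul_cancel_right]
  obtain ⟨Q, _, _, Θ, π, hΘ, h1, h2⟩ := exists_avg hθ D
  have hc : (Nat.card D : ℂ) ≠ 0 := by exact_mod_cast Nat.card_pos.ne'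
  have : Fintype D := Fintype.ofFinite _
  -- values on the coset
  have h3 : ∀ b : M, Θ (π ⟨g * φ b, mul_mem hgN (haN b)⟩) = θ (g * φ b) := by
    intro b
    rw [h1]
    have : ∀ n : D, θ (g * φ b * n) = θ (g * φ b) := by
      rintro ⟨_, x, rfl⟩
      exact conj_coset φ κ hθ hκ b x
    rw [finsum_congr this, finsum_eq_sum_of_fintype, Finset.sum_const, Finset.card_univ,
      nsmul_eq_mul, ← Nat.card_eq_fintype_card]
    field_simp
  -- values on `A`
  have h4 : ∀ b : M, (Nat.card (φ.comp (dl κ)).ker : ℂ) * ∑ᶠ n : D, θ (φ b * n)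
      = ∑ x, θ (φ (b * dl κ x)) := by
    intro b
    have h5 := sum_comp_surj (φ.comp (dl κ)).rangeRestrict
      (MonoidHom.rangeRestrict_surjective _) (fun n : D => θ (φ b * n))
    rw [MonoidHom.ker_rangeRestrict] at h5
    rw [finsum_eq_sum_of_fintype, ← h5]
    refine Finset.sum_congr rfl fun x _ => ?_
    rw [map_mul]
    rfl
  have hk : (Nat.card (φ.comp (dl κ)).ker : ℂ) ≠ 0 := by exact_mod_cast Nat.card_pos.ne'
  have h6 : Θ (π ⟨φ a, haN a⟩) = Θ 1 := by
    rw [← map_one π, h1, h1]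
    congr 1
    apply mul_left_cancel₀ hk
    have h7 := h4 1
    rw [map_one] at h7
    simp only [one_mul] at h7
    simp only [OneMemClass.coe_one, one_mul]
    rw [h4, hsum, h7]
  have hcomm : π ⟨g, hgN⟩ * π ⟨φ a, haN a⟩ = π ⟨φ a, haN a⟩ * π ⟨g, hgN⟩ := by
    rw [← map_mul, ← map_mul]
    refine h2 _ _ ?_
    change (g * φ a)⁻¹ * (φ a * g) ∈ D
    -- `= φ (a⁻¹) * g⁻¹ * φ a * g`
    obtain ⟨b, hb⟩ : ∃ b, κ b = a ∨ True := ⟨1, Or.inr trivial⟩
    have h8 : (φ a * g)⁻¹ * (g * φ a) ∈ D := by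
      have h9 : φ a * g ∈ normalizer (D : Set G) := mul_mem (haN a) hgN
      have h10 : (g * φ a) * (φ a * g)⁻¹ ∈ D := by
        have : (g * φ a) * (φ a * g)⁻¹ = (φ (dl κ a))⁻¹ := by
          rw [dl_apply, map_mul, map_inv, ← hκ a]; group
        rw [this]
        exact D.inv_mem ⟨a, rfl⟩
      have h11 := (mem_normalizer_iff.1 ((normalizer (D : Set G)).inv_mem h9) _).1 h10
      have e : (φ a * g)⁻¹ * (g * φ a * (φ a * g)⁻¹) * (φ a * g)⁻¹⁻¹
          = (φ a * g)⁻¹ * (g * φ a) := by group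
      rwa [e] at h11
    have h12 := D.inv_mem h8
    have e : ((φ a * g)⁻¹ * (g * φ a))⁻¹ = (g * φ a)⁻¹ * (φ a * g) := by group
    rwa [e] at h12
  have h7 := hΘ.mul_of_comm hcomm h6
  rw [← map_mul] at h7
  have h8 := h3 a
  have h9 := h3 1
  simp only [map_one, mul_one] at h9
  rw [← h8, ← h9]
  exact h7

/-- **Fixed point free action.** -/
theorem fpf_kernel (hθ : IsHeilbronn θ) (hκ : ∀ a, g * φ a * g⁻¹ = φ (κ a))
    (hfix : ∀ x, κ x = x → x = 1) (hg : θ g = θ 1) (x : M) : θ (φ x) = θ 1 := by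
  classical
  have hinj : Function.Injective (dl κ) := by
    rw [injective_iff_map_eq_one]
    intro y hy
    rw [dl_apply, mul_inv_eq_one] at hy
    exact hfix y hy.symm
  have hsurj := Finite.injective_iff_surjective.mp hinj
  have hgN : g ∈ normalizer ((φ.comp (MonoidHom.id M)).range : Set G) :=
    mem_norm_range φ κ hκ (MonoidHom.id M) (fun _ => rfl)
  have h1 := norm_avg hθ _ hgN
  set D := (φ.comp (MonoidHom.id M)).range with hD
  have : Fintype D := Fintype.ofFinite _
  have h2 : ∀ n : D, θ (g * n) = θ 1 := by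
    rintro ⟨_, y, rfl⟩
    obtain ⟨z, rfl⟩ := hsurj y
    have := conj_coset φ κ hθ hκ 1 z
    rw [map_one, mul_one] at this
    rw [← hg, ← this]
    rfl
  obtain ⟨r, hr⟩ := hθ.exists_deg
  rw [finsum_congr h2, finsum_eq_sum_of_fintype, finsum_eq_sum_of_fintype, Finset.sum_const,
    Complex.re_sum, nsmul_eq_mul, norm_mul, hr, Complex.norm_natCast, Complex.norm_natCast,
    Finset.card_univ] at h1
  have hnn : ∀ n ∈ (Finset.univ : Finset D), (0 : ℝ) ≤ r - (θ n).re := by
    intro n _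
    have := (Complex.re_le_norm _).trans (hθ.norm_le (n : G))
    rw [hr, Complex.natCast_re] at this
    linarith
  have h3 : ∑ n : D, ((r : ℝ) - (θ n).re) = 0 := by
    apply le_antisymm
    · rw [Finset.sum_sub_distrib, Finset.sum_const, Finset.card_univ, nsmul_eq_mul]
      linarith
    · exact Finset.sum_nonneg hnn
  have h4 := (Finset.sum_eq_zero_iff_of_nonneg hnn).mp h3 ⟨φ x, x, rfl⟩ (Finset.mem_univ _)
  apply hθ.eq_deg_of_re
  rw [hr, Complex.natCast_re]
  simp only at h4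
  linarith

end hom

end gen

end Pool.Agent.X21.Sy
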