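import Mathlib
import Pool.Agent.X21.Sy.Gen

/-!
# Wreath coordinates
-/

set_option autoImplicit false
set_option linter.unusedSectionVars false

namespace Pool.Agent.X21.Sy

open Pool.Agent.H302R2 Subgroup Equiv Equiv.Perm

lemma zmod_two (z : ZMod 2) : z = 0 ∨ z = 1 := by revert z; decide

lemma sign_add_zero_two : Perm.sign (Equiv.addRight (0 : ZMod 2)) = 1 := by decide

lemma sign_add_one_two : Perm.sign (Equiv.addRight (1 : ZMod 2)) = -1 := by decide

lemma two_facts : ((1 : ℤˣ) * 1 = 1 ↔ (0 : ZMod 2) + 0 = 0) ∧ ((1 : ℤˣ) * 1 = -1 ↔ (0 : ZMod 2) + 0 = 1) ∧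
    ((1 : ℤˣ) * -1 = 1 ↔ (0 : ZMod 2) + 1 = 0) ∧ ((1 : ℤˣ) * -1 = -1 ↔ (0 : ZMod 2) + 1 = 1) ∧
    ((-1 : ℤˣ) * 1 = 1 ↔ (1 : ZMod 2) + 0 = 0) ∧ ((-1 : ℤˣ) * 1 = -1 ↔ (1 : ZMod 2) + 0 = 1) ∧
    ((-1 : ℤˣ) * -1 = 1 ↔ (1 : ZMod 2) + 1 = 0) ∧ ((-1 : ℤˣ) * -1 = -1 ↔ (1 : ZMod 2) + 1 = 1) := by
  decide

section W

variable {B : Type} {p : ℕ}

/-- `(i, x) ↦ (σ i, x + a i)` -/
def W (σ : Perm B) (a : B → ZMod p) : Perm (B × ZMod p) :=
  Equiv.prodShear σ (fun i => Equiv.addRight (a i))

lemma W_apply (σ : Perm B) (a : B → ZMod p) (x : B × ZMod p) :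
    W σ a x = (σ x.1, x.2 + a x.1) := rfl

lemma W_mul (σ τ : Perm B) (a c : B → ZMod p) :
    W σ a * W τ c = W (σ * τ) (fun i => c i + a (τ i)) := by
  ext ⟨i, x⟩
  · rfl
  · simp only [Perm.mul_apply, W_apply, add_assoc]

lemma W_one : W (1 : Perm B) (0 : B → ZMod p) = 1 := by
  ext ⟨i, x⟩ <;> simp [W_apply]

lemma W_inv (σ : Perm B) (a : B → ZMod p) :
    (W σ a)⁻¹ = W σ⁻¹ (fun i => - a (σ⁻¹ i)) := by
  rw [inv_eq_iff_mul_eq_one, W_mul, ← W_one]
  congr 1
  · exact mul_inv_cancel σ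
  · funext i; simp

/-- translations -/
def tr (B : Type) (p : ℕ) : Multiplicative (B → ZMod p) →* Perm (B × ZMod p) where
  toFun a := W 1 (Multiplicative.toAdd a)
  map_one' := W_one
  map_mul' a b := by
    rw [W_mul]
    congr 1
    funext i
    simp [add_comm]

lemma W_conj (σ : Perm B) (a : B → ZMod p) :
    W σ 0 * W 1 a * (W σ 0)⁻¹ = W 1 (fun i => a (σ⁻¹ i)) := by
  rw [mul_inv_eq_iff_eq_mul, W_mul, W_mul]
  congr 1
  funext i
  simp

variable [Fintype B] [DecidableEq B] [Fact p.Prime]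

lemma sign_W0 (σ : Perm B) : Perm.sign (W σ (0 : B → ZMod p)) = Perm.sign σ ^ p := by
  have h1 : W σ (0 : B → ZMod p) = Equiv.prodCongrLeft (fun _ : ZMod p => σ) := by
    ext ⟨i, x⟩ <;> simp [W_apply]
  rw [h1, sign_prodCongrLeft, Finset.prod_const, Finset.card_univ, ZMod.card]

lemma W_split (σ : Perm B) (a : B → ZMod p) : W σ a = W σ 0 * W 1 a := by
  rw [W_mul]
  congr 1
  funext i
  simp

/-- admissible vectors -/
def Adm (B : Type) [Fintype B] [DecidableEq B] (p : ℕ) [Fact p.Prime] :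
    Subgroup (Multiplicative (B → ZMod p)) :=
  (Perm.sign.comp (tr B p)).ker

lemma mem_Adm (a : B → ZMod p) : Multiplicative.ofAdd a ∈ Adm B p ↔ Perm.sign (W 1 a) = 1 :=
  Iff.rfl

lemma sign_tr_odd (hp : p ≠ 2) (a : B → ZMod p) : Perm.sign (W (1 : Perm B) a) = 1 := by
  have hodd : Odd p := (Fact.out : p.Prime).odd_of_ne_two hp
  refine sign_odd_pow hodd ?_
  have h1 : (tr B p (Multiplicative.ofAdd a)) ^ p = 1 := by
    rw [← map_pow, ← ofAdd_nsmul]
    have : p • a = 0 := by funext i; simp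
    rw [this, ofAdd_zero, map_one]
  exact h1

lemma sign_tr_two [Fact (Nat.Prime 2)] (a : B → ZMod 2) :
    Perm.sign (W (1 : Perm B) a) = 1 ↔ ∑ i, a i = 0 := by
  have h1 : Perm.sign (W (1 : Perm B) a) = ∏ i, Perm.sign (Equiv.addRight (a i)) := by
    change Perm.sign (Equiv.prodCongrRight (fun i => Equiv.addRight (a i))) = _
    rw [sign_prodCongrRight]
  have h2 : ∀ s : Finset B, (∏ i ∈ s, Perm.sign (Equiv.addRight (a i)) = 1 ↔ ∑ i ∈ s, a i = 0) ∧
      (∏ i ∈ s, Perm.sign (Equiv.addRight (a i)) = -1 ↔ ∑ i ∈ s, a i = 1) := by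
    intro s
    induction s using Finset.induction_on with
    | empty => simp
    | insert i s hi ih =>
      rw [Finset.prod_insert hi, Finset.sum_insert hi]
      obtain ⟨ih1, ih2⟩ := ih
      obtain ⟨f1, f2, f3, f4, f5, f6, f7, f8⟩ := two_facts
      rcases zmod_two (a i) with h | h <;> rcases zmod_two (∑ j ∈ s, a j) with h' | h'
      · have := ih1.mpr h'
        rw [h, h', this, sign_add_zero_two]; exact ⟨f1, f2⟩
      · have := ih2.mpr h'
        rw [h, h', this, sign_add_zero_two]; exact ⟨f3, f4⟩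
      · have := ih1.mpr h'
        rw [h, h', this, sign_add_one_two]; exact ⟨f5, f6⟩
      · have := ih2.mpr h'
        rw [h, h', this, sign_add_one_two]; exact ⟨f7, f8⟩
  rw [h1]
  exact (h2 Finset.univ).1

/-- differences of two coordinates of admissible vectors -/
lemma adm_surj (hB : 3 ≤ Fintype.card B ∨ p ≠ 2) {i j : B} (hij : i ≠ j) (z : ZMod p) :
    ∃ y : B → ZMod p, Perm.sign (W (1 : Perm B) y) = 1 ∧ y i - y j = z := by
  rcases eq_or_ne p 2 with h2 | h2
  · subst h2
    have h3 : 3 ≤ Fintype.card B := hB.resolve_right (fun h => h rfl)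
    obtain ⟨l, hl⟩ : ∃ l, l ∉ ({i, j} : Finset B) := by
      by_contra hcon
      push Not at hcon
      have h1 : (Finset.univ : Finset B) ⊆ {i, j} := fun y _ => hcon y
      have h2 := Finset.card_le_card h1
      have h3 := Finset.card_le_two (a := i) (b := j)
      rw [Finset.card_univ] at h2
      omega
    simp only [Finset.mem_insert, Finset.mem_singleton, not_or] at hl
    refine ⟨Pi.single i z + Pi.single l z, ?_, ?_⟩
    · rw [sign_tr_two]
      simp only [Pi.add_apply, Finset.sum_add_distrib, Finset.sum_pi_single', Finset.mem_univ,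
        if_true]
      exact CharTwo.add_self_eq_zero z
    · simp [hij.symm, Ne.symm hl.1, Ne.symm hl.2]
  · refine ⟨Pi.single i z, sign_tr_odd h2 _, ?_⟩
    simp [hij.symm]

lemma adm_surj_one (hB : 2 ≤ Fintype.card B ∨ p ≠ 2) (i : B) (z : ZMod p) :
    ∃ y : B → ZMod p, Perm.sign (W (1 : Perm B) y) = 1 ∧ y i = z := by
  rcases eq_or_ne p 2 with h2 | h2
  · subst h2
    have h3 : 2 ≤ Fintype.card B := hB.resolve_right (fun h => h rfl)
    obtain ⟨l, hl⟩ : ∃ l, l ≠ i := by
      have : Nontrivial B := Fintype.one_lt_card_iff_nontrivial.mp (by omega)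
      exact exists_ne i
    refine ⟨Pi.single i z + Pi.single l z, ?_, ?_⟩
    · rw [sign_tr_two]
      simp only [Pi.add_apply, Finset.sum_add_distrib, Finset.sum_pi_single', Finset.mem_univ,
        if_true]
      exact CharTwo.add_self_eq_zero z
    · simp [hl.symm]
  · exact ⟨Pi.single i z, sign_tr_odd h2 _, by simp⟩

/-- the number of nonzero coordinates -/
def wtB (a : B → ZMod p) : ℕ := (Finset.univ.filter fun i => a i ≠ 0).card

lemma wtB_eq (a : B → ZMod p) : (wtB a : ℂ) = ∑ i, if a i = 0 then (0 : ℂ) else 1 := by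
  rw [wtB, Finset.card_filter]
  push_cast
  refine Finset.sum_congr rfl fun i _ => ?_
  by_cases h : a i = 0 <;> simp [h]

end W

section K

variable {B : Type} [Fintype B] [DecidableEq B] {p : ℕ} [Fact p.Prime]
variable {α : Type*} [Fintype α] [DecidableEq α] {θ : alternatingGroup α → ℂ}

open Classical in
/-- extension by zero -/
noncomputable def ev (θ : alternatingGroup α → ℂ) (g : Perm α) : ℂ :=
  if h : g ∈ alternatingGroup α then θ ⟨g, h⟩ else 0

lemma ev_of {g : Perm α} (h : g ∈ alternatingGroup α) : ev θ g = θ ⟨g, h⟩ := by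
  rw [ev, dif_pos h]

lemma ev_odd {g : Perm α} (h : Perm.sign g ≠ 1) : ev θ g = 0 := by
  rw [ev, dif_neg (fun h' => h (mem_alternatingGroup.mp h'))]

lemma ev_conj (hθ : IsHeilbronn θ) {c : Perm α} (hc : Perm.sign c = 1) (g : Perm α) :
    ev θ (c * g * c⁻¹) = ev θ g := by
  by_cases h : g ∈ alternatingGroup α
  · have hc' : c ∈ alternatingGroup α := mem_alternatingGroup.mpr hc
    rw [ev_of h, ev_of (mul_mem (mul_mem hc' h) (inv_mem hc'))]
    exact hθ.conj ⟨g, h⟩ ⟨c, hc'⟩
  · have h2 : Perm.sign g ≠ 1 := fun h' => h (mem_alternatingGroup.mpr h')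
    rw [ev_odd h2, ev_odd]
    rw [Perm.sign_mul, Perm.sign_mul, hc, Perm.sign_inv, hc]
    simpa using h2

lemma via_mem {β : Type*} [Fintype β] [DecidableEq β] (f : β ↪ α) {π : Perm β}
    (h : Perm.sign π = 1) : viaEmbeddingHom f π ∈ alternatingGroup α := by
  rw [mem_alternatingGroup, viaEmb_sign]; exact h

lemma ev_via {β : Type*} [Fintype β] [DecidableEq β] (f : β ↪ α) {π : Perm β}
    (h : Perm.sign π = 1) : ev θ (viaEmbeddingHom f π) = θ ⟨viaEmbeddingHom f π, via_mem f h⟩ :=
  ev_of _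

/-- the homomorphism of the admissible vectors -/
noncomputable def ph (f : B × ZMod p ↪ α) : Adm B p →* alternatingGroup α :=
  ((viaEmbeddingHom f).comp ((tr B p).comp (Adm B p).subtype)).codRestrict (alternatingGroup α)
    (fun a => by
      have h : Perm.sign (W 1 (Multiplicative.toAdd (a : Multiplicative (B → ZMod p)))) = 1 := a.2
      exact via_mem f h)

lemma ph_coe (f : B × ZMod p ↪ α) (a : Adm B p) :
    (ph f a : Perm α) = viaEmbeddingHom f (W 1 (Multiplicative.toAdd (a : _))) := rfl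

lemma ev_ph (f : B × ZMod p ↪ α) (a : Adm B p) :
    θ (ph f a) = ev θ (viaEmbeddingHom f (W 1 (Multiplicative.toAdd (a : _)))) := by
  rw [ev_of (g := viaEmbeddingHom f (W 1 (Multiplicative.toAdd (a : _)))) (ph f a).2]
  rfl

/-- the permutation action on admissible vectors -/
def ka (σ : Perm B) : Adm B p →* Adm B p where
  toFun a := ⟨Multiplicative.ofAdd (fun i => Multiplicative.toAdd (a : Multiplicative (B → ZMod p))
    (σ⁻¹ i)), by
      have h : Perm.sign (W 1 (Multiplicative.toAdd (a : Multiplicative (B → ZMod p)))) = 1 := a.2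
      change Perm.sign (W 1 (fun i => Multiplicative.toAdd (a : Multiplicative (B → ZMod p))
        (σ⁻¹ i))) = 1
      rw [← W_conj, Perm.sign_mul, Perm.sign_mul, Perm.sign_inv, mul_right_comm,
        Int.units_mul_self, one_mul]
      exact h⟩
  map_one' := rfl
  map_mul' a b := rfl

noncomputable instance : Fintype (Adm B p) := Fintype.ofFinite _

/-- The formula on the translations. -/
def Fml (θ : alternatingGroup α → ℂ) (f : B × ZMod p ↪ α) (r c : ℂ) : Prop :=
  ∀ a : B → ZMod p, Perm.sign (W (1 : Perm B) a) = 1 →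
    ev θ (viaEmbeddingHom f (W 1 a)) = r - p * c * wtB a

lemma shift_sum (hB : 3 ≤ Fintype.card B ∨ p ≠ 2) {i j : B} (hij : i ≠ j) (z : ZMod p)
    (F : ZMod p → ℂ) :
    ∑ x : Adm B p, F (z + ((Multiplicative.toAdd (x : Multiplicative (B → ZMod p)) i)
        - (Multiplicative.toAdd (x : Multiplicative (B → ZMod p)) j)))
      = ∑ x : Adm B p, F ((Multiplicative.toAdd (x : Multiplicative (B → ZMod p)) i)
        - (Multiplicative.toAdd (x : Multiplicative (B → ZMod p)) j)) := by
  obtain ⟨y, hy, hyz⟩ := adm_surj hB hij z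
  rw [← Equiv.sum_comp (Equiv.mulLeft (⟨Multiplicative.ofAdd y, hy⟩ : Adm B p))
    (fun x => F ((Multiplicative.toAdd (x : Multiplicative (B → ZMod p)) i)
        - (Multiplicative.toAdd (x : Multiplicative (B → ZMod p)) j)))]
  refine Finset.sum_congr rfl fun x _ => ?_
  congr 1
  rw [← hyz]
  simp only [Equiv.coe_mulLeft, Subgroup.coe_mul, toAdd_mul, Pi.add_apply, toAdd_ofAdd]
  ring

/-- **Coset lemma in wreath coordinates.** -/
theorem wr_const (hθ : IsHeilbronn θ) (hB : 3 ≤ Fintype.card B ∨ p ≠ 2) (f : B × ZMod p ↪ α)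
    {r c : ℂ} (hF : Fml θ f r c) {σ : Perm B} (hσ : ∀ i, σ i ≠ i) {a : B → ZMod p}
    (h0 : Perm.sign (W σ (0 : B → ZMod p)) = 1) (ha : Perm.sign (W σ a) = 1) :
    ev θ (viaEmbeddingHom f (W σ a)) = ev θ (viaEmbeddingHom f (W σ 0)) := by
  classical
  have ha1 : Perm.sign (W (1 : Perm B) a) = 1 := by
    rw [W_split, Perm.sign_mul, h0, one_mul] at ha
    exact ha
  let g : alternatingGroup α := ⟨viaEmbeddingHom f (W σ 0), via_mem f h0⟩
  have hκ : ∀ x : Adm B p, g * ph f x * g⁻¹ = ph f (ka σ x) := by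
    intro x
    apply Subtype.ext
    change viaEmbeddingHom f (W σ 0) * viaEmbeddingHom f (W 1 _) * (viaEmbeddingHom f (W σ 0))⁻¹
      = viaEmbeddingHom f (W 1 _)
    rw [← map_inv, ← map_mul, ← map_mul, W_conj]
    rfl
  have hval : ∀ x : Adm B p, θ (ph f x)
      = r - p * c * ∑ i, if Multiplicative.toAdd (x : Multiplicative (B → ZMod p)) i = 0
          then (0 : ℂ) else 1 := by
    intro x
    have h : Perm.sign (W 1 (Multiplicative.toAdd (x : Multiplicative (B → ZMod p)))) = 1 := x.2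
    rw [ev_ph (θ := θ) f x, hF _ h, wtB_eq]
  have key := coset_const (g := g) (ph f) (ka σ) hθ hκ ?_ ⟨Multiplicative.ofAdd a, ha1⟩
  · rw [ev_of (via_mem f ha), ev_of (via_mem f h0)]
    rw [← key]
    congr 1
    apply Subtype.ext
    change _ = viaEmbeddingHom f (W σ 0) * viaEmbeddingHom f (W 1 a)
    rw [← map_mul, ← W_split]
  · intro b
    have h1 : ∀ b : Adm B p, ∑ x : Adm B p, θ (ph f (b * dl (ka σ) x))
        = (Fintype.card (Adm B p) : ℂ) * r - p * c * ∑ i, ∑ x : Adm B p,
          if Multiplicative.toAdd (b : Multiplicative (B → ZMod p)) i +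
            (Multiplicative.toAdd (x : Multiplicative (B → ZMod p)) i
            - Multiplicative.toAdd (x : Multiplicative (B → ZMod p)) (σ⁻¹ i)) = 0
          then (0 : ℂ) else 1 := by
      intro b
      rw [Finset.sum_congr rfl (fun x _ => hval (b * dl (ka σ) x)), Finset.sum_sub_distrib,
        Finset.sum_const, Finset.card_univ, nsmul_eq_mul, ← Finset.mul_sum, Finset.sum_comm]
      congr 1
      congr 1
      refine Finset.sum_congr rfl fun i _ => Finset.sum_congr rfl fun x _ => ?_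
      have : Multiplicative.toAdd ((b * dl (ka σ) x : Adm B p) : Multiplicative (B → ZMod p)) i
          = Multiplicative.toAdd (b : Multiplicative (B → ZMod p)) i +
            (Multiplicative.toAdd (x : Multiplicative (B → ZMod p)) i
            - Multiplicative.toAdd (x : Multiplicative (B → ZMod p)) (σ⁻¹ i)) := by
        rw [sub_eq_add_neg]
        rfl
      rw [this]
    have h2 := h1 1
    simp only [one_mul] at h2
    rw [h1, h2]
    congr 1
    congr 1
    refine Finset.sum_congr rfl fun i _ => ?_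
    have hi : i ≠ σ⁻¹ i := by
      intro h
      apply hσ i
      nth_rewrite 1 [h]
      exact perm_mul_inv_apply σ i
    rw [shift_sum hB hi _ (fun z => if z = 0 then (0 : ℂ) else 1)]
    refine Finset.sum_congr rfl fun x _ => ?_
    have : Multiplicative.toAdd ((1 : Adm B p) : Multiplicative (B → ZMod p)) i = 0 := rfl
    rw [this, zero_add]

end K

end Pool.Agent.X21.Sy
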