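import Mathlib
import Pool.Agent.X21.Sy.Wr

/-!
# Values at semiregular permutations
-/

set_option autoImplicit false
set_option linter.unusedSectionVars false

namespace Pool.Agent.X21.Sy

open Pool.Agent.H302R2 Subgroup Equiv Equiv.Perm

section coord

variable {Ω : Type} [Fintype Ω] {p : ℕ} [hp : Fact p.Prime]

lemma Y_add {y : Perm Ω} (hy : y ^ p = 1) (c d : ZMod p) :
    y ^ (c + d).val = y ^ c.val * y ^ d.val := by
  rw [← pow_add, ZMod.val_add, ← pow_eq_pow_mod _ hy]

lemma Y_neg {y : Perm Ω} (hy : y ^ p = 1) (c : ZMod p) (x z : Ω) (h : (y ^ c.val) x = z) :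
    (y ^ (-c).val) z = x := by
  rw [← h, ← Perm.mul_apply, ← Y_add hy]
  simp

lemma Y_fix {y : Perm Ω} (hy : y ^ p = 1) (hf : ∀ x, y x ≠ x) {c : ZMod p} {x : Ω}
    (h : (y ^ c.val) x = x) : c = 0 := by
  by_contra hc
  have h1 : ∀ k : ℕ, (y ^ ((k : ZMod p) * c).val) x = x := by
    intro k
    induction k with
    | zero => simp
    | succ k ih =>
      rw [Nat.cast_succ, add_mul, one_mul, Y_add hy, Perm.mul_apply, h, ih]
  have h2 := h1 (c⁻¹).val
  rw [ZMod.natCast_val, ZMod.cast_id', id, inv_mul_cancel₀ hc] at h2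
  have h3 : (1 : ZMod p).val = 1 := ZMod.val_one p
  rw [h3, pow_one] at h2
  exact hf x h2

/-- wreath coordinates for the centralizer of a semiregular permutation of order `p` -/
theorem exists_coord {y : Perm Ω} (hy : y ^ p = 1) (hf : ∀ x, y x ≠ x) {g : Perm Ω}
    (hg : g * y = y * g) :
    ∃ (b : ℕ) (e : Fin b × ZMod p ≃ Ω) (σ : Perm (Fin b)) (a : Fin b → ZMod p),
      (∀ x, g (e x) = e (W σ a x)) ∧ (∀ x, y (e x) = e (x.1, x.2 + 1)) := by
  classical
  let R : Setoid Ω :=
    { r := fun x z => ∃ c : ZMod p, (y ^ c.val) x = z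
      iseqv :=
        { refl := fun x => ⟨0, by simp⟩
          symm := fun {x z} ⟨c, hc⟩ => ⟨-c, Y_neg hy c x z hc⟩
          trans := fun {x z w} ⟨c, hc⟩ ⟨d, hd⟩ => ⟨d + c, by
            rw [Y_add hy, Perm.mul_apply, hc, hd]⟩ } }
  let Q := Quotient R
  have : Fintype Q := Fintype.ofFinite Q
  let s : Q → Ω := Quotient.out
  have hs : ∀ q : Q, (Quotient.mk R (s q)) = q := fun q => Quotient.out_eq q
  have hmk : ∀ x z : Ω, Quotient.mk R x = Quotient.mk R z ↔ ∃ c : ZMod p, (y ^ c.val) x = z :=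
    fun x z => Quotient.eq
  let E0 : Q × ZMod p → Ω := fun x => (y ^ x.2.val) (s x.1)
  have hinj : Function.Injective E0 := by
    rintro ⟨q, c⟩ ⟨q', d⟩ h
    simp only [E0] at h
    have h1 : (y ^ (-d + c).val) (s q) = s q' := by
      rw [Y_add hy, Perm.mul_apply, h]
      exact Y_neg hy d (s q') _ rfl
    have h2 : q = q' := by
      rw [← hs q, ← hs q']
      exact (hmk _ _).mpr ⟨_, h1⟩
    subst h2
    have h3 := Y_fix hy hf h1
    have h4 : c = d := by linear_combination h3
    rw [h4]
  have hsurj : Function.Surjective E0 := by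
    intro x
    obtain ⟨c, hc⟩ := (hmk (s (Quotient.mk R x)) x).mp (hs _)
    exact ⟨(Quotient.mk R x, c), hc⟩
  let E := Equiv.ofBijective E0 ⟨hinj, hsurj⟩
  have hE : ∀ q c, E (q, c) = (y ^ c.val) (s q) := fun q c => rfl
  have hyk : ∀ (k : ℕ) (x : Ω), g ((y ^ k) x) = (y ^ k) (g x) := by
    intro k x
    have h1 : Commute g y := hg
    have h2 := (h1.pow_right k).eq
    rw [← Perm.mul_apply, h2, Perm.mul_apply]
  choose st hst using fun q : Q => hsurj (g (s q))
  have hst' : ∀ q, g (s q) = (y ^ (st q).2.val) (s (st q).1) := fun q => (hst q).symm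
  have hσinj : Function.Injective (fun q => (st q).1) := by
    intro q q' h
    simp only at h
    have h1 := hst' q
    have h2 := hst' q'
    rw [← h] at h2
    have h3 : (y ^ (-(st q').2).val) (g (s q')) = s (st q).1 := Y_neg hy _ _ _ h2.symm
    have h4 : g (s q) = (y ^ ((st q).2 + -(st q').2).val) (g (s q')) := by
      rw [Y_add hy, Perm.mul_apply, h3, h1]
    rw [← hyk] at h4
    have h5 := g.injective h4
    rw [← hs q, ← hs q']
    exact ((hmk _ _).mpr ⟨_, h5.symm⟩).symm
  let σ : Perm Q := Equiv.ofBijective _ (Finite.injective_iff_bijective.mp hσinj)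
  let ε := (Fintype.equivFin Q).symm
  refine ⟨Fintype.card Q, (Equiv.prodCongrLeft (fun _ => ε)).trans E,
    ε.trans (σ.trans ε.symm), fun i => (st (ε i)).2, ?_, ?_⟩
  · rintro ⟨i, x⟩
    simp only [Equiv.trans_apply, Equiv.prodCongrLeft_apply, W_apply, hE, Equiv.apply_symm_apply]
    rw [hyk, hst']
    rw [Y_add hy, Perm.mul_apply]
    rfl
  · rintro ⟨i, x⟩
    simp only [Equiv.trans_apply, Equiv.prodCongrLeft_apply, hE]
    rw [add_comm, Y_add hy, Perm.mul_apply, ZMod.val_one p, pow_one]

end coord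

section SRdef

/-- all cycles of `g` have length `d` -/
def SR {Ω : Type} (d : ℕ) (g : Perm Ω) : Prop :=
  g ^ d = 1 ∧ ∀ j, 0 < j → j < d → ∀ x, (g ^ j) x ≠ x

lemma W_pow_fst {B : Type} {p : ℕ} (σ : Perm B) (a : B → ZMod p) (j : ℕ) (x : B × ZMod p) :
    ((W σ a ^ j) x).1 = (σ ^ j) x.1 := by
  induction j with
  | zero => simp
  | succ j ih =>
    rw [pow_succ', pow_succ', Perm.mul_apply, Perm.mul_apply, W_apply, ih]

lemma W0_pow {B : Type} {p : ℕ} (σ : Perm B) (j : ℕ) :
    (W σ (0 : B → ZMod p)) ^ j = W (σ ^ j) 0 := by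
  induction j with
  | zero => rw [pow_zero, pow_zero, W_one]
  | succ j ih =>
    rw [pow_succ', ih, W_mul, pow_succ']
    congr 1
    funext i
    simp

end SRdef

section via

variable {α : Type*} [Fintype α] [DecidableEq α] {θ : alternatingGroup α → ℂ}

lemma via_trans {X Y : Type} (e : X ≃ Y) (f : Y ↪ α) (π : Perm X) :
    viaEmbeddingHom (e.toEmbedding.trans f) π = viaEmbeddingHom f (e.permCongr π) := by
  ext z
  by_cases hz : ∃ y, f y = z
  · obtain ⟨y, rfl⟩ := hz
    obtain ⟨x, rfl⟩ := e.surjective y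
    rw [viaEmb_apply]
    have h1 := viaEmb_apply (e.toEmbedding.trans f) π x
    simp only [Function.Embedding.trans_apply, Equiv.coe_toEmbedding] at h1
    rw [h1]
    simp
  · push Not at hz
    rw [viaEmb_notMem f _ hz, viaEmb_notMem]
    intro x
    exact hz (e x)

lemma via_eq_of {X Y : Type} (e : X ≃ Y) (f : Y ↪ α) (π : Perm X) (g : Perm Y)
    (h : ∀ x, g (e x) = e (π x)) :
    viaEmbeddingHom f g = viaEmbeddingHom (e.toEmbedding.trans f) π := by
  rw [via_trans]
  congr 1
  ext y
  obtain ⟨x, rfl⟩ := e.surjective y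
  simp [h]

lemma sign_eq_of {X Y : Type} [Fintype X] [DecidableEq X] [Fintype Y] [DecidableEq Y] (e : X ≃ Y)
    (π : Perm X) (g : Perm Y) (h : ∀ x, g (e x) = e (π x)) : Perm.sign π = Perm.sign g := by
  have : g = e.permCongr π := by
    ext y
    obtain ⟨x, rfl⟩ := e.surjective y
    simp [h]
  rw [this, Perm.sign_permCongr]

/-- hypotheses on the formula for all primes -/
def AllF (θ : alternatingGroup α → ℂ) (k : ℕ) (r c : ℂ) : Prop :=
  ∀ (p : ℕ) [Fact p.Prime] (B : Type) [Fintype B] [DecidableEq B], Fintype.card B * p = k →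
    ∀ f : B × ZMod p ↪ α, Fml θ f r c

theorem value_SR (hθ : IsHeilbronn θ) {k : ℕ} {r c : ℂ} (hA : AllF θ k r c) (hk : 6 ≤ k) :
    ∀ (d : ℕ), 1 < d → ∀ (Ω : Type) [Fintype Ω] [DecidableEq Ω], Fintype.card Ω = k →
      ∀ (f : Ω ↪ α) (g : Perm Ω), SR d g → Perm.sign g = 1 →
        ev θ (viaEmbeddingHom f g) = r - c * k := by
  intro d
  induction d using Nat.strong_induction_on with
  | _ d ih =>
  intro hd Ω _ _ hΩ f g hg hs
  classical
  have : Fact d.minFac.Prime := ⟨Nat.minFac_prime (by omega)⟩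
  set p := d.minFac with hpdef
  have hp : p.Prime := Fact.out
  obtain ⟨d', hd'⟩ : p ∣ d := Nat.minFac_dvd d
  have hd'0 : 0 < d' := by
    rcases Nat.eq_zero_or_pos d' with h | h
    · rw [h, mul_zero] at hd'; omega
    · exact h
  have hd'd : d' < d := by
    rw [hd']
    have := hp.two_le
    nlinarith
  have hy1 : (g ^ d') ^ p = 1 := by rw [← pow_mul, mul_comm, ← hd']; exact hg.1
  have hy2 : ∀ x, (g ^ d') x ≠ x := hg.2 d' hd'0 hd'd
  obtain ⟨b, e, σ, a, h1, h2⟩ := exists_coord (g := g) hy1 hy2 ((Commute.refl g).pow_right d').eq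
  have hyk : ∀ (j : ℕ) (x : Fin b × ZMod p), (g ^ (d' * j)) (e x) = e (x.1, x.2 + j) := by
    intro j
    induction j with
    | zero => intro x; simp
    | succ j ihj =>
      intro x
      rw [mul_add, mul_one, add_comm, pow_add, Perm.mul_apply, ihj, h2]
      congr 1
      simp only [Nat.cast_succ, Prod.mk.injEq, true_and]
      ring
  have hgk : ∀ (j : ℕ) (x : Fin b × ZMod p), (g ^ j) (e x) = e ((W σ a ^ j) x) := by
    intro j
    induction j with
    | zero => intro x; simp
    | succ j ihj =>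
      intro x
      rw [pow_succ', pow_succ', Perm.mul_apply, Perm.mul_apply, ihj, h1]
  have hcard : Fintype.card (Fin b) * p = k := by
    rw [← hΩ, ← Fintype.card_congr e, Fintype.card_prod, ZMod.card]
  have hcardb : b * p = k := by rwa [Fintype.card_fin] at hcard
  have hF := hA p (Fin b) hcard (e.toEmbedding.trans f)
  have hsW : Perm.sign (W σ a) = 1 := by rw [sign_eq_of e (W σ a) g h1]; exact hs
  rw [via_eq_of e f (W σ a) g h1]
  rcases Nat.lt_or_ge 1 d' with hlt | hge
  swap
  · -- `d` is prime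
    have hd1 : d' = 1 := by omega
    have h3 : W σ a = W 1 1 := by
      ext x
      · have := hyk 1 x
        rw [hd1, one_mul, pow_one, h1] at this
        have := e.injective this
        rw [this]; rfl
      · have := hyk 1 x
        rw [hd1, one_mul, pow_one, h1] at this
        have := e.injective this
        rw [this]; simp [W_apply]
    rw [h3] at hsW ⊢
    rw [hF _ hsW]
    have h4 : wtB (1 : Fin b → ZMod p) = b := by
      simp [wtB]
    rw [h4, ← hcardb]
    push_cast
    ring
  · have hσ : ∀ j, 0 < j → j < d' → ∀ i, (σ ^ j) i ≠ i := by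
      intro j hj0 hj i hi
      have h3 := hgk j (i, 0)
      have h4 : ((W σ a ^ j) (i, 0)).1 = i := by rw [W_pow_fst]; exact hi
      set z := ((W σ a ^ j) (i, 0)).2 with hz
      have h5 : (W σ a ^ j) (i, 0) = (i, z) := Prod.ext h4 rfl
      have h6 := hyk z.val (i, 0)
      rw [ZMod.natCast_val, ZMod.cast_id', id] at h6
      simp only [zero_add] at h6
      rw [h5, ← h6] at h3
      have h7 : z.val < p := ZMod.val_lt z
      rcases Nat.eq_zero_or_pos z.val with h8 | h8
      · rw [h8, mul_zero, pow_zero, Perm.one_apply] at h3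
        exact hg.2 j hj0 (by omega) _ h3
      · have h9 : d' ≤ d' * z.val := Nat.le_mul_of_pos_right _ h8
        have h10 : d' * z.val ≤ d := by
          rw [hd', mul_comm p d']
          exact Nat.mul_le_mul_left _ h7.le
        refine hg.2 (d' * z.val - j) (by omega) (by omega) (e (i, 0)) ?_
        apply (g ^ j).injective
        rw [← Perm.mul_apply, ← pow_add, h3]
        congr 2
        omega
    have hσ1 : ∀ i, σ i ≠ i := by
      intro i
      have := hσ 1 one_pos hlt i
      rwa [pow_one] at this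
    have hσd : σ ^ d' = 1 := by
      ext i
      have h3 := hgk d' (i, 0)
      have h4 := hyk 1 (i, 0)
      rw [mul_one, h3] at h4
      have h5 := congrArg Prod.fst (e.injective h4)
      rw [W_pow_fst] at h5
      simpa using congrArg Fin.val h5
    have hB : 3 ≤ Fintype.card (Fin b) ∨ p ≠ 2 := by
      by_cases h : p = 2
      · left
        rw [Fintype.card_fin]
        rw [h] at hcardb
        omega
      · exact Or.inr h
    have hs0 : Perm.sign (W σ (0 : Fin b → ZMod p)) = 1 := by
      by_cases h : p = 2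
      · rw [sign_W0, h]; exact Int.units_sq _
      · rw [W_split, Perm.sign_mul, sign_tr_odd h, mul_one] at hsW
        exact hsW
    rw [wr_const hθ hB _ hF hσ1 hs0 hsW]
    refine ih d' hd'd hlt (Fin b × ZMod p) ?_ _ _ ⟨?_, ?_⟩ hs0
    · rw [Fintype.card_prod, ZMod.card]; exact hcard
    · rw [W0_pow, hσd, W_one]
    · intro j hj0 hj x hx
      rw [W0_pow] at hx
      exact hσ j hj0 hj x.1 (congrArg Prod.fst hx)

end via

end Pool.Agent.X21.Sy
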