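import Mathlib
import Pool.Agent.X21.Sy.Vd

/-!
# The degree bound from a transitive subgroup
-/

set_option autoImplicit false
set_option linter.unusedSectionVars false

namespace Pool.Agent.X21.Sy

open Pool.Agent.H302R2 Subgroup Equiv Equiv.Perm

variable {α : Type*} [Fintype α] [DecidableEq α] {θ : alternatingGroup α → ℂ}

section mean

variable {B : Type} [Fintype B] [DecidableEq B] {p : ℕ} [Fact p.Prime]

lemma count_zero (hB : 2 ≤ Fintype.card B ∨ p ≠ 2) (i : B) :
    (p : ℂ) * ∑ x : Adm B p, (if Multiplicative.toAdd (x : Multiplicative (B → ZMod p)) i = 0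
      then (0 : ℂ) else 1) = (p - 1) * Fintype.card (Adm B p) := by
  classical
  have h1 : ∀ z : ZMod p, ∑ x : Adm B p,
      (if Multiplicative.toAdd (x : Multiplicative (B → ZMod p)) i = z then (1 : ℂ) else 0)
      = ∑ x : Adm B p,
      (if Multiplicative.toAdd (x : Multiplicative (B → ZMod p)) i = 0 then (1 : ℂ) else 0) := by
    intro z
    obtain ⟨y, hy, hyz⟩ := adm_surj_one hB i z
    rw [← Equiv.sum_comp (Equiv.mulLeft (⟨Multiplicative.ofAdd y, hy⟩ : Adm B p))]
    refine Finset.sum_congr rfl fun x _ => ?_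
    simp only [Equiv.coe_mulLeft, Subgroup.coe_mul, toAdd_mul, Pi.add_apply, toAdd_ofAdd, hyz]
    congr 1
    exact propext ⟨fun h => by linear_combination h, fun h => by linear_combination h⟩
  have h2 : ∑ z : ZMod p, ∑ x : Adm B p,
      (if Multiplicative.toAdd (x : Multiplicative (B → ZMod p)) i = z then (1 : ℂ) else 0)
      = Fintype.card (Adm B p) := by
    rw [Finset.sum_comm]
    simp
  rw [Finset.sum_congr rfl (fun z _ => h1 z), Finset.sum_const, Finset.card_univ, ZMod.card,
    nsmul_eq_mul] at h2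
  have h3 : ∀ x : Adm B p, (if Multiplicative.toAdd (x : Multiplicative (B → ZMod p)) i = 0
      then (0 : ℂ) else 1) = 1 -
      (if Multiplicative.toAdd (x : Multiplicative (B → ZMod p)) i = 0 then (1 : ℂ) else 0) := by
    intro x
    split_ifs <;> simp
  rw [Finset.sum_congr rfl (fun x _ => h3 x), Finset.sum_sub_distrib, Finset.sum_const,
    Finset.card_univ, nsmul_eq_mul, mul_one, mul_sub, h2]
  ring

lemma sum_adm (hB : 2 ≤ Fintype.card B ∨ p ≠ 2) (f : B × ZMod p ↪ α) {r c : ℂ}
    (hF : Fml θ f r c) :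
    ∑ x : Adm B p, θ (ph f x)
      = Fintype.card (Adm B p) * (r - c * Fintype.card B * (p - 1)) := by
  have hval : ∀ x : Adm B p, θ (ph f x)
      = r - p * c * ∑ i, if Multiplicative.toAdd (x : Multiplicative (B → ZMod p)) i = 0
          then (0 : ℂ) else 1 := by
    intro x
    have h : Perm.sign (W 1 (Multiplicative.toAdd (x : Multiplicative (B → ZMod p)))) = 1 := x.2
    rw [ev_ph (θ := θ) f x, hF _ h, wtB_eq]
  rw [Finset.sum_congr rfl (fun x _ => hval x), Finset.sum_sub_distrib,
    Finset.sum_const, Finset.card_univ, nsmul_eq_mul, ← Finset.mul_sum, Finset.sum_comm,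
    mul_comm (p : ℂ) c, mul_assoc, Finset.mul_sum,
    Finset.sum_congr rfl (fun i _ => count_zero hB i), Finset.sum_const, Finset.card_univ,
    nsmul_eq_mul]
  ring

end mean

/-- translations of `ZMod b` -/
lemma addRight_pow {b : ℕ} (j : ZMod b) (k : ℕ) (x : ZMod b) :
    ((Equiv.addRight j : Perm (ZMod b)) ^ k) x = x + k * j := by
  induction k with
  | zero => simp
  | succ k ih => rw [pow_succ', Perm.mul_apply, ih, coe_addRight]; push_cast; ring

/-- **The degree bound.** -/
theorem degree_bound (hθ : IsHeilbronn θ) {k : ℕ} {r c : ℂ} (hA : AllF θ k r c) (hk : 6 ≤ k)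
    (hkc : ¬ k.Prime) (hkα : k ≤ Fintype.card α) : ∃ n : ℕ, r = c * (k - 1) + n := by
  classical
  have : Fact k.minFac.Prime := ⟨Nat.minFac_prime (by omega)⟩
  set p := k.minFac with hpdef
  have hp : p.Prime := Fact.out
  obtain ⟨b, hb⟩ : p ∣ k := Nat.minFac_dvd k
  have hb0 : b ≠ 0 := by
    rintro rfl
    omega
  have hb1 : b ≠ 1 := by
    rintro rfl
    rw [mul_one] at hb
    exact hkc (hb ▸ hp)
  have : NeZero b := ⟨hb0⟩
  have hB2 : 2 ≤ Fintype.card (ZMod b) ∨ p ≠ 2 := Or.inl (by rw [ZMod.card]; omega)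
  have hB3 : 3 ≤ Fintype.card (ZMod b) ∨ p ≠ 2 := by
    by_cases h : p = 2
    · left
      rw [ZMod.card]
      rw [h] at hb
      omega
    · exact Or.inr h
  have hcard : Fintype.card (ZMod b) * p = k := by rw [ZMod.card, hb, mul_comm]
  obtain ⟨f⟩ : Nonempty (ZMod b × ZMod p ↪ α) := by
    apply Function.Embedding.nonempty_of_card_le
    rw [Fintype.card_prod, ZMod.card p, hcard]
    exact hkα
  have hF := hA p (ZMod b) hcard f
  let τ : ZMod b → Perm (ZMod b) := fun j => Equiv.addRight j
  have hsτ : ∀ j, Perm.sign (W (τ j) (0 : ZMod b → ZMod p)) = 1 := by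
    intro j
    rw [sign_W0]
    by_cases h : p = 2
    · rw [h]; exact Int.units_sq _
    · have hodd : Odd b := by
        rw [← Nat.not_even_iff_odd]
        intro he
        have h2 : 2 ∣ k := hb ▸ (even_iff_two_dvd.mp he).mul_left p
        have h3 := Nat.minFac_le_of_dvd (le_refl 2) h2
        have := hp.two_le
        omega
      have h4 : Perm.sign (τ j) = 1 := by
        refine sign_odd_pow hodd ?_
        ext x
        rw [addRight_pow]
        simp
      rw [h4, one_pow]
  set D := ((ph f).comp (MonoidHom.id _)).range with hD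
  have hκ : ∀ (j : ZMod b) (x : Adm (ZMod b) p),
      (⟨viaEmbeddingHom f (W (τ j) 0), via_mem f (hsτ j)⟩ : alternatingGroup α) * ph f x *
        (⟨viaEmbeddingHom f (W (τ j) 0), via_mem f (hsτ j)⟩ : alternatingGroup α)⁻¹
        = ph f (ka (τ j) x) := by
    intro j x
    apply Subtype.ext
    change viaEmbeddingHom f (W _ 0) * viaEmbeddingHom f (W 1 _) * (viaEmbeddingHom f (W _ 0))⁻¹
      = viaEmbeddingHom f (W 1 _)
    rw [← map_inv, ← map_mul, ← map_mul, W_conj]
    rfl
  let Ψ : Multiplicative (ZMod b) →* normalizer (D : Set (alternatingGroup α)) :=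
    { toFun := fun j => ⟨⟨viaEmbeddingHom f (W (τ (Multiplicative.toAdd j)) 0),
        via_mem f (hsτ _)⟩, mem_norm_range (ph f) (ka (τ (Multiplicative.toAdd j)))
          (hκ _) (MonoidHom.id _) (fun _ => rfl)⟩
      map_one' := by
        apply Subtype.ext
        apply Subtype.ext
        change viaEmbeddingHom f (W (τ 0) 0) = 1
        have : τ 0 = 1 := by ext x; simp [τ]
        rw [this, W_one, map_one]
      map_mul' := fun i j => by
        apply Subtype.ext
        apply Subtype.ext
        change viaEmbeddingHom f (W (τ (Multiplicative.toAdd (i * j))) 0)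
          = viaEmbeddingHom f (W (τ _) 0) * viaEmbeddingHom f (W (τ _) 0)
        rw [← map_mul, W_mul]
        congr 2
        · ext x
          simp only [τ, toAdd_mul, Perm.mul_apply, coe_addRight]
          ring
        · funext i; simp }
  obtain ⟨Q, _, _, Θ, π, hΘ, h1, -⟩ := exists_avg hθ D
  have hη := hΘ.comp (π.comp Ψ)
  obtain ⟨n, hn⟩ := hη.mult_hom (MonoidHom.id _) 1
  have hDc : (Nat.card D : ℂ) ≠ 0 := by exact_mod_cast Nat.card_pos.ne'
  have : Fintype D := Fintype.ofFinite _
  -- the value at the identity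
  have hone : Θ (π (Ψ 1)) = r - c * b * (p - 1) := by
    rw [h1, map_one]
    simp only [OneMemClass.coe_one, one_mul]
    have h2 := sum_comp_surj ((ph f).comp (MonoidHom.id _)).rangeRestrict
      (MonoidHom.rangeRestrict_surjective _) (fun n : D => θ n)
    rw [MonoidHom.ker_rangeRestrict] at h2
    have h3 := sum_adm hB2 f hF
    have h4 : ∑ x : Adm (ZMod b) p, θ (ph f x)
        = ∑ e : Adm (ZMod b) p, θ (((ph f).comp (MonoidHom.id _)).rangeRestrict e) := rfl
    rw [h4, h2, ← finsum_eq_sum_of_fintype] at h3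
    have h5 : (Fintype.card (Adm (ZMod b) p) : ℂ)
        = Nat.card ((ph f).comp (MonoidHom.id _)).ker * Nat.card D := by
      have h6 : Nat.card (Adm (ZMod b) p)
          = Nat.card ((ph f).comp (MonoidHom.id _)).ker * Nat.card D := by
        rw [← Nat.card_congr (QuotientGroup.quotientKerEquivRange
          ((ph f).comp (MonoidHom.id _))).toEquiv, mul_comm]
        exact Subgroup.card_eq_card_quotient_mul_card_subgroup _
      rw [← Nat.card_eq_fintype_card, h6]
      push_cast
      rfl
    have hk0 : (Nat.card ((ph f).comp (MonoidHom.id _)).ker : ℂ) ≠ 0 := by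
      exact_mod_cast Nat.card_pos.ne'
    rw [h5, mul_assoc] at h3
    have h7 := mul_left_cancel₀ hk0 h3
    rw [h7, ← mul_assoc, inv_mul_cancel₀ hDc, one_mul, ZMod.card]
  -- the other values
  have hother : ∀ j : ZMod b, j ≠ 0 → Θ (π (Ψ (Multiplicative.ofAdd j))) = r - c * k := by
    intro j hj
    have hτ : ∀ i, τ j i ≠ i := by
      intro i h
      simp only [τ, coe_addRight] at h
      exact hj (by linear_combination h)
    have h2 : ∀ n : D, θ ((Ψ (Multiplicative.ofAdd j)).1 * n)
        = ev θ (viaEmbeddingHom f (W (τ j) 0)) := by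
      rintro ⟨_, x, rfl⟩
      have hx : Perm.sign (W (1 : Perm (ZMod b))
        (Multiplicative.toAdd (x : Multiplicative (ZMod b → ZMod p)))) = 1 := x.2
      have hs : Perm.sign (W (τ j)
          (Multiplicative.toAdd (x : Multiplicative (ZMod b → ZMod p)))) = 1 := by
        rw [W_split, Perm.sign_mul, hsτ, hx, one_mul]
      rw [← wr_const hθ hB3 f hF hτ (hsτ j) hs, ev_of (via_mem f hs)]
      congr 1
      apply Subtype.ext
      change viaEmbeddingHom f (W (τ j) 0) * viaEmbeddingHom f (W 1 _) = _
      rw [← map_mul, ← W_split]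
      rfl
    rw [h1, finsum_congr h2, finsum_eq_sum_of_fintype, Finset.sum_const, Finset.card_univ,
      nsmul_eq_mul, ← mul_assoc, ← Nat.card_eq_fintype_card, inv_mul_cancel₀ hDc, one_mul]
    have hord : 1 < addOrderOf j := by
      have h3 : addOrderOf j ≠ 1 := by
        rw [Ne, AddMonoid.addOrderOf_eq_one_iff]; exact hj
      have h4 : 0 < addOrderOf j := addOrderOf_pos j
      omega
    refine value_SR hθ hA hk (addOrderOf j) hord (ZMod b × ZMod p) (by
      rw [Fintype.card_prod, ZMod.card p, hcard]) f _ ⟨?_, ?_⟩ (hsτ j)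
    · rw [W0_pow]
      have : τ j ^ addOrderOf j = 1 := by
        ext x
        rw [addRight_pow, ← nsmul_eq_mul, addOrderOf_nsmul_eq_zero]
        simp
      rw [this, W_one]
    · intro i hi0 hi x hx
      rw [W0_pow] at hx
      have h3 := congrArg Prod.fst hx
      rw [W_apply] at h3
      simp only at h3
      rw [addRight_pow] at h3
      have h4 : i • j = 0 := by rw [nsmul_eq_mul]; linear_combination h3
      exact absurd (addOrderOf_le_of_nsmul_eq_zero hi0 h4) (by omega)
  -- summation
  simp only [MonoidHom.id_apply, MonoidHom.one_apply, inv_one, Units.val_one, mul_one,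
    MonoidHom.comp_apply] at hn
  rw [← Multiplicative.ofAdd.sum_comp, ← Finset.add_sum_erase _ _ (Finset.mem_univ (0 : ZMod b)),
    Finset.sum_congr rfl (fun j hj => hother j (Finset.mem_erase.mp hj).1), Finset.sum_const,
    Finset.card_erase_of_mem (Finset.mem_univ _), Finset.card_univ, ZMod.card, nsmul_eq_mul,
    ofAdd_zero, hone, Nat.cast_sub (by omega)] at hn
  have hcb : (Nat.card (Multiplicative (ZMod b)) : ℂ) = b := by
    have : Nat.card (Multiplicative (ZMod b)) = b := by
      rw [Nat.card_congr Multiplicative.toAdd]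
      simp
    rw [this]
  rw [hcb] at hn
  refine ⟨n, ?_⟩
  have hbc : (b : ℂ) ≠ 0 := by exact_mod_cast hb0
  apply mul_left_cancel₀ hbc
  have hkc' : (k : ℂ) = p * b := by rw [hb]; push_cast; rfl
  rw [hkc'] at hn ⊢
  push_cast at hn
  linear_combination hn
end Pool.Agent.X21.Sy
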