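import Mathlib
import Pool.Agent.X21.Sy.Tr

/-!
# Fourier coefficients on the translations
-/

set_option autoImplicit false
set_option linter.unusedSectionVars false

namespace Pool.Agent.X21.Sy

open Pool.Agent.H302R2 Subgroup Equiv Equiv.Perm

section fourier

variable {p b : ℕ} [Fact p.Prime] {e : AddChar (ZMod p) ℂ}

lemma sum_all (he : e.IsPrimitive) (x : Fin b → ZMod p) :
    ∑ y : Fin b → ZMod p, e (∑ i, y i * x i) = if x = 0 then (p : ℂ) ^ b else 0 := by
  classical
  have h3 : ∀ y : Fin b → ZMod p, e (∑ i, y i * x i) = ∏ i, e (y i * x i) :=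
    fun y => addChar_sum e _ _
  rw [Finset.sum_congr rfl (fun y _ => h3 y)]
  have h4 := Finset.prod_univ_sum (fun _ : Fin b => (Finset.univ : Finset (ZMod p)))
    (fun i z => e (z * x i))
  rw [Fintype.piFinset_univ] at h4
  rw [← h4]
  by_cases hx : x = 0
  · subst hx
    simp [ZMod.card]
  · rw [if_neg hx]
    obtain ⟨i, hi⟩ := Function.ne_iff.mp hx
    have h5 : ∑ z : ZMod p, e (z * x i) = 0 := by
      rw [AddChar.sum_mulShift _ he, if_neg (by simpa using hi)]
      simp
    exact Finset.prod_eq_zero (Finset.mem_univ i) h5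

lemma invert (he : e.IsPrimitive) {t : (Fin b → ZMod p) → ℂ} {n : (Fin b → ZMod p) → ℕ}
    (hn : ∀ y, ∑ a, t a * e (-∑ i, y i * a i) = n y * (p : ℂ) ^ b) (a : Fin b → ZMod p) :
    t a = ∑ y, (n y : ℂ) * e (∑ i, y i * a i) := by
  classical
  have hq : ((p : ℂ) ^ b) ≠ 0 := pow_ne_zero _ (by
    exact_mod_cast (Fact.out : p.Prime).ne_zero)
  apply mul_right_cancel₀ hq
  rw [Finset.sum_mul]
  have h1 : ∀ y : Fin b → ZMod p, (n y : ℂ) * e (∑ i, y i * a i) * (p : ℂ) ^ b
      = ∑ a', t a' * e (∑ i, y i * (a i - a' i)) := by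
    intro y
    rw [mul_right_comm, ← hn y, Finset.sum_mul]
    refine Finset.sum_congr rfl fun a' _ => ?_
    rw [mul_assoc, ← AddChar.map_add_eq_mul]
    congr 2
    rw [← Finset.sum_neg_distrib, ← Finset.sum_add_distrib]
    refine Finset.sum_congr rfl fun i _ => ?_
    ring
  rw [Finset.sum_congr rfl (fun y _ => h1 y), Finset.sum_comm]
  have h2 : ∀ a' : Fin b → ZMod p, ∑ y : Fin b → ZMod p, t a' * e (∑ i, y i * (a i - a' i))
      = if a' = a then t a * (p : ℂ) ^ b else 0 := by
    intro a'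
    rw [← Finset.mul_sum, sum_all he (fun i => a i - a' i)]
    by_cases h : a' = a
    · subst h
      rw [if_pos (by funext i; simp), if_pos rfl]
    · rw [if_neg h, if_neg, mul_zero]
      intro h3
      apply h
      funext i
      have := congrFun h3 i
      simp only [Pi.zero_apply] at this
      linear_combination -this
  rw [Finset.sum_congr rfl (fun a' _ => h2 a')]
  simp

/-- the coefficient function supported on the coordinate lines -/
noncomputable def lineCoef (n0 c : ℂ) (y : Fin b → ZMod p) : ℂ :=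
  (if y = 0 then n0 - c * b else 0) + c * ∑ i, if ∀ j, j ≠ i → y j = 0 then (1 : ℂ) else 0

lemma line_sum (he : e.IsPrimitive) (n0 c : ℂ) (a : Fin b → ZMod p) :
    ∑ y, lineCoef n0 c y * e (∑ i, y i * a i) = n0 - c * b + c * p * (b - wtB a) := by
  classical
  have h1 : ∀ y : Fin b → ZMod p, lineCoef n0 c y * e (∑ i, y i * a i)
      = (if y = 0 then n0 - c * b else 0)
        + c * ∑ i, if ∀ j, j ≠ i → y j = 0 then e (∑ i, y i * a i) else 0 := by
    intro y
    rw [lineCoef, add_mul, mul_assoc, Finset.sum_mul]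
    congr 1
    · by_cases h : y = 0
      · subst h; simp
      · rw [if_neg h]; ring
    · congr 1
      refine Finset.sum_congr rfl fun i _ => ?_
      split_ifs <;> ring
  rw [Finset.sum_congr rfl (fun y _ => h1 y), Finset.sum_add_distrib, ← Finset.mul_sum,
    Finset.sum_comm, Finset.sum_ite_eq' Finset.univ (0 : Fin b → ZMod p), if_pos (Finset.mem_univ _)]
  have h2 : ∀ i : Fin b, ∑ y : Fin b → ZMod p,
      (if ∀ j, j ≠ i → y j = 0 then e (∑ i, y i * a i) else 0)
      = p * (1 - if a i = 0 then (0 : ℂ) else 1) := by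
    intro i
    rw [← Finset.sum_filter]
    have h3 : ∑ y ∈ Finset.univ.filter (fun y : Fin b → ZMod p => ∀ j, j ≠ i → y j = 0),
        e (∑ i, y i * a i) = ∑ z : ZMod p, e (z * a i) := by
      refine Finset.sum_bij' (fun y _ => y i) (fun z _ => Pi.single i z) ?_ ?_ ?_ ?_ ?_
      · intro y _; exact Finset.mem_univ _
      · intro z _
        rw [Finset.mem_filter]
        refine ⟨Finset.mem_univ _, fun j hj => ?_⟩
        simp [hj]
      · intro y hy
        rw [Finset.mem_filter] at hy
        funext j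
        by_cases hj : j = i
        · subst hj; simp
        · simp [hj, hy.2 j hj]
      · intro z _; simp
      · intro y hy
        rw [Finset.mem_filter] at hy
        congr 1
        refine (Finset.sum_eq_single i ?_ ?_)
        · intro j _ hj
          rw [hy.2 j hj, zero_mul]
        · intro h; exact absurd (Finset.mem_univ i) h
    rw [h3, AddChar.sum_mulShift _ he]
    split_ifs with h
    · simp [ZMod.card]
    · simp
  rw [Finset.sum_congr rfl (fun i _ => h2 i), ← Finset.mul_sum, Finset.sum_sub_distrib,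
    ← wtB_eq, Finset.sum_const, Finset.card_univ, Fintype.card_fin, nsmul_eq_mul]
  ring

lemma wtB_eq_wt (a : Fin b → ZMod p) : wtB a = wt a := rfl

lemma line_of_wt {n0 c : ℂ} {N : (Fin b → ZMod p) → ℂ} (h0 : N 0 = n0)
    (h1 : ∀ y, wt y = 1 → N y = c) (h2 : ∀ y, 2 ≤ wt y → N y = 0) (y : Fin b → ZMod p) :
    N y = lineCoef n0 c y := by
  classical
  rw [lineCoef]
  by_cases hy : y = 0
  · subst hy
    rw [h0, if_pos rfl]
    simp
  · rw [if_neg hy, zero_add]
    obtain ⟨i, hi⟩ := Function.ne_iff.mp hy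
    have hi' : y i ≠ 0 := by simpa using hi
    have hmem : i ∈ Finset.univ.filter (fun i => y i ≠ 0) := by simpa using hi'
    rcases Nat.lt_or_ge 1 (wt y) with h | h
    · rw [h2 y h]
      rw [Finset.sum_eq_zero, mul_zero]
      intro l _
      rw [if_neg]
      intro hl
      have : wt y ≤ 1 := by
        rw [wt, Finset.card_le_one]
        intro a ha b hb
        have ha' : y a ≠ 0 := by simpa using ha
        have hb' : y b ≠ 0 := by simpa using hb
        have e1 : a = l := by by_contra h; exact ha' (hl a h)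
        have e2 : b = l := by by_contra h; exact hb' (hl b h)
        rw [e1, e2]
      omega
    · have h3 : wt y = 1 := by
        have : 0 < wt y := Finset.card_pos.mpr ⟨i, hmem⟩
        omega
      rw [h1 y h3]
      have h4 : ∀ j, j ≠ i → y j = 0 := by
        intro j hj
        by_contra h5
        have : 1 < wt y := Finset.one_lt_card.mpr ⟨j, by simpa using h5, i, hmem, hj⟩
        omega
      rw [Finset.sum_eq_single i]
      · rw [if_pos h4, mul_one]
      · intro l _ hl
        rw [if_neg]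
        intro h5
        exact hi' (h5 i (Ne.symm hl))
      · intro h; exact absurd (Finset.mem_univ i) h

end fourier

section mult

variable {α : Type*} [Fintype α] [DecidableEq α] {θ : alternatingGroup α → ℂ}
variable {p b : ℕ} [Fact p.Prime] {e : AddChar (ZMod p) ℂ}

lemma card_Adm_odd (hp : p ≠ 2) : Nat.card (Adm (Fin b) p) = p ^ b := by
  have h1 : Adm (Fin b) p = ⊤ := by
    rw [eq_top_iff]
    intro a _
    exact sign_tr_odd hp _
  rw [h1, Subgroup.card_top, Nat.card_eq_fintype_card, Fintype.card_multiplicative,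
    Fintype.card_fun, Fintype.card_fin, ZMod.card]

lemma card_Adm_two [Fact (Nat.Prime 2)] (hb : 1 ≤ b) :
    2 * Nat.card (Adm (Fin b) 2) = 2 ^ b := by
  have h1 : Function.Surjective (Perm.sign.comp (tr (Fin b) 2)) := by
    intro s
    rcases Int.units_eq_one_or s with h | h
    · exact ⟨1, by rw [h, map_one]⟩
    · refine ⟨Multiplicative.ofAdd (Pi.single ⟨0, hb⟩ 1), ?_⟩
      rw [h]
      change Perm.sign (W (1 : Perm (Fin b)) (Pi.single (⟨0, hb⟩ : Fin b) (1 : ZMod 2))) = -1
      rcases Int.units_eq_one_or (Perm.sign (W (1 : Perm (Fin b))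
        (Pi.single (⟨0, hb⟩ : Fin b) (1 : ZMod 2)))) with h2 | h2
      · rw [sign_tr_two] at h2
        rw [Finset.sum_pi_single'] at h2
        simp at h2
      · exact h2
  have h2 := Subgroup.card_eq_card_quotient_mul_card_subgroup (Adm (Fin b) 2)
  rw [show Nat.card (Multiplicative (Fin b → ZMod 2) ⧸ Adm (Fin b) 2) = Nat.card ℤˣ from
      Nat.card_congr (QuotientGroup.quotientKerEquivOfSurjective _ h1).toEquiv,
    Nat.card_eq_fintype_card (α := Multiplicative (Fin b → ZMod 2)), Fintype.card_multiplicative,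
    Fintype.card_fun, Fintype.card_fin, ZMod.card] at h2
  rw [h2]
  congr 1
  rw [Nat.card_eq_fintype_card]
  rfl

lemma exists_n (hθ : IsHeilbronn θ) (f : Fin b × ZMod p ↪ α) (ι : ℕ)
    (hι : ι * Nat.card (Adm (Fin b) p) = p ^ b) (y : Fin b → ZMod p) :
    ∃ n : ℕ, ∑ a, (ι * ev θ (viaEmbeddingHom f (W 1 a))) * e (-∑ i, y i * a i)
      = n * (p : ℂ) ^ b := by
  classical
  let χ : Multiplicative (Fin b → ZMod p) →* ℂˣ :=
    MonoidHom.toHomUnits
      { toFun := fun a => e (∑ i, y i * Multiplicative.toAdd a i)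
        map_one' := by simp
        map_mul' := fun a b => by
          rw [← AddChar.map_add_eq_mul, ← Finset.sum_add_distrib]
          congr 1
          refine Finset.sum_congr rfl fun i _ => ?_
          rw [toAdd_mul, Pi.add_apply, mul_add] }
  have hχ : ∀ a, ((χ a : ℂˣ) : ℂ) = e (∑ i, y i * Multiplicative.toAdd a i) := fun a => rfl
  obtain ⟨n, hn⟩ := hθ.mult_hom (ph f) (χ.comp (Adm (Fin b) p).subtype)
  refine ⟨n, ?_⟩
  have h1 : ∑ x : Adm (Fin b) p, θ (ph f x) * ((((χ.comp (Adm (Fin b) p).subtype) x)⁻¹ : ℂˣ) : ℂ)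
      = ∑ a : Fin b → ZMod p, ev θ (viaEmbeddingHom f (W 1 a)) * e (-∑ i, y i * a i) := by
    have h2 : ∀ x : Adm (Fin b) p,
        θ (ph f x) * ((((χ.comp (Adm (Fin b) p).subtype) x)⁻¹ : ℂˣ) : ℂ)
        = (fun a : Multiplicative (Fin b → ZMod p) => ev θ (viaEmbeddingHom f (W 1
          (Multiplicative.toAdd a))) * e (-∑ i, y i * Multiplicative.toAdd a i)) x := by
      intro x
      rw [ev_ph (θ := θ) f x, Units.val_inv_eq_inv_val]
      change _ * (((χ (x : Multiplicative (Fin b → ZMod p)) : ℂˣ) : ℂ))⁻¹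
        = _ * e (-∑ i, y i * Multiplicative.toAdd (x : Multiplicative (Fin b → ZMod p)) i)
      rw [hχ, AddChar.map_neg_eq_inv]
    rw [Finset.sum_congr rfl (fun x _ => h2 x)]
    rw [← Finset.sum_subtype (Finset.univ.filter fun a => a ∈ Adm (Fin b) p) (by simp)
      (fun a : Multiplicative (Fin b → ZMod p) => ev θ (viaEmbeddingHom f (W 1
          (Multiplicative.toAdd a))) * e (-∑ i, y i * Multiplicative.toAdd a i)),
      Finset.sum_filter, ← Multiplicative.ofAdd.sum_comp]
    refine Finset.sum_congr rfl fun a _ => ?_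
    simp only [toAdd_ofAdd]
    split_ifs with h
    · rfl
    · rw [ev_odd, zero_mul]
      rw [viaEmb_sign]
      exact h
  have h3 : ∑ a, (ι * ev θ (viaEmbeddingHom f (W 1 a))) * e (-∑ i, y i * a i)
      = ι * ∑ a : Fin b → ZMod p, ev θ (viaEmbeddingHom f (W 1 a)) * e (-∑ i, y i * a i) := by
    rw [Finset.mul_sum]
    exact Finset.sum_congr rfl fun a _ => by ring
  rw [h3, ← h1, hn]
  have h4 : (ι : ℂ) * (Nat.card (Adm (Fin b) p) : ℂ) = (p : ℂ) ^ b := by exact_mod_cast hι
  rw [← h4]; ring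

lemma W_eq_trans (a : Fin b → ZMod p) : W 1 a = trans b (ZMod p) (Multiplicative.ofAdd a) := by
  ext ⟨i, x⟩
  · rfl
  · rfl

/-- invariance of the multiplicities under even monomial permutations -/
lemma n_inv (hθ : IsHeilbronn θ) (f : Fin b × ZMod p ↪ α) (ι : ℕ) {n : (Fin b → ZMod p) → ℕ}
    (hn : ∀ y, ∑ a, (ι * ev θ (viaEmbeddingHom f (W 1 a))) * e (-∑ i, y i * a i)
      = n y * (p : ℂ) ^ b) {y z : Fin b → ZMod p} (u : Fin b → (ZMod p)ˣ) (σ : Perm (Fin b))
    (huσ : ∀ i, z i = (u i : ZMod p) * y (σ i)) (hs : Perm.sign (mono u σ) = 1) : n y = n z := by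
  classical
  have hq : ((p : ℂ) ^ b) ≠ 0 := pow_ne_zero _ (by
    exact_mod_cast (Fact.out : p.Prime).ne_zero)
  have h1 : ∑ a : Fin b → ZMod p, (ι * ev θ (viaEmbeddingHom f (W 1 a))) * e (-∑ i, y i * a i)
      = ∑ a : Fin b → ZMod p, (ι * ev θ (viaEmbeddingHom f (W 1 a))) * e (-∑ i, z i * a i) := by
    let T : (Fin b → ZMod p) ≃ (Fin b → ZMod p) :=
      { toFun := fun a i => ((u i)⁻¹ : (ZMod p)ˣ) * a (σ i)
        invFun := fun a i => (u (σ⁻¹ i) : ZMod p) * a (σ⁻¹ i)
        left_inv := fun a => by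
          ext i
          simp only [perm_mul_inv_apply, Units.mul_inv_cancel_left]
        right_inv := fun a => by
          ext i
          simp only [perm_inv_mul_apply, Units.inv_mul_cancel_left] }
    rw [← T.sum_comp (fun a => (ι * ev θ (viaEmbeddingHom f (W 1 a))) * e (-∑ i, z i * a i))]
    refine Finset.sum_congr rfl fun a _ => ?_
    have h2 : ev θ (viaEmbeddingHom f (W 1 (T a))) = ev θ (viaEmbeddingHom f (W 1 a)) := by
      have h5 : Perm.sign (viaEmbeddingHom f (mono u σ)) = 1 := by rw [viaEmb_sign]; exact hs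
      rw [← ev_conj hθ h5, ← map_inv, ← map_mul, ← map_mul, W_eq_trans, W_eq_trans]
      congr 2
      exact mono_conj u σ a
    have h3 : ∑ i, z i * (T a) i = ∑ i, y i * a i := by
      rw [← Equiv.sum_comp σ (fun i => y i * a i)]
      refine Finset.sum_congr rfl fun i _ => ?_
      change z i * (((u i)⁻¹ : (ZMod p)ˣ) * a (σ i)) = _
      rw [huσ i]
      have : (u i : ZMod p) * (((u i)⁻¹ : (ZMod p)ˣ) : ZMod p) = 1 := Units.mul_inv _
      calc (u i : ZMod p) * y (σ i) * ((((u i)⁻¹ : (ZMod p)ˣ) : ZMod p) * a (σ i))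
          = ((u i : ZMod p) * (((u i)⁻¹ : (ZMod p)ˣ) : ZMod p)) * (y (σ i) * a (σ i)) := by ring
        _ = y (σ i) * a (σ i) := by rw [this, one_mul]
    rw [h2, h3]
  rw [hn, hn] at h1
  exact_mod_cast mul_right_cancel₀ hq h1

end mult

end Pool.Agent.X21.Sy
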