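import Mathlib
import Pool.Agent.X21.Sy.Fo

/-!
# Counting
-/

set_option autoImplicit false
set_option linter.unusedSectionVars false

namespace Pool.Agent.X21.Sy

open Pool.Agent.H302R2 Subgroup Equiv Equiv.Perm

section sgn

variable {p b : ℕ} [Fact p.Prime]

lemma mulLeft_pow (u : (ZMod p)ˣ) (k : ℕ) (x : ZMod p) :
    ((Units.mulLeft u) ^ k) x = (u : ZMod p) ^ k * x := by
  induction k generalizing x with
  | zero => simp
  | succ k ih =>
    rw [pow_succ', Perm.mul_apply, ih, Units.mulLeft_apply]; ring

lemma exists_odd_unit (hp : p ≠ 2) : ∃ u : (ZMod p)ˣ, Perm.sign (Units.mulLeft u) = -1 := by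
  classical
  have hpp : p.Prime := Fact.out
  have hodd : Odd p := hpp.odd_of_ne_two hp
  have h3 : 3 ≤ p := by
    have := hpp.two_le
    omega
  obtain ⟨g, hg⟩ := IsCyclic.exists_generator (α := (ZMod p)ˣ)
  have hg1 : g ≠ 1 := by
    rintro rfl
    have h1 : Fintype.card (ZMod p)ˣ = p - 1 := ZMod.card_units p
    have h2 : Fintype.card (ZMod p)ˣ ≤ 1 := by
      rw [Fintype.card_le_one_iff]
      intro a b
      have ha := hg a
      have hb := hg b
      rw [Subgroup.zpowers_one_eq_bot, Subgroup.mem_bot] at ha hb
      rw [ha, hb]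
    omega
  have hsupp : (Units.mulLeft g : Perm (ZMod p)).support = Finset.univ.erase 0 := by
    ext y
    rw [mem_support, Finset.mem_erase, Units.mulLeft_apply]
    constructor
    · intro h
      refine ⟨?_, Finset.mem_univ _⟩
      rintro rfl
      exact h (mul_zero _)
    · rintro ⟨hy, -⟩ h
      apply hg1
      have h' : (g : ZMod p) * y = y := h
      have h4 : ((g : ZMod p) - 1) * y = 0 := by rw [sub_mul, h', one_mul, sub_self]
      rcases mul_eq_zero.mp h4 with h5 | h5
      · exact Units.val_eq_one.mp (sub_eq_zero.mp h5)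
      · exact absurd h5 hy
  have hcyc : (Units.mulLeft g : Perm (ZMod p)).IsCycle := by
    refine ⟨1, ?_, ?_⟩
    · intro h
      have h' : (g : ZMod p) * 1 = 1 := h
      rw [mul_one] at h'
      exact hg1 (Units.val_eq_one.mp h')
    · intro y hy
      have hy0 : y ≠ 0 := by
        have := mem_support.mpr hy
        rw [hsupp, Finset.mem_erase] at this
        exact this.1
      obtain ⟨k, hk⟩ := (mem_powers_iff_mem_zpowers.mpr (hg (Units.mk0 y hy0)))
      refine ⟨k, ?_⟩
      rw [zpow_natCast, mulLeft_pow, mul_one, ← Units.val_pow_eq_pow_val]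
      have := congrArg Units.val hk
      simpa using this
  refine ⟨g, ?_⟩
  rw [hcyc.sign, hsupp, Finset.card_erase_of_mem (Finset.mem_univ _), Finset.card_univ, ZMod.card]
  have : Even (p - 1) := by
    obtain ⟨k, hk⟩ := hodd
    exact ⟨k, by omega⟩
  rw [this.neg_one_pow]

lemma sign_mono' (u : Fin b → (ZMod p)ˣ) (σ : Perm (Fin b)) :
    Perm.sign (mono u σ) = Perm.sign σ ^ p * ∏ i, Perm.sign (Units.mulLeft (u i)) := by
  have h1 : mono u σ = Equiv.prodCongrLeft (fun _ : ZMod p => σ) *
      Equiv.prodCongrRight (fun i => Units.mulLeft (u i)) := by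
    ext x <;> simp [mono]
  rw [h1, Perm.sign_mul, sign_prodCongrLeft, sign_prodCongrRight, Finset.prod_const,
    Finset.card_univ, ZMod.card]

/-- the sign of a diagonal transformation -/
def sgD (p b : ℕ) [Fact p.Prime] : (Fin b → (ZMod p)ˣ) →* ℤˣ where
  toFun u := ∏ i, Perm.sign (Units.mulLeft (u i) : Perm (ZMod p))
  map_one' := by
    refine Finset.prod_eq_one fun i _ => ?_
    have : (Units.mulLeft ((1 : Fin b → (ZMod p)ˣ) i) : Perm (ZMod p)) = 1 := by
      ext x; simp
    rw [this, Perm.sign_one]
  map_mul' u v := by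
    rw [← Finset.prod_mul_distrib]
    refine Finset.prod_congr rfl fun i _ => ?_
    rw [← Perm.sign_mul]
    congr 1
    ext x
    simp [mul_assoc]

lemma card_ker_sgD : (p - 1) ^ b ≤ 2 * Nat.card (sgD p b).ker := by
  have h1 := Subgroup.card_eq_card_quotient_mul_card_subgroup (sgD p b).ker
  have h2 : Nat.card (Fin b → (ZMod p)ˣ) = (p - 1) ^ b := by
    rw [Nat.card_eq_fintype_card, Fintype.card_fun, Fintype.card_fin, ZMod.card_units]
  rw [h2, Nat.card_congr (QuotientGroup.quotientKerEquivRange (sgD p b)).toEquiv] at h1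
  rw [h1]
  refine Nat.mul_le_mul_right _ ?_
  have h3 : Nat.card (sgD p b).range ≤ Nat.card ℤˣ :=
    Nat.card_le_card_of_injective (fun x : (sgD p b).range => (x : ℤˣ)) Subtype.val_injective
  have h4 : Nat.card ℤˣ = 2 := by rw [Nat.card_eq_fintype_card]; rfl
  omega

end sgn

section numbers

lemma choose_ge {b : ℕ} : ∀ j, 1 ≤ j → j + 1 ≤ b → b ≤ b.choose j := by
  induction b with
  | zero => intro j _ h; omega
  | succ b ih =>
    intro j h1 h2
    obtain ⟨k, rfl⟩ := Nat.exists_eq_add_of_le' h1
    rw [Nat.choose_succ_succ']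
    rcases Nat.eq_zero_or_pos k with h | h
    · subst h; simp
    · have h3 := ih k h (by omega)
      have h4 : 1 ≤ b.choose (k + 1) := Nat.choose_pos (by omega)
      omega

lemma choose_two_le {b : ℕ} : ∀ j, 2 ≤ j → j + 2 ≤ b → b.choose 2 ≤ b.choose j := by
  induction b with
  | zero => intro j _ h; omega
  | succ b ih =>
    intro j h1 h2
    obtain ⟨k, rfl⟩ := Nat.exists_eq_add_of_le' (show 1 ≤ j by omega)
    rw [Nat.choose_succ_succ' b k, Nat.choose_succ_succ' b 1, Nat.choose_one_right]
    simp only [Nat.reduceAdd]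
    rcases Nat.lt_or_ge k 2 with h | h
    · have : k = 1 := by omega
      subst this; simp
    · -- `k ≥ 2`
      have h3 : b.choose 2 ≤ b.choose k := ih k h (by omega)
      have h4 : b ≤ b.choose (k + 1) := choose_ge (k + 1) (by omega) (by omega)
      omega

lemma choose_three_le {b : ℕ} : ∀ j, 3 ≤ j → j + 3 ≤ b → b.choose 3 ≤ b.choose j := by
  induction b with
  | zero => intro j _ h; omega
  | succ b ih =>
    intro j h1 h2
    obtain ⟨k, rfl⟩ := Nat.exists_eq_add_of_le' (show 1 ≤ j by omega)
    rw [Nat.choose_succ_succ' b k, Nat.choose_succ_succ' b 2]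
    simp only [Nat.reduceAdd]
    rcases Nat.lt_or_ge k 3 with h | h
    · have : k = 2 := by omega
      subst this; simp
    · have h3 : b.choose 3 ≤ b.choose k := ih k h (by omega)
      have h4 : b.choose 2 ≤ b.choose (k + 1) := choose_two_le (k + 1) (by omega) (by omega)
      omega

lemma pow_big {p b : ℕ} (hp : 5 ≤ p) (hb : 2 ≤ b) (h : 14 ≤ p * b) :
    2 * (p * b) < (p - 1) ^ b + 4 := by
  obtain ⟨q, rfl⟩ : ∃ q, p = q + 1 := ⟨p - 1, by omega⟩
  simp only [Nat.add_sub_cancel]
  rcases Nat.lt_or_ge b 3 with h2 | h2
  · have : b = 2 := by omega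
    subst this
    have : 6 ≤ q := by omega
    nlinarith
  · obtain ⟨k, rfl⟩ := Nat.exists_eq_add_of_le h2
    clear h hb h2
    induction k with
    | zero =>
      have h1 : 4 * 4 * q ≤ q * q * q :=
        Nat.mul_le_mul (Nat.mul_le_mul (show 4 ≤ q by omega) (show 4 ≤ q by omega)) (le_refl q)
      have h2 : q ^ (3 + 0) = q * q * q := by ring
      rw [h2]
      omega
    | succ k ih =>
      have e1 : q ^ (3 + (k + 1)) = q ^ (3 + k) * q := by rw [← add_assoc, pow_succ]
      rw [e1]
      have h4 : 4 ≤ q := by omega
      nlinarith [Nat.mul_le_mul_left (q ^ (3 + k)) h4, Nat.one_le_pow (3 + k) q (by omega)]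

lemma pow_big3 {b : ℕ} (hb : 5 ≤ b) : 2 * (3 * b) < 2 ^ b + 4 := by
  obtain ⟨k, rfl⟩ := Nat.exists_eq_add_of_le hb
  clear hb
  induction k with
  | zero => norm_num
  | succ k ih =>
    rw [← add_assoc, pow_succ]
    have : 32 ≤ 2 ^ (5 + k) := by
      calc 32 = 2 ^ 5 := by norm_num
        _ ≤ 2 ^ (5 + k) := Nat.pow_le_pow_right (by norm_num) (by omega)
    omega

end numbers

section main

variable {α : Type*} [Fintype α] [DecidableEq α] {θ : alternatingGroup α → ℂ}
variable {p b : ℕ} [Fact p.Prime]

/-- **The formula for odd primes.** -/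
theorem formula_odd (hθ : IsHeilbronn θ) {r : ℕ} (hr : θ 1 = r) (hp : p ≠ 2) (hb : 2 ≤ b)
    (hk : 14 ≤ p * b) (hrk : r + 2 ≤ p * b) (f : Fin b × ZMod p ↪ α)
    (hne : ∃ a : Fin b → ZMod p, ev θ (viaEmbeddingHom f (W 1 a)) ≠ r) : Fml θ f r 1 := by
  classical
  have hpp : p.Prime := Fact.out
  have hp3 : 3 ≤ p := by
    have := hpp.two_le
    omega
  set e : AddChar (ZMod p) ℂ := AddChar.FiniteField.primitiveChar_to_Complex (ZMod p) with he
  have heprim : e.IsPrimitive := AddChar.FiniteField.primitiveChar_to_Complex_isPrimitive (ZMod p)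
  have hι : 1 * Nat.card (Adm (Fin b) p) = p ^ b := by rw [one_mul, card_Adm_odd hp]
  choose n hn using exists_n (e := e) hθ f 1 hι
  have hinv := invert heprim hn
  -- total
  have h0 : ev θ (viaEmbeddingHom f (W 1 (0 : Fin b → ZMod p))) = r := by
    rw [W_one, map_one, ev_of (one_mem _), ← hr]
    rfl
  have htot : ∑ y, n y = r := by
    have h1 := hinv 0
    simp only [Nat.cast_one, one_mul] at h1
    rw [h0] at h1
    simp only [Pi.zero_apply, mul_zero, Finset.sum_const_zero, AddChar.map_zero_eq_one,
      mul_one] at h1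
    exact_mod_cast h1.symm
  obtain ⟨us, hus⟩ := exists_odd_unit (p := p) hp
  -- invariance below full weight
  have hwt : ∀ y z : Fin b → ZMod p, wt y = wt z → wt z < b → n y = n z := by
    intro y z hyz hzb
    obtain ⟨u, σ, huσ⟩ := exists_monomial hyz
    rcases Int.units_eq_one_or (Perm.sign (mono u σ)) with hs | hs
    · exact n_inv hθ f 1 hn u σ huσ hs
    · obtain ⟨i0, hi0⟩ : ∃ i, z i = 0 := by
        by_contra hcon
        push Not at hcon
        have : wt z = b := by
          rw [wt, Finset.filter_true_of_mem (fun i _ => hcon i), Finset.card_univ,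
            Fintype.card_fin]
        omega
      refine n_inv hθ f 1 hn (Function.update u i0 (us * u i0)) σ ?_ ?_
      · intro i
        by_cases hi : i = i0
        · subst hi
          have h2 := huσ i
          rw [hi0] at h2 ⊢
          have h3 : y (σ i) = 0 := by
            rcases mul_eq_zero.mp h2.symm with h4 | h4
            · exact absurd h4 (Units.ne_zero _)
            · exact h4
          rw [h3, mul_zero]
        · rw [Function.update_of_ne hi]
          exact huσ i
      · rw [sign_mono'] at hs ⊢
        have h5 : ∏ i, Perm.sign (Units.mulLeft (Function.update u i0 (us * u i0) i) :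
            Perm (ZMod p)) = - ∏ i, Perm.sign (Units.mulLeft (u i) : Perm (ZMod p)) := by
          rw [← Finset.mul_prod_erase _ _ (Finset.mem_univ i0),
            ← Finset.mul_prod_erase (a := i0) _ (fun i => Perm.sign (Units.mulLeft (u i) :
              Perm (ZMod p))) (Finset.mem_univ i0)]
          rw [Function.update_self]
          have h6 : (Units.mulLeft (us * u i0) : Perm (ZMod p))
              = Units.mulLeft us * Units.mulLeft (u i0) := by
            ext x; simp [mul_assoc]
          rw [h6, Perm.sign_mul, hus]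
          have h7 : ∏ i ∈ Finset.univ.erase i0, Perm.sign (Units.mulLeft
              (Function.update u i0 (us * u i0) i) : Perm (ZMod p))
              = ∏ i ∈ Finset.univ.erase i0, Perm.sign (Units.mulLeft (u i) : Perm (ZMod p)) := by
            refine Finset.prod_congr rfl fun i hi => ?_
            rw [Function.update_of_ne (Finset.mem_erase.mp hi).1]
          rw [h7]
          simp
        rw [h5, mul_neg, hs, neg_neg]
  -- vectors of weight at least two
  have hge2 : ∀ y : Fin b → ZMod p, 2 ≤ wt y → n y = 0 := by
    intro y hy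
    by_contra hcon
    have hyb : wt y ≤ b := by
      rw [wt]
      exact (Finset.card_filter_le _ _).trans (by simp)
    rcases Nat.lt_or_ge (wt y) b with hlt | hge
    · have h2 : (Finset.univ.filter fun z : Fin b → ZMod p => wt z = wt y).card ≤ ∑ z, n z := by
        calc (Finset.univ.filter fun z : Fin b → ZMod p => wt z = wt y).card
            = ∑ z ∈ Finset.univ.filter (fun z : Fin b → ZMod p => wt z = wt y), 1 := by simp
          _ ≤ ∑ z ∈ Finset.univ.filter (fun z : Fin b → ZMod p => wt z = wt y), n z := by
              refine Finset.sum_le_sum fun z hz => ?_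
              have := hwt z y (Finset.mem_filter.mp hz).2 hlt
              omega
          _ ≤ ∑ z, n z := Finset.sum_le_sum_of_subset (Finset.filter_subset _ _)
      rw [htot, card_wt_eq, ZMod.card] at h2
      have h3 : b ≤ b.choose (wt y) := choose_ge _ (by omega) (by omega)
      have h4 : (p - 1) ^ 2 ≤ (p - 1) ^ wt y := Nat.pow_le_pow_right (by omega) hy
      have h5 : p ≤ (p - 1) ^ 2 := by
        obtain ⟨q, rfl⟩ : ∃ q, p = q + 1 := ⟨p - 1, by omega⟩
        simp only [Nat.add_sub_cancel]
        nlinarith
      have h6 : b * p ≤ b.choose (wt y) * (p - 1) ^ wt y :=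
        Nat.mul_le_mul h3 (h5.trans h4)
      rw [mul_comm] at h6
      omega
    · -- full support
      have hfull : ∀ i, y i ≠ 0 := by
        intro i hi
        have : wt y < b := by
          rw [wt]
          calc (Finset.univ.filter fun i => y i ≠ 0).card < (Finset.univ : Finset (Fin b)).card := by
                apply Finset.card_lt_card
                rw [Finset.ssubset_univ_iff]
                intro h
                have := h ▸ Finset.mem_univ i
                rw [Finset.mem_filter] at this
                exact this.2 hi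
            _ = b := by simp
        omega
      have : Fintype (sgD p b).ker := Fintype.ofFinite _
      let T : (sgD p b).ker → (Fin b → ZMod p) := fun u i => ((u : Fin b → (ZMod p)ˣ) i : ZMod p) * y i
      have hT : Function.Injective T := by
        intro u v huv
        apply Subtype.ext
        funext i
        have h1 := congrFun huv i
        exact Units.ext (mul_right_cancel₀ (hfull i) h1)
      have h2 : Fintype.card (sgD p b).ker ≤ ∑ z, n z := by
        calc Fintype.card (sgD p b).ker = ∑ z ∈ Finset.univ.image T, 1 := by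
              rw [Finset.sum_const, smul_eq_mul, mul_one, Finset.card_image_of_injective _ hT,
                Finset.card_univ]
          _ ≤ ∑ z ∈ Finset.univ.image T, n z := by
              refine Finset.sum_le_sum fun z hz => ?_
              obtain ⟨u, -, rfl⟩ := Finset.mem_image.mp hz
              have h3 : n y = n (T u) := by
                refine n_inv hθ f 1 hn (u : Fin b → (ZMod p)ˣ) 1 (fun i => rfl) ?_
                rw [sign_mono', Perm.sign_one, one_pow, one_mul]
                exact u.2
              omega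
          _ ≤ ∑ z, n z := Finset.sum_le_sum_of_subset (Finset.subset_univ _)
      rw [htot, ← Nat.card_eq_fintype_card] at h2
      have h3 := card_ker_sgD (p := p) (b := b)
      have h4 : 2 * (p * b) < (p - 1) ^ b + 4 := by
        rcases eq_or_ne p 3 with h5 | h5
        · have hb5 : 5 ≤ b := by
            rw [h5] at hk; omega
          have := pow_big3 hb5
          rw [h5]; exact this
        · have hp5 : 5 ≤ p := by
            have h6 : p ≠ 4 := by
              rintro h7
              rw [h7] at hpp
              exact absurd hpp (by norm_num)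
            omega
          exact pow_big hp5 hb hk
      omega
  -- weight one
  have hone : ∀ y z : Fin b → ZMod p, wt y = 1 → wt z = 1 → n y = n z := fun y z hy hz =>
    hwt y z (by rw [hy, hz]) (by omega)
  let y1 : Fin b → ZMod p := Pi.single ⟨0, by omega⟩ 1
  have hy1 : wt y1 = 1 := by
    rw [wt, Finset.card_eq_one]
    refine ⟨⟨0, by omega⟩, ?_⟩
    ext i
    simp only [y1, Finset.mem_filter, Finset.mem_univ, true_and, Finset.mem_singleton]
    by_cases h : i = (⟨0, by omega⟩ : Fin b)
    · subst h; simp
    · simp [h]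
  have hc1 : n y1 ≤ 1 := by
    by_contra hcon
    push Not at hcon
    have h2 : 2 * (Finset.univ.filter fun z : Fin b → ZMod p => wt z = 1).card ≤ ∑ z, n z := by
      calc 2 * (Finset.univ.filter fun z : Fin b → ZMod p => wt z = 1).card
          = ∑ z ∈ Finset.univ.filter (fun z : Fin b → ZMod p => wt z = 1), 2 := by
            rw [Finset.sum_const, smul_eq_mul, mul_comm]
        _ ≤ ∑ z ∈ Finset.univ.filter (fun z : Fin b → ZMod p => wt z = 1), n z := by
            refine Finset.sum_le_sum fun z hz => ?_
            have := hone z y1 (Finset.mem_filter.mp hz).2 hy1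
            omega
        _ ≤ ∑ z, n z := Finset.sum_le_sum_of_subset (Finset.filter_subset _ _)
    rw [htot, card_wt_eq, ZMod.card, Nat.choose_one_right, pow_one] at h2
    obtain ⟨q, rfl⟩ : ∃ q, p = q + 1 := ⟨p - 1, by omega⟩
    simp only [Nat.add_sub_cancel] at h2
    nlinarith
  have hformula : ∀ a : Fin b → ZMod p, ev θ (viaEmbeddingHom f (W 1 a))
      = (n 0 : ℂ) - n y1 * b + n y1 * p * (b - wtB a) := by
    intro a
    have h1 := hinv a
    simp only [Nat.cast_one, one_mul] at h1
    rw [h1, ← line_sum heprim (n 0 : ℂ) (n y1 : ℂ) a]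
    refine Finset.sum_congr rfl fun y _ => ?_
    rw [line_of_wt (n0 := (n 0 : ℂ)) (c := (n y1 : ℂ)) (N := fun y => (n y : ℂ)) rfl
      (fun y hy => by rw [hone y y1 hy hy1]) (fun y hy => by rw [hge2 y hy]; simp) y]
  have hc : n y1 = 1 := by
    rcases Nat.lt_or_ge 0 (n y1) with h | h
    · omega
    · exfalso
      obtain ⟨a, ha⟩ := hne
      apply ha
      have h2 : n y1 = 0 := by omega
      have h3 := hformula a
      have h4 := hformula 0
      rw [h2] at h3 h4
      simp only [Nat.cast_zero, zero_mul, sub_zero, add_zero] at h3 h4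
      rw [h3, ← h4, h0]
  intro a _
  have h3 := hformula a
  have h4 := hformula 0
  rw [hc] at h3 h4
  have h5 : wtB (0 : Fin b → ZMod p) = 0 := by simp [wtB]
  rw [h5, h0] at h4
  rw [h3]
  push_cast at h4 ⊢
  linear_combination -h4

end main

end Pool.Agent.X21.Sy
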