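import Mathlib
import Pool.Agent.X21.Sy.Cnt

/-!
# The formula for the prime two
-/

set_option autoImplicit false
set_option linter.unusedSectionVars false

namespace Pool.Agent.X21.Sy

open Pool.Agent.H302R2 Subgroup Equiv Equiv.Perm

lemma one_add_one_two : (1 : ZMod 2) + 1 = 0 := by decide

lemma c2_big {m : ℕ} (hm : 7 ≤ m) : 2 * m < m.choose 2 + 2 := by
  obtain ⟨k, rfl⟩ := Nat.exists_eq_add_of_le hm
  clear hm
  induction k with
  | zero => decide
  | succ k ih =>
    rw [← add_assoc, Nat.choose_succ_succ' _ 1, Nat.choose_one_right]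
    simp only [Nat.reduceAdd]
    omega

lemma c3_big {m : ℕ} (hm : 8 ≤ m) : 4 * m < m.choose 3 + 4 := by
  obtain ⟨k, rfl⟩ := Nat.exists_eq_add_of_le hm
  clear hm
  induction k with
  | zero => decide
  | succ k ih =>
    rw [← add_assoc, Nat.choose_succ_succ' _ 2]
    simp only [Nat.reduceAdd]
    have := c2_big (m := 8 + k) (by omega)
    omega

section

variable {m : ℕ} [Fact (Nat.Prime 2)]

lemma wt_compl (y : Fin m → ZMod 2) : wt (y + 1) + wt y = m := by
  classical
  have h1 : (Finset.univ.filter fun i => (y + 1) i ≠ 0) = (Finset.univ.filter fun i => y i ≠ 0)ᶜ := by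
    ext i
    simp only [Finset.mem_filter, Finset.mem_univ, true_and, Finset.mem_compl, Pi.add_apply,
      Pi.one_apply, not_not]
    rcases zmod_two (y i) with h | h
    · rw [h]; simp
    · rw [h]
      have : (1 : ZMod 2) + 1 = 0 := one_add_one_two
      simp [this]
  rw [wt, wt, h1, Finset.card_compl, Fintype.card_fin]
  have : (Finset.univ.filter fun i => y i ≠ 0).card ≤ m :=
    (Finset.card_filter_le _ _).trans (by simp)
  omega

lemma add_one_one (y : Fin m → ZMod 2) : y + 1 + 1 = y := by
  funext i
  simp only [Pi.add_apply, Pi.one_apply]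
  have : (1 : ZMod 2) + 1 = 0 := one_add_one_two
  rw [add_assoc, this, add_zero]

variable {α : Type*} [Fintype α] [DecidableEq α] {θ : alternatingGroup α → ℂ}

/-- **The formula for the prime two.** -/
theorem formula_two (hθ : IsHeilbronn θ) {r : ℕ} (hr : θ 1 = r) (hm : 7 ≤ m)
    (hrk : r + 2 ≤ 2 * m) (f : Fin m × ZMod 2 ↪ α)
    (hne : ∃ a : Fin m → ZMod 2, Perm.sign (W (1 : Perm (Fin m)) a) = 1 ∧
      ev θ (viaEmbeddingHom f (W 1 a)) ≠ r) : Fml θ f r 1 := by
  classical
  set e : AddChar (ZMod 2) ℂ := AddChar.FiniteField.primitiveChar_to_Complex (ZMod 2) with he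
  have heprim : e.IsPrimitive := AddChar.FiniteField.primitiveChar_to_Complex_isPrimitive (ZMod 2)
  have hι : 2 * Nat.card (Adm (Fin m) 2) = 2 ^ m := card_Adm_two (by omega)
  choose n hn using exists_n (e := e) hθ f 2 hι
  have hinv := invert heprim hn
  have h0 : ev θ (viaEmbeddingHom f (W 1 (0 : Fin m → ZMod 2))) = r := by
    rw [W_one, map_one, ev_of (one_mem _), ← hr]
    rfl
  have htot : ∑ y, n y = 2 * r := by
    have h1 := hinv 0
    rw [h0] at h1
    simp only [Pi.zero_apply, mul_zero, Finset.sum_const_zero, AddChar.map_zero_eq_one,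
      mul_one] at h1
    exact_mod_cast h1.symm
  have heven : ∀ a : Fin m → ZMod 2, ev θ (viaEmbeddingHom f (W 1 a)) ≠ 0 → ∑ i, a i = 0 := by
    intro a ha
    by_contra h
    apply ha
    rw [ev_odd]
    rw [viaEmb_sign]
    intro h2
    exact h ((sign_tr_two a).mp h2)
  have hwt : ∀ y z : Fin m → ZMod 2, wt y = wt z → n y = n z := by
    intro y z hyz
    obtain ⟨u, σ, huσ⟩ := exists_monomial hyz
    exact n_inv hθ f 2 hn u σ huσ (sign_mono (by rw [ZMod.card]; exact even_two) u σ)
  have hadd : ∀ y a : Fin m → ZMod 2, ∑ i, (y + 1) i * a i = ∑ i, y i * a i + ∑ i, a i := by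
    intro y a
    rw [← Finset.sum_add_distrib]
    refine Finset.sum_congr rfl fun i _ => ?_
    simp only [Pi.add_apply, Pi.one_apply]
    ring
  have hcomp : ∀ y : Fin m → ZMod 2, n (y + 1) = n y := by
    intro y
    have hq : (((2 : ℕ) : ℂ) ^ m) ≠ 0 := pow_ne_zero _ (by norm_num)
    have h1 := hn (y + 1)
    have h2 : ∑ a, ((2 : ℕ) * ev θ (viaEmbeddingHom f (W 1 a))) * e (-∑ i, (y + 1) i * a i)
        = ∑ a, ((2 : ℕ) * ev θ (viaEmbeddingHom f (W 1 a))) * e (-∑ i, y i * a i) := by
      refine Finset.sum_congr rfl fun a _ => ?_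
      by_cases ha : ev θ (viaEmbeddingHom f (W 1 a)) = 0
      · rw [ha]; ring
      · rw [hadd, heven a ha, add_zero]
    rw [h2, hn] at h1
    exact_mod_cast (mul_right_cancel₀ hq h1).symm
  -- middle weights
  have hmid : ∀ y : Fin m → ZMod 2, 2 ≤ wt y → wt y + 2 ≤ m → n y = 0 := by
    intro y hy1 hy2
    by_contra hcon
    have hS : ∀ j, (j = wt y ∨ j + wt y = m) → ∀ z : Fin m → ZMod 2, wt z = j → 1 ≤ n z := by
      rintro j (hj | hj) z hz
      · have := hwt z y (by rw [hz, hj])
        omega
      · have h1 := hwt z (y + 1) (by have := wt_compl y; omega)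
        have := hcomp y
        omega
    have hcount : ∀ T : Finset (Fin m → ZMod 2), (∀ z ∈ T, 1 ≤ n z) → T.card ≤ 2 * r := by
      intro T hT
      rw [← htot]
      calc T.card = ∑ z ∈ T, 1 := by simp
        _ ≤ ∑ z ∈ T, n z := Finset.sum_le_sum hT
        _ ≤ ∑ z, n z := Finset.sum_le_sum_of_subset (Finset.subset_univ _)
    rcases eq_or_ne (wt y + wt y) m with h2 | h2
    · have h3 := hcount (Finset.univ.filter fun z => wt z = wt y) (fun z hz =>
        hS (wt y) (Or.inl rfl) z (Finset.mem_filter.mp hz).2)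
      rw [card_wt_eq, ZMod.card] at h3
      simp only [Nat.add_one_sub_one, one_pow, mul_one] at h3
      have h4 := choose_three_le (b := m) (wt y) (by omega) (by omega)
      have h5 := c3_big (m := m) (by omega)
      omega
    · have h3 := hcount ((Finset.univ.filter fun z => wt z = wt y) ∪
        (Finset.univ.filter fun z => wt z = m - wt y)) (fun z hz => by
          rcases Finset.mem_union.mp hz with h | h
          · exact hS (wt y) (Or.inl rfl) z (Finset.mem_filter.mp h).2
          · exact hS (m - wt y) (Or.inr (by omega)) z (Finset.mem_filter.mp h).2)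
      rw [Finset.card_union_of_disjoint, card_wt_eq, card_wt_eq, ZMod.card] at h3
      · simp only [Nat.add_one_sub_one, one_pow, mul_one] at h3
        have h4 := choose_two_le (b := m) (wt y) (by omega) (by omega)
        have h5 := choose_two_le (b := m) (m - wt y) (by omega) (by omega)
        have h6 := c2_big hm
        omega
      · rw [Finset.disjoint_left]
        intro z hz hz'
        have e1 := (Finset.mem_filter.mp hz).2
        have e2 := (Finset.mem_filter.mp hz').2
        omega
  let y1 : Fin m → ZMod 2 := Pi.single ⟨0, by omega⟩ 1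
  have hy1 : wt y1 = 1 := by
    rw [wt, Finset.card_eq_one]
    refine ⟨⟨0, by omega⟩, ?_⟩
    ext i
    simp only [y1, Finset.mem_filter, Finset.mem_univ, true_and, Finset.mem_singleton]
    by_cases h : i = (⟨0, by omega⟩ : Fin m)
    · subst h; simp
    · simp [h]
  have hc1 : n y1 ≤ 1 := by
    by_contra hcon
    push Not at hcon
    have h2 : ∑ z ∈ (Finset.univ.filter fun z : Fin m → ZMod 2 => wt z = 1) ∪
        (Finset.univ.filter fun z : Fin m → ZMod 2 => wt z = m - 1), 2 ≤ ∑ z, n z := by
      refine (Finset.sum_le_sum (g := n) fun z hz => ?_).trans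
        (Finset.sum_le_sum_of_subset (Finset.subset_univ _))
      rcases Finset.mem_union.mp hz with h | h
      · have := hwt z y1 (by rw [(Finset.mem_filter.mp h).2, hy1])
        omega
      · have h3 := (Finset.mem_filter.mp h).2
        have h4 := hwt z (y1 + 1) (by have := wt_compl y1; omega)
        have := hcomp y1
        omega
    rw [htot, Finset.sum_const, smul_eq_mul, Finset.card_union_of_disjoint, card_wt_eq,
      card_wt_eq, ZMod.card] at h2
    · simp only [Nat.add_one_sub_one, one_pow, mul_one, Nat.choose_one_right] at h2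
      have h3 : m.choose (m - 1) = m := by
        rw [Nat.choose_symm (by omega), Nat.choose_one_right]
      rw [h3] at h2
      omega
    · rw [Finset.disjoint_left]
      intro z hz hz'
      have e1 := (Finset.mem_filter.mp hz).2
      have e2 := (Finset.mem_filter.mp hz').2
      omega
  let N : (Fin m → ZMod 2) → ℂ := fun y => if wt y ≤ 1 then (n y : ℂ) else 0
  have hN : ∀ y, N y = lineCoef (n 0 : ℂ) (n y1 : ℂ) y := by
    intro y
    refine line_of_wt ?_ ?_ ?_ y
    · have : wt (0 : Fin m → ZMod 2) = 0 := by simp [wt]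
      simp only [N, this]
      simp
    · intro y hy
      simp only [N, hy]
      rw [hwt y y1 (by rw [hy, hy1])]
      simp
    · intro y hy
      simp only [N]
      rw [if_neg (by omega)]
  have hsplit : ∀ y, (n y : ℂ) = N y + N (y + 1) := by
    intro y
    have h1 := wt_compl y
    simp only [N]
    rcases Nat.lt_or_ge 1 (wt y) with h | h
    · rcases Nat.lt_or_ge 1 (wt (y + 1)) with h' | h'
      · rw [if_neg (by omega), if_neg (by omega), hmid y h (by omega)]
        simp
      · rw [if_neg (by omega), if_pos h', hcomp, zero_add]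
    · rw [if_pos h, if_neg (by omega), add_zero]
  have hformula : ∀ a : Fin m → ZMod 2, Perm.sign (W (1 : Perm (Fin m)) a) = 1 →
      ev θ (viaEmbeddingHom f (W 1 a))
      = (n 0 : ℂ) - n y1 * m + n y1 * 2 * (m - wtB a) := by
    intro a ha
    have ha0 : ∑ i, a i = 0 := (sign_tr_two a).mp ha
    have h1 := hinv a
    have h2 : ∑ y, (n y : ℂ) * e (∑ i, y i * a i) = 2 * ∑ y, N y * e (∑ i, y i * a i) := by
      rw [Finset.sum_congr rfl (fun y _ => by rw [hsplit y, add_mul]), Finset.sum_add_distrib,
        two_mul]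
      congr 1
      rw [← Equiv.sum_comp (Equiv.addRight (1 : Fin m → ZMod 2))
        (fun y => N y * e (∑ i, y i * a i))]
      refine Finset.sum_congr rfl fun y _ => ?_
      simp only [Equiv.coe_addRight]
      rw [hadd, ha0, add_zero]
    have h3 := line_sum heprim (n 0 : ℂ) (n y1 : ℂ) a
    rw [h2, Finset.sum_congr rfl (fun y _ => by rw [hN y]), h3] at h1
    have h4 : (2 : ℂ) ≠ 0 := by norm_num
    apply mul_left_cancel₀ h4
    have h5 : (((2 : ℕ) : ℂ)) = 2 := by norm_num
    rw [h5] at h1
    exact h1
  have hs0 : Perm.sign (W (1 : Perm (Fin m)) (0 : Fin m → ZMod 2)) = 1 := by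
    rw [W_one, Perm.sign_one]
  have hc : n y1 = 1 := by
    rcases Nat.lt_or_ge 0 (n y1) with h | h
    · omega
    · exfalso
      obtain ⟨a, hs, ha⟩ := hne
      apply ha
      have h2 : n y1 = 0 := by omega
      have h3 := hformula a hs
      have h4 := hformula 0 hs0
      rw [h2] at h3 h4
      simp only [Nat.cast_zero, zero_mul, sub_zero, add_zero] at h3 h4
      rw [h3, ← h4, h0]
  intro a ha
  have h3 := hformula a ha
  have h4 := hformula 0 hs0
  rw [hc] at h3 h4
  have h5 : wtB (0 : Fin m → ZMod 2) = 0 := by simp [wtB]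
  rw [h5, h0] at h4
  rw [h3]
  push_cast at h4 ⊢
  linear_combination -h4

end

end Pool.Agent.X21.Sy
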