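import Mathlib
import Pool.Agent.X21.Sy.Two

/-!
# Heilbronn functions of degree less than `n - 1` or `n - 2` on the alternating group
-/

set_option autoImplicit false
set_option linter.unusedSectionVars false

namespace Pool.Agent.X21.Sy

open Pool.Agent.H302R2 Subgroup Equiv Equiv.Perm

variable {α : Type*} [Fintype α] [DecidableEq α] {θ : alternatingGroup α → ℂ}

lemma Fml_transport {B B' : Type} [Fintype B] [DecidableEq B] [Fintype B'] [DecidableEq B']
    {p : ℕ} [Fact p.Prime] (ε : B' ≃ B) (f : B × ZMod p ↪ α) {r c : ℂ}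
    (h : Fml θ ((Equiv.prodCongrLeft (fun _ : ZMod p => ε)).toEmbedding.trans f) r c) :
    Fml θ f r c := by
  intro a ha
  have h1 : ∀ x : B' × ZMod p, W 1 a ((Equiv.prodCongrLeft (fun _ : ZMod p => ε)) x)
      = (Equiv.prodCongrLeft (fun _ : ZMod p => ε)) (W 1 (fun i => a (ε i)) x) := by
    rintro ⟨i, x⟩
    rfl
  rw [via_eq_of (Equiv.prodCongrLeft (fun _ : ZMod p => ε)) f (W 1 (fun i => a (ε i))) (W 1 a) h1]
  rw [h _ (by rw [sign_eq_of _ _ _ h1]; exact ha)]
  congr 2
  rw [wtB, wtB]
  norm_cast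
  refine Finset.card_bij (fun i _ => ε i) ?_ ?_ ?_
  · intro i hi
    simpa using hi
  · intro i _ j _ hij
    exact ε.injective hij
  · intro j hj
    exact ⟨ε.symm j, by simpa using hj, by simp⟩

lemma ev_ne_of_invol (hθ : IsHeilbronn θ) (hD : ¬ HasDoubleSwaps θ) {x : Perm α}
    (hs : Perm.sign x = 1) (hx2 : x * x = 1) (hx1 : x ≠ 1) : ev θ x ≠ θ 1 := by
  intro h
  apply hD
  have hx : InK θ x := ⟨mem_alternatingGroup.mpr hs, by
    rw [ev_of (mem_alternatingGroup.mpr hs)] at h; exact h⟩
  intro a b c d hab hac had hbc hbd hcd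
  exact hx.double_swap hθ hx2 hx1 hab hac had hbc hbd hcd

/-- two points -/
lemma W_invol {B : Type} [Fintype B] [DecidableEq B] [Fact (Nat.Prime 2)] {i j : B} (hij : i ≠ j)
    (f : B × ZMod 2 ↪ α) :
    Perm.sign (W (1 : Perm B) (Pi.single i 1 + Pi.single j 1 : B → ZMod 2)) = 1 ∧
    Perm.sign (viaEmbeddingHom f (W (1 : Perm B) (Pi.single i 1 + Pi.single j 1 : B → ZMod 2))) = 1 ∧
    viaEmbeddingHom f (W (1 : Perm B) (Pi.single i 1 + Pi.single j 1 : B → ZMod 2)) *
      viaEmbeddingHom f (W (1 : Perm B) (Pi.single i 1 + Pi.single j 1 : B → ZMod 2)) = 1 ∧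
    viaEmbeddingHom f (W (1 : Perm B) (Pi.single i 1 + Pi.single j 1 : B → ZMod 2)) ≠ 1 := by
  have hs : Perm.sign (W (1 : Perm B) (Pi.single i 1 + Pi.single j 1 : B → ZMod 2)) = 1 := by
    rw [sign_tr_two]
    simp only [Pi.add_apply, Finset.sum_add_distrib, Finset.sum_pi_single', Finset.mem_univ,
      if_true]
    exact one_add_one_two
  refine ⟨hs, ?_, ?_, ?_⟩
  · rw [viaEmb_sign]; exact hs
  · rw [← map_mul, W_mul]
    have : (fun l => (Pi.single i 1 + Pi.single j 1 : B → ZMod 2) l
        + (Pi.single i 1 + Pi.single j 1 : B → ZMod 2) ((1 : Perm B) l)) = 0 := by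
      funext l
      simp only [Perm.one_apply]
      exact CharTwo.add_self_eq_zero _
    rw [this, mul_one, W_one, map_one]
  · intro h
    have h1 : W (1 : Perm B) (Pi.single i 1 + Pi.single j 1 : B → ZMod 2) = 1 := by
      apply viaEmbeddingHom_injective f
      rw [map_one]; exact h
    have h2 := congrArg (fun π : Perm (B × ZMod 2) => (π (i, 0)).2) h1
    simp [W_apply, hij] at h2

/-- **Products of `p`-cycles are not in the kernel.** -/
theorem cycles_not_kernel (hθ : IsHeilbronn θ) (hD : ¬ HasDoubleSwaps θ) {p b : ℕ}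
    [Fact p.Prime] (hp : p ≠ 2) (hb : 2 ≤ b) (f : Fin b × ZMod p ↪ α) :
    ∃ a : Fin b → ZMod p, ev θ (viaEmbeddingHom f (W 1 a)) ≠ θ 1 := by
  classical
  have : Fact (Nat.Prime 2) := ⟨Nat.prime_two⟩
  have hpp : p.Prime := Fact.out
  have hodd : Odd p := hpp.odd_of_ne_two hp
  by_contra hcon
  push Not at hcon
  let i0 : Fin b := ⟨0, by omega⟩
  let i1 : Fin b := ⟨1, by omega⟩
  have h01 : i0 ≠ i1 := by simp [i0, i1]
  let bl : ZMod 2 → Fin b := fun z => if z = 0 then i0 else i1
  have hbl : Function.Injective bl := by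
    intro z w h
    rcases zmod_two z with hz | hz <;> rcases zmod_two w with hw | hw
    · rw [hz, hw]
    · rw [hz, hw] at h
      simp only [bl, if_true, one_ne_zero, if_false] at h
      exact absurd h h01
    · rw [hz, hw] at h
      simp only [bl, if_true, one_ne_zero, if_false] at h
      exact absurd h.symm h01
    · rw [hz, hw]
  let h : ZMod p × ZMod 2 ↪ α :=
    ⟨fun x => f (bl x.2, x.1), fun x y hxy => by
      have h1 := f.injective hxy
      simp only [Prod.mk.injEq] at h1
      exact Prod.ext h1.2 (hbl h1.1)⟩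
  have hh : ∀ c z, h (c, z) = f (bl z, c) := fun _ _ => rfl
  have hbl0 : bl 0 = i0 := if_pos rfl
  have hbl1 : bl 1 = i1 := if_neg one_ne_zero
  let τ : Perm (ZMod p) := Equiv.addRight 1
  have hsτ : Perm.sign (W τ (0 : ZMod p → ZMod 2)) = 1 := by
    rw [sign_W0]; exact Int.units_sq _
  let g : alternatingGroup α := ⟨viaEmbeddingHom h (W τ 0), via_mem h hsτ⟩
  have hκ : ∀ x : Adm (ZMod p) 2, g * ph h x * g⁻¹ = ph h (ka τ x) := by
    intro x
    apply Subtype.ext
    change viaEmbeddingHom h (W _ 0) * viaEmbeddingHom h (W 1 _) * (viaEmbeddingHom h (W _ 0))⁻¹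
      = viaEmbeddingHom h (W 1 _)
    rw [← map_inv, ← map_mul, ← map_mul, W_conj]
    rfl
  have hfix : ∀ x : Adm (ZMod p) 2, ka τ x = x → x = 1 := by
    intro x hx
    have h1 : ∀ i, Multiplicative.toAdd (x : Multiplicative (ZMod p → ZMod 2)) (τ⁻¹ i)
        = Multiplicative.toAdd (x : Multiplicative (ZMod p → ZMod 2)) i := by
      intro i
      have h2 := congrArg (fun z : Adm (ZMod p) 2 =>
        Multiplicative.toAdd (z : Multiplicative (ZMod p → ZMod 2)) i) hx
      exact h2
    set v : ZMod p → ZMod 2 := Multiplicative.toAdd (x : Multiplicative (ZMod p → ZMod 2)) with hv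
    have h2 : ∀ i, v (i + 1) = v i := by
      intro i
      have h3 := h1 (i + 1)
      rw [← h3]
      congr 1
      rw [Perm.inv_def, Equiv.symm_apply_eq]
      rfl
    have h3 : ∀ k : ℕ, v k = v 0 := by
      intro k
      induction k with
      | zero => simp
      | succ k ih => rw [Nat.cast_succ, h2, ih]
    have h4 : ∀ i, v i = v 0 := by
      intro i
      have := h3 i.val
      rwa [ZMod.natCast_val, ZMod.cast_id', id] at this
    have h5 : ∑ i, v i = 0 := (sign_tr_two v).mp x.2
    rw [Finset.sum_congr rfl (fun i _ => h4 i), Finset.sum_const, Finset.card_univ, ZMod.card,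
      nsmul_eq_mul] at h5
    have h6 : ((p : ℕ) : ZMod 2) = 1 := by
      rw [ZMod.natCast_eq_one_iff_odd]
      exact hodd
    rw [h6, one_mul] at h5
    apply Subtype.ext
    have h7 : v = 0 := by
      funext i
      rw [h4, h5]; rfl
    exact h7
  have hg : θ g = θ 1 := by
    rw [← hcon (Pi.single i0 1 + Pi.single i1 1)]
    have h1 : ev θ (viaEmbeddingHom h (W τ 0)) = θ g := ev_of _
    rw [← h1]
    congr 1
    ext y
    by_cases hy : ∃ x, f x = y
    · obtain ⟨⟨i, c⟩, rfl⟩ := hy
      rw [viaEmb_apply]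
      by_cases h0 : i = i0
      · subst h0
        have e1 : f (i0, c) = h (c, 0) := by rw [hh, hbl0]
        rw [e1, viaEmb_apply, W_apply, W_apply, hh]
        simp [h01, τ, hbl0]
      · by_cases h1' : i = i1
        · subst h1'
          have e1 : f (i1, c) = h (c, 1) := by rw [hh, hbl1]
          rw [e1, viaEmb_apply, W_apply, W_apply, hh]
          simp [h01.symm, τ, hbl1]
        · rw [viaEmb_notMem]
          · simp [W_apply, h0, h1']
          · rintro ⟨x, z⟩ hx
            have h2 := f.injective hx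
            simp only [Prod.mk.injEq, bl] at h2
            rcases zmod_two z with hz | hz
            · rw [hz, if_pos rfl] at h2
              exact h0 h2.1.symm
            · rw [hz, if_neg one_ne_zero] at h2
              exact h1' h2.1.symm
    · push Not at hy
      rw [viaEmb_notMem f _ hy, viaEmb_notMem]
      intro x
      exact hy _
  have key := fpf_kernel (ph h) (ka τ) hθ hκ hfix hg
  have h2 : (0 : ZMod p) ≠ 1 := zero_ne_one
  obtain ⟨e1, e2, e3, e4⟩ := W_invol h2 h
  refine ev_ne_of_invol hθ hD e2 e3 e4 ?_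
  rw [ev_of (mem_alternatingGroup.mpr e2)]
  exact key ⟨Multiplicative.ofAdd _, e1⟩

/-- **Main theorem for the alternating groups.** -/
theorem alt_sharp (hn : 14 ≤ Fintype.card α) (hθ : IsHeilbronn θ) {r : ℕ} (hr : θ 1 = r)
    (hlt : (¬ (Fintype.card α).Prime ∧ r + 1 < Fintype.card α) ∨ r + 2 < Fintype.card α)
    (g : alternatingGroup α) : θ g = θ 1 := by
  classical
  by_contra hcon
  have hD : ¬ HasDoubleSwaps θ := by
    intro hD
    obtain ⟨h1, h2⟩ := InK.all hθ hD (by omega) (g := (g : Perm α)) (mem_alternatingGroup.mp g.2)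
    exact hcon h2
  obtain ⟨k, hk14, hkc, hkα, hrk⟩ : ∃ k, 14 ≤ k ∧ ¬ k.Prime ∧ k ≤ Fintype.card α ∧ r + 2 ≤ k := by
    by_cases hp : (Fintype.card α).Prime
    · refine ⟨Fintype.card α - 1, ?_, ?_, by omega, ?_⟩
      · have : Fintype.card α ≠ 14 := by
          intro h
          rw [h] at hp
          exact absurd hp (by norm_num)
        omega
      · have hodd := hp.odd_of_ne_two (by omega)
        intro h
        have h2 := h.eq_two_or_odd
        obtain ⟨l, hl⟩ := hodd
        omega
      · rcases hlt with ⟨h, -⟩ | h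
        · exact absurd hp h
        · omega
    · exact ⟨Fintype.card α, hn, hp, le_refl _, by rcases hlt with ⟨-, h⟩ | h <;> omega⟩
  have hA : AllF θ k (r : ℂ) 1 := by
    intro p _ B _ _ hB f
    have hpp : p.Prime := Fact.out
    obtain ⟨b, hb⟩ : ∃ b, b = Fintype.card B := ⟨_, rfl⟩
    rw [← hb] at hB
    let ε : Fin b ≃ B := (Fintype.equivFinOfCardEq hb.symm).symm
    refine Fml_transport ε f ?_
    have hb2 : 2 ≤ b := by
      rcases Nat.lt_or_ge b 2 with h | h
      · have h3 : b = 0 ∨ b = 1 := by omega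
        rcases h3 with h3 | h3
        · rw [h3, zero_mul] at hB; omega
        · rw [h3, one_mul] at hB
          exact absurd (hB ▸ hpp) hkc
      · exact h
    by_cases hp : p = 2
    · subst hp
      have h7 : 7 ≤ b := by omega
      refine formula_two hθ hr h7 (by omega) _ ?_
      have h01 : (⟨0, by omega⟩ : Fin b) ≠ ⟨1, by omega⟩ := by simp
      obtain ⟨e1, e2, e3, e4⟩ := W_invol h01
        ((Equiv.prodCongrLeft (fun _ : ZMod 2 => ε)).toEmbedding.trans f)
      refine ⟨_, e1, ?_⟩
      rw [← hr]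
      exact ev_ne_of_invol hθ hD e2 e3 e4
    · rw [mul_comm] at hB
      refine formula_odd hθ hr hp hb2 (by omega) (by omega) _ ?_
      rw [← hr]
      exact cycles_not_kernel hθ hD hp hb2 _
  obtain ⟨n, hn'⟩ := degree_bound hθ hA (by omega) hkc hkα
  rw [one_mul] at hn'
  have h1 : (r : ℂ) + 1 = k + n := by rw [hn']; ring
  have h2 : r + 1 = k + n := by exact_mod_cast h1
  omega

end Pool.Agent.X21.Sy
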