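import Mathlib
import Pool.Agent.X21.Sy.Main
import Pool.Agent.H541R3.ART.Sym
import Pool.Agent.H302R10.Ded

/-!
# Artin's conjecture at zeros of small order: the symmetric groups up to the sharp bound
-/

set_option autoImplicit false
set_option linter.unusedSectionVars false

namespace Pool.Agent.X21.Sy

open Pool.Agent.H302R2 Pool.Agent.H302R10 Pool.Agent.H541R3.ART Filter Topology Equiv Equiv.Perm

/-- a Heilbronn function which is constant on the even elements -/
theorem even_core {n : ℕ} (G : Subgroup (Perm (Fin n))) {θ : G → ℂ} (hθ : IsHeilbronn θ) {r : ℕ}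
    (hr : θ 1 = r) (heven : ∀ g : G, Perm.sign (g : Perm (Fin n)) = 1 → θ g = r) :
    ∃ a b : ℕ, ∀ g : G, θ g = a + b * ((Perm.sign (g : Perm (Fin n)) : ℤ) : ℂ) := by
  classical
  have : Fintype G := Fintype.ofFinite G
  let χ : G →* ℤˣ := Perm.sign.comp G.subtype
  by_cases hodd : ∃ g₀ : G, χ g₀ = -1
  swap
  · push Not at hodd
    refine ⟨r, 0, fun g => ?_⟩
    rw [heven g ((Int.units_eq_one_or _).resolve_right (hodd g))]
    simp
  obtain ⟨g₀, hg₀⟩ := hodd
  have hoddc : ∀ g : G, χ g = -1 → θ g = θ g₀ := fun g hg =>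
    index_two hθ χ (fun g hg => by rw [heven g hg, hr]) hg hg₀
  obtain ⟨a, ha⟩ := hθ.mult_hom (MonoidHom.id G) 1
  obtain ⟨b, hb⟩ := hθ.mult_hom (MonoidHom.id G) (signToC.comp χ)
  simp only [MonoidHom.id_apply, MonoidHom.one_apply, inv_one, Units.val_one, mul_one] at ha
  have hsg : ∀ g : G, ((((signToC.comp χ) g)⁻¹ : ℂˣ) : ℂ) = ((χ g : ℤ) : ℂ) := by
    intro g
    rw [MonoidHom.comp_apply]
    rcases Int.units_eq_one_or (χ g) with h | h
    · rw [h]; simp
    · rw [h]; simp [signToC]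
  simp only [MonoidHom.id_apply, hsg] at hb
  have hN : (Nat.card G : ℂ) ≠ 0 := by exact_mod_cast Nat.card_pos.ne'
  have hsum0 : ∑ g : G, ((χ g : ℤ) : ℂ) = 0 := by
    have h1 : ∑ g : G, ((χ g : ℤ) : ℂ) = ∑ g : G, ((χ (g * g₀) : ℤ) : ℂ) :=
      (Equiv.sum_comp (Equiv.mulRight g₀) (fun g => ((χ g : ℤ) : ℂ))).symm
    have h2 : ∑ g : G, ((χ (g * g₀) : ℤ) : ℂ) = - ∑ g : G, ((χ g : ℤ) : ℂ) := by
      rw [← Finset.sum_neg_distrib]
      refine Finset.sum_congr rfl fun g _ => ?_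
      rw [map_mul, hg₀]; simp
    rw [h2] at h1
    linear_combination h1 / 2
  have hab : (a : ℂ) + b = r := by
    apply mul_right_cancel₀ hN
    rw [add_mul, ← ha, ← hb, ← Finset.sum_add_distrib]
    have : ∀ g : G, θ g + θ g * ((χ g : ℤ) : ℂ) = r + r * ((χ g : ℤ) : ℂ) := by
      intro g
      rcases Int.units_eq_one_or (χ g) with h | h
      · rw [heven g h]
      · rw [h]; simp
    rw [Finset.sum_congr rfl (fun g _ => this g), Finset.sum_add_distrib, ← Finset.mul_sum, hsum0,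
      Finset.sum_const, Finset.card_univ, nsmul_eq_mul, Nat.card_eq_fintype_card]
    ring
  have hab' : (a : ℂ) - b = θ g₀ := by
    apply mul_right_cancel₀ hN
    rw [sub_mul, ← ha, ← hb, ← Finset.sum_sub_distrib]
    have : ∀ g : G, θ g - θ g * ((χ g : ℤ) : ℂ) = θ g₀ - θ g₀ * ((χ g : ℤ) : ℂ) := by
      intro g
      rcases Int.units_eq_one_or (χ g) with h | h
      · rw [h]; simp
      · rw [hoddc g h]
    rw [Finset.sum_congr rfl (fun g _ => this g), Finset.sum_sub_distrib, ← Finset.mul_sum, hsum0,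
      Finset.sum_const, Finset.card_univ, nsmul_eq_mul, Nat.card_eq_fintype_card]
    ring
  refine ⟨a, b, fun g => ?_⟩
  rcases Int.units_eq_one_or (χ g) with h | h
  · rw [heven g h, ← hab]
    have : Perm.sign (g : Perm (Fin n)) = 1 := h
    rw [this]; simp
  · rw [hoddc g h, ← hab']
    have : Perm.sign (g : Perm (Fin n)) = -1 := h
    rw [this]; simp; ring

/-- the alternating group is rigid below the sharp bound -/
theorem rigid_alt {n r : ℕ} (hn : 14 ≤ n) (h1 : r + 1 < n) (h2 : n.Prime → r + 2 < n) :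
    Rigid r (alternatingGroup (Fin n)) := by
  intro η hη s hs h t
  refine alt_sharp (α := Fin n) (by rwa [Fintype.card_fin]) hη h ?_ t
  rw [Fintype.card_fin]
  by_cases hp : n.Prime
  · exact Or.inr (by have := h2 hp; omega)
  · exact Or.inl ⟨hp, by omega⟩

/-- **Artin's conjecture at a zero of small order**, symmetric and alternating groups. -/
theorem artin_sharp {n : ℕ} (hn : 14 ≤ n) (G : Subgroup (Perm (Fin n)))
    (hG : alternatingGroup (Fin n) ≤ G) {s₀ : ℂ} (A : ArtinData G s₀) {r : ℕ}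
    (hr : meromorphicOrderAt (A.Lin ⊥ 1) s₀ = (r : WithTop ℤ))
    (hr1 : r + 1 < n) (hr2 : n.Prime → r + 2 < n) (χ : G → ℂ) (hχ : χ ∈ Irr G) :
    0 ≤ meromorphicOrderAt (A.L χ) s₀ ∧
    ((∃ g : G, (g : Perm (Fin n)) ∈ alternatingGroup (Fin n) ∧ χ g ≠ χ 1) →
      meromorphicOrderAt (A.L χ) s₀ = 0) := by
  classical
  have : Fintype G := Fintype.ofFinite G
  have hθ := A.isHeilbronn
  have h1 := A.theta_one hr
  have heven : ∀ g : G, Perm.sign (g : Perm (Fin n)) = 1 → (theta A.ord : G → ℂ) g = r := by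
    intro g hg
    have h3 := rigid_alt hn hr1 hr2 _ (hθ.comp (Subgroup.inclusion hG)) r le_rfl
      (by simpa using h1) ⟨(g : Perm (Fin n)), mem_alternatingGroup.mpr hg⟩
    simp only [map_one] at h3
    rw [h1] at h3
    exact h3
  obtain ⟨a, b, hab⟩ := even_core G hθ h1 heven
  constructor
  · let ε : G →* ℂˣ := (Units.map (Int.castRingHom ℂ : ℤ →* ℂ)).comp (Perm.sign.comp G.subtype)
    have hε : ∀ g : G, ((ε g : ℂˣ) : ℂ) = ((Perm.sign (g : Perm (Fin n)) : ℤ) : ℂ) := fun g => rfl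
    obtain ⟨m₁, hm₁⟩ := pair_lin hχ (1 : G →* ℂˣ)
    obtain ⟨m₂, hm₂⟩ := pair_lin hχ ε
    have h2 : ∑ g : G, (theta A.ord : G → ℂ) g * χ g⁻¹
        = (((a * m₁ + b * m₂ : ℕ) : ℤ) : ℂ) * Nat.card G := by
      have h3 : ∀ g : G, (theta A.ord : G → ℂ) g * χ g⁻¹
          = a * ((((1 : G →* ℂˣ) g : ℂˣ) : ℂ) * χ g⁻¹) + b * (((ε g : ℂˣ) : ℂ) * χ g⁻¹) := by
        intro g
        rw [hab g, hε, MonoidHom.one_apply, Units.val_one]
        ring
      rw [Finset.sum_congr rfl (fun g _ => h3 g), Finset.sum_add_distrib, ← Finset.mul_sum,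
        ← Finset.mul_sum, hm₁, hm₂]
      push_cast
      ring
    rw [A.order_eq hχ h2]
    exact_mod_cast Int.natCast_nonneg _
  · rintro ⟨g, hg, hg1⟩
    have hN : ((alternatingGroup (Fin n)).subgroupOf G).Normal := inferInstance
    have h2 : ∀ m ∈ (alternatingGroup (Fin n)).subgroupOf G, ∀ x : G,
        (theta A.ord : G → ℂ) (m * x) = (theta A.ord : G → ℂ) x := by
      intro m hm x
      rw [Subgroup.mem_subgroupOf, mem_alternatingGroup] at hm
      rw [hab, hab, Subgroup.coe_mul, map_mul, hm, one_mul]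
    have h3 := pair_zero hχ ((alternatingGroup (Fin n)).subgroupOf G) h2
      (x := g) (by rw [Subgroup.mem_subgroupOf]; exact hg) hg1
    have h4 := A.order_eq hχ (k := 0) (by rw [h3]; simp)
    exact_mod_cast h4

end Pool.Agent.X21.Sy
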