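import Mathlib
import Pool.Agent.X21.Sy.Bar3

/-!
# The barrier in prime degree
-/

set_option autoImplicit false
set_option linter.unusedSectionVars false

namespace Pool.Agent.X21.Sy

open Equiv Equiv.Perm MulAction Pool.Agent.H302R2 Pool.Agent.H541R3.ART Pool.Agent.W446.AS
  Filter Topology

section bar

variable {α : Type} [Fintype α] [DecidableEq α] {p : ℕ} [hp : Fact p.Prime]

lemma conj_of_order (hα : Fintype.card α = p) {x y : Perm α} (hx : orderOf x = p)
    (hy : orderOf y = p) : IsConj x y := by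
  rw [Equiv.Perm.isConj_iff_cycleType_eq, (cyc_of_order hα hx).1.cycleType,
    (cyc_of_order hα hy).1.cycleType, (cyc_of_order hα hx).2, (cyc_of_order hα hy).2]

lemma exists_c (hα : Fintype.card α = p) : ∃ c : Perm α, orderOf c = p := by
  apply exists_prime_orderOf_dvd_card
  rw [Fintype.card_perm, hα]
  exact Nat.dvd_factorial hp.out.pos le_rfl

/-- values at elements of order `p` are integers -/
lemma char_int (hα : Fintype.card α = p) {c : Perm α} (hc : orderOf c = p)
    {χ : Perm α → ℂ} (hχ : χ ∈ Irr (Perm α)) : ∃ k : ℤ, χ c = k := by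
  classical
  have : Fintype (Subgroup.zpowers c) := Fintype.ofFinite _
  have hcard : Nat.card (Subgroup.zpowers c) = p := by rw [Nat.card_zpowers, hc]
  have hp0 : (p : ℂ) ≠ 0 := by exact_mod_cast hp.out.ne_zero
  have hval : ∀ y : Subgroup.zpowers c, y ≠ 1 → χ y = χ c := by
    intro y hy
    have h1 : orderOf (y : Perm α) = p := by
      have h2 : orderOf y ∣ p := hcard ▸ orderOf_dvd_natCard y
      rw [Subgroup.orderOf_coe]
      rcases (Nat.dvd_prime hp.out).mp h2 with h3 | h3
      · exact absurd (orderOf_eq_one_iff.mp h3) hy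
      · exact h3
    obtain ⟨z, hz⟩ := isConj_iff.mp (conj_of_order hα hc h1)
    rw [← hz, Irr.conj hχ]
  have hgen : ∀ l : Subgroup.zpowers c →* ℂˣ, ∑ y : Subgroup.zpowers c, χ y * (((l y)⁻¹ : ℂˣ) : ℂ)
      = (χ 1 - χ c) + χ c * ∑ y : Subgroup.zpowers c, (((l y)⁻¹ : ℂˣ) : ℂ) := by
    intro l
    have h1 : ∀ y : Subgroup.zpowers c, χ y * (((l y)⁻¹ : ℂˣ) : ℂ)
        = (if y = 1 then (χ 1 - χ c) else 0) + χ c * (((l y)⁻¹ : ℂˣ) : ℂ) := by
      intro y
      split_ifs with h
      · subst h
        simp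
      · rw [hval y h, zero_add]
    rw [Finset.sum_congr rfl (fun y _ => h1 y), Finset.sum_add_distrib, ← Finset.mul_sum]
    simp
  obtain ⟨m₁, hm₁⟩ := exists_mult hχ (Subgroup.zpowers c) 1
  have hc1 : (⟨c, Subgroup.mem_zpowers c⟩ : Subgroup.zpowers c) ≠ 1 := by
    intro h
    have h2 : c = 1 := congrArg Subtype.val h
    rw [h2, orderOf_one] at hc
    exact hp.out.one_lt.ne hc
  obtain ⟨l, hl⟩ : ∃ l : Subgroup.zpowers c →* ℂˣ, l ⟨c, Subgroup.mem_zpowers c⟩ ≠ 1 := by
    let _ : CommGroup (Subgroup.zpowers c) := { (inferInstance : Group (Subgroup.zpowers c)) with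
      mul_comm := zpowers_comm c }
    exact CommGroup.exists_apply_ne_one_of_hasEnoughRootsOfUnity _ ℂ hc1
  obtain ⟨m₂, hm₂⟩ := exists_mult hχ (Subgroup.zpowers c) l
  rw [finsum_eq_sum_of_fintype, hgen, hcard] at hm₁ hm₂
  have hl1 : l ≠ 1 := by
    intro h
    rw [h] at hl
    exact hl rfl
  rw [sum_inv_hom hl1] at hm₂
  have h3 : ∑ y : Subgroup.zpowers c, ((((1 : Subgroup.zpowers c →* ℂˣ) y)⁻¹ : ℂˣ) : ℂ) = p := by
    simp [← Nat.card_eq_fintype_card, hcard]
  rw [h3] at hm₁
  refine ⟨(m₁ : ℤ) - m₂, ?_⟩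
  apply mul_right_cancel₀ hp0
  push_cast
  linear_combination hm₁ - hm₂

lemma bt_virt (hα : Fintype.card α = p) : Virt (bt p : Perm α → ℂ) := by
  classical
  have h1 : Virt (fun _ : Perm α => (1 : ℂ)) := by
    have := char_mem (G := Perm α) _ (linRep (1 : Perm α →* ℂˣ)) rfl
    have h2 : (linRep (1 : Perm α →* ℂˣ)).character = fun _ => (1 : ℂ) := by
      funext g
      rw [linRep_char]
      simp
    rw [h2] at this
    exact this
  have h2 : Virt (fun g : Perm α => (fx g : ℂ)) := by
    have := char_mem (G := Perm α) _ (permRep α) rfl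
    have h2 : (permRep α).character = fun g => (fx g : ℂ) := funext permRep_char
    rw [h2] at this
    exact this
  obtain ⟨c, hc⟩ := exists_c (α := α) hα
  have h3 : Virt (fun g : Perm α => if orderOf g = p then (p : ℂ) else 0) := by
    apply virt_of_int
    · intro g y
      rw [show orderOf (y * g * y⁻¹) = orderOf g from MulEquiv.orderOf_eq (MulAut.conj y) g]
    · intro χ hχ
      obtain ⟨k, hk⟩ := char_int hα hc hχ
      obtain ⟨q, hq⟩ := card_dvd hα (⊤ : Subgroup (Perm α))
      have h4 : (Finset.univ.filter fun x : (⊤ : Subgroup (Perm α)) => orderOf x = p).card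
          = (Finset.univ.filter fun x : Perm α => orderOf x = p).card := by
        refine Finset.card_bij (fun x _ => (x : Perm α)) ?_ ?_ ?_
        · intro x hx
          rw [Finset.mem_filter] at hx ⊢
          exact ⟨Finset.mem_univ _, by rw [Subgroup.orderOf_coe]; exact hx.2⟩
        · intro x _ y _ h
          exact Subtype.ext h
        · intro y hy
          rw [Finset.mem_filter] at hy
          exact ⟨⟨y, Subgroup.mem_top y⟩, by
            rw [Finset.mem_filter]
            exact ⟨Finset.mem_univ _, by rw [← Subgroup.orderOf_coe]; exact hy.2⟩, rfl⟩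
      rw [h4, Subgroup.card_top] at hq
      refine ⟨q * k, ?_⟩
      have h5 : ∀ g : Perm α, (if orderOf g = p then (p : ℂ) else 0) * χ g⁻¹
          = if orderOf g = p then (p : ℂ) * k else 0 := by
        intro g
        split_ifs with h
        · obtain ⟨z, hz⟩ := isConj_iff.mp (conj_of_order hα hc (y := g⁻¹) (by
            rw [orderOf_inv]; exact h))
          rw [← hz, Irr.conj hχ, hk]
        · rw [zero_mul]
      rw [Finset.sum_congr rfl (fun g _ => h5 g), ← Finset.sum_filter, Finset.sum_const,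
        nsmul_eq_mul]
      have h6 : (p : ℂ) * ((Finset.univ.filter fun x : Perm α => orderOf x = p).card : ℂ)
          = (Nat.card (Perm α) : ℂ) * q := by exact_mod_cast hq
      push_cast
      linear_combination (k : ℂ) * h6
  have h4 : (bt p : Perm α → ℂ) = (fun g : Perm α => (fx g : ℂ)) + (fun g : Perm α =>
      if orderOf g = p then (p : ℂ) else 0) - ((fun _ : Perm α => (1 : ℂ)) +
        fun _ : Perm α => (1 : ℂ)) := by
    funext g
    simp only [bt, Pi.add_apply, Pi.sub_apply]
    ring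
  rw [h4]
  exact sub_mem (S := AddSubgroup (Perm α → ℂ)) (add_mem (S := AddSubgroup (Perm α → ℂ)) h2 h3)
    (add_mem (S := AddSubgroup (Perm α → ℂ)) h1 h1)

/-- the product of two adjacent transpositions attached to `c` -/
lemma u_facts (hα : Fintype.card α = p) (h5 : 5 ≤ p) {c : Perm α} (hc : orderOf c = p) :
    ∃ t : Perm α, c * (t * c⁻¹ * t⁻¹) ≠ 1 ∧ ∃ e, (c * (t * c⁻¹ * t⁻¹)) e = e := by
  have hne : Nonempty α := by
    rw [← Fintype.card_pos_iff, hα]
    exact hp.out.pos
  obtain ⟨a⟩ := hne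
  have hpw : ∀ k : ℕ, 0 < k → k < p → ∀ x, (c ^ k) x ≠ x := by
    intro k hk hkp x
    apply no_fix hα
    rw [← hc]
    apply Nat.Coprime.orderOf_pow
    rw [hc]
    exact Nat.coprime_of_lt_prime hk.ne' hkp hp.out
  have h1 := fun x => hpw 1 (by omega) (by omega) x
  have h2 := fun x => hpw 2 (by omega) (by omega) x
  have h3 := fun x => hpw 3 (by omega) (by omega) x
  simp only [pow_one, pow_succ, pow_zero, one_mul, Perm.mul_apply] at h1 h2 h3
  refine ⟨swap a (c a), ?_, c (c (c a)), ?_⟩
  · intro h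
    have h4 : c * swap a (c a) = swap a (c a) * c := by
      have h5 : c * (swap a (c a) * c⁻¹ * (swap a (c a))⁻¹) * swap a (c a) * c
          = swap a (c a) * c := by rw [h, one_mul]
      have h6 : c * (swap a (c a) * c⁻¹ * (swap a (c a))⁻¹) * swap a (c a) * c
          = c * swap a (c a) := by group
      rw [← h6, h5]
    have h5 := congrArg (fun σ : Perm α => σ a) h4
    simp only [Perm.mul_apply, swap_apply_left, swap_apply_right] at h5
    exact h2 a h5
  · have e1 : (swap a (c a))⁻¹ (c (c (c a))) = c (c (c a)) := by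
      rw [swap_inv]
      exact swap_apply_of_ne_of_ne (h3 a) (h2 (c a))
    have e2 : c⁻¹ (c (c (c a))) = c (c a) := by
      simp
    have e3 : swap a (c a) (c (c a)) = c (c a) :=
      swap_apply_of_ne_of_ne (h2 a) (h1 (c a))
    rw [Perm.mul_apply, Perm.mul_apply, Perm.mul_apply, e1, e2, e3]

/-- **Barrier.** -/
theorem barrier (hα : Fintype.card α = p) (h5 : 5 ≤ p) (s₀ : ℂ) :
    ∃ A : ArtinData (Perm α) s₀,
      meromorphicOrderAt (A.Lin ⊥ 1) s₀ = ((p - 2 : ℕ) : WithTop ℤ) ∧
      ∃ χ ∈ Irr (Perm α), meromorphicOrderAt (A.L χ) s₀ < 0 := by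
  classical
  have hθ := bt_heilbronn (α := α) hα (by omega)
  have hv := bt_virt (α := α) hα
  obtain ⟨A, hA1, hA2⟩ := artin_of_virt hθ hv s₀
  refine ⟨A, hA2 _ ?_, ?_⟩
  · rw [bt_one hα]
    push_cast [Nat.cast_sub (show 2 ≤ p by omega)]
    ring
  · by_contra hcon
    push Not at hcon
    obtain ⟨c, hc⟩ := exists_c (α := α) hα
    obtain ⟨t, ht1, e, he⟩ := u_facts hα h5 hc
    have h1 := kernel_of_nonneg hv (fun χ hχ k hk => by
      have := hcon χ hχ
      rw [hA1 χ hχ k hk] at this
      exact_mod_cast this) (c := c) (by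
        rw [bt_one hα, bt, fx_zero hα hc, if_pos hc]
        push_cast
        ring) t
    rw [bt_one hα, bt, if_neg (fun h => no_fix hα h e he)] at h1
    have h2 : (fx (c * (t * c⁻¹ * t⁻¹)) : ℂ) = (p : ℂ) := by linear_combination h1
    have h3 : fx (c * (t * c⁻¹ * t⁻¹)) = p := by exact_mod_cast h2
    apply ht1
    rw [fx, ← hα, Finset.card_eq_iff_eq_univ] at h3
    ext x
    have := Finset.mem_univ x
    rw [← h3, Finset.mem_filter] at this
    exact this.2

/-- the alternating group of prime degree -/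
lemma not_rigid_prime (hα : Fintype.card α = p) (h5 : 5 ≤ p) :
    ∃ θ : alternatingGroup α → ℂ, IsHeilbronn θ ∧ θ 1 = ((p - 2 : ℕ) : ℂ) ∧ ∃ g, θ g ≠ θ 1 := by
  classical
  have hθ := (bt_heilbronn (α := α) hα (by omega)).comp (alternatingGroup α).subtype
  have h1 : bt p ((alternatingGroup α).subtype 1) = (p : ℂ) - 2 := by
    rw [map_one, bt_one hα]
  refine ⟨_, hθ, ?_, ?_⟩
  · rw [h1]
    push_cast [Nat.cast_sub (show 2 ≤ p by omega)]
    ring
  · obtain ⟨c, hc⟩ := exists_c (α := α) hα
    obtain ⟨t, ht1, e, he⟩ := u_facts hα h5 hc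
    refine ⟨⟨c * (t * c⁻¹ * t⁻¹), ?_⟩, ?_⟩
    · rw [mem_alternatingGroup]
      simp only [map_mul, map_inv]
      rcases Int.units_eq_one_or (Perm.sign c) with h | h <;>
        rcases Int.units_eq_one_or (Perm.sign t) with h' | h' <;> rw [h, h'] <;> decide
    · rw [h1]
      change bt p (c * (t * c⁻¹ * t⁻¹)) ≠ _
      intro h1
      rw [bt, if_neg (fun h => no_fix hα h e he)] at h1
      have h2 : (fx (c * (t * c⁻¹ * t⁻¹)) : ℂ) = (p : ℂ) := by linear_combination h1
      have h3 : fx (c * (t * c⁻¹ * t⁻¹)) = p := by exact_mod_cast h2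
      apply ht1
      rw [fx, ← hα, Finset.card_eq_iff_eq_univ] at h3
      ext x
      have := Finset.mem_univ x
      rw [← h3, Finset.mem_filter] at this
      exact this.2

omit hp in
/-- the permutation character minus one -/
lemma not_rigid_any (h3 : 4 ≤ Fintype.card α) :
    ∃ θ : alternatingGroup α → ℂ, IsHeilbronn θ ∧ θ 1 = ((Fintype.card α - 1 : ℕ) : ℂ) ∧
      ∃ g, θ g ≠ θ 1 := by
  classical
  have hθ : IsHeilbronn (fun g : Perm α => (fx g : ℂ) - 1) := by
    refine ⟨fun g h => by rw [fx_conj], fun H l => ?_⟩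
    have : Fintype H := Fintype.ofFinite H
    rw [finsum_eq_sum_of_fintype]
    obtain ⟨m, hm⟩ := fx_mult H l
    simp only [sub_mul, Finset.sum_sub_distrib, one_mul]
    rw [hm]
    by_cases hl : l = 1
    · subst hl
      have hsum : ∑ h : H, ((((1 : H →* ℂˣ) h)⁻¹ : ℂˣ) : ℂ) = (Nat.card H : ℂ) := by
        simp [Nat.card_eq_fintype_card]
      have hm1 : m ≠ 0 := by
        intro h0
        rw [h0] at hm
        have h7 : ∑ h : H, fx (h : Perm α) = 0 := by
          have : ((∑ h : H, fx (h : Perm α) : ℕ) : ℂ) = 0 := by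
            push_cast
            simpa using hm
          exact_mod_cast this
        have h8 := (Finset.sum_eq_zero_iff.mp h7) 1 (Finset.mem_univ _)
        rw [Subgroup.coe_one, fx_one] at h8
        omega
      refine ⟨m - 1, ?_⟩
      rw [hsum]
      push_cast [Nat.cast_sub (show 1 ≤ m by omega)]
      ring
    · rw [sum_inv_hom hl]
      exact ⟨m, by ring⟩
  refine ⟨_, hθ.comp (alternatingGroup α).subtype, ?_, ?_⟩
  · rw [map_one, fx_one]
    push_cast [Nat.cast_sub (show 1 ≤ Fintype.card α by omega)]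
    ring
  · have : Nontrivial (alternatingGroup α) := by
      exact alternatingGroup.nontrivial_of_three_le_card (by
        rw [Nat.card_eq_fintype_card]; omega)
    obtain ⟨g, hg⟩ := exists_ne (1 : alternatingGroup α)
    refine ⟨g, ?_⟩
    rw [map_one, fx_one]
    intro h
    have h1 : (fx (g : Perm α) : ℂ) = (Fintype.card α : ℂ) := by
      change ((fx (g : Perm α) : ℂ) - 1 = _) at h
      linear_combination h
    have h2 : fx (g : Perm α) = Fintype.card α := by exact_mod_cast h1
    apply hg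
    rw [fx, Finset.card_eq_iff_eq_univ] at h2
    ext x
    have := Finset.mem_univ x
    rw [← h2, Finset.mem_filter] at this
    simpa using this.2

end bar

end Pool.Agent.X21.Sy
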