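import Mathlib
import Pool.Agent.X21.Sy.Art
import Pool.Agent.X21.Sy.Bar4
import Pool.Agent.TH820.OddFinal

/-!
# The sharp bound for the alternating groups
-/

set_option autoImplicit false
set_option linter.unusedSectionVars false

namespace Pool.Agent.X21.Sy

open Pool.Agent.H302R2 Pool.Agent.H302R10 Pool.Agent.H541R3.ART Filter Topology Equiv Equiv.Perm

/-- the exact range in which the alternating group is rigid -/
theorem rigid_iff {n r : ℕ} (hn : 14 ≤ n) :
    Rigid r (alternatingGroup (Fin n)) ↔ r + 1 < n ∧ (n.Prime → r + 2 < n) := by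
  constructor
  · intro h
    by_contra hcon
    rw [not_and_or] at hcon
    by_cases hp : n.Prime
    · have : Fact n.Prime := ⟨hp⟩
      obtain ⟨θ, hθ, h1, g, hg⟩ := not_rigid_prime (α := Fin n) (p := n) (Fintype.card_fin n)
        (by omega)
      apply hg
      refine h θ hθ (n - 2) ?_ h1 g
      rcases hcon with h2 | h2
      · omega
      · have : ¬ r + 2 < n := fun h3 => h2 fun _ => h3
        omega
    · obtain ⟨θ, hθ, h1, g, hg⟩ := not_rigid_any (α := Fin n) (by rw [Fintype.card_fin]; omega)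
      rw [Fintype.card_fin] at h1
      apply hg
      refine h θ hθ (n - 1) ?_ h1 g
      rcases hcon with h2 | h2
      · omega
      · exact absurd (fun h3 => absurd h3 hp) h2
  · rintro ⟨h1, h2⟩
    exact rigid_alt hn h1 h2

/-- `S` is the alternating group of a degree `n ≥ 14` with `r < n - 1`, and `r < n - 2` if `n` is
prime. -/
def AltFac (r : ℕ) (S : Type) [Group S] : Prop :=
  ∃ n : ℕ, 14 ≤ n ∧ r + 1 < n ∧ (n.Prime → r + 2 < n) ∧ Nonempty (S ≃* alternatingGroup (Fin n))

lemma AltFac.rigid {r : ℕ} {S : Type} [Group S] [Finite S] (h : AltFac r S) : Rigid r S := by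
  obtain ⟨n, h1, h2, h3, ⟨e⟩⟩ := h
  exact Rigid.congr e.symm (rigid_alt h1 h2 h3)

/-- groups built from alternating groups -/
theorem artin_built {G : Type} [Group G] [Finite G] {s₀ : ℂ} (A : ArtinData G s₀) {r : ℕ}
    (hr : meromorphicOrderAt (A.Lin ⊥ 1) s₀ = (r : WithTop ℤ)) (N : Subgroup G)
    (hN : Pool.Agent.TH820.BuiltC r
      (fun S [Group S] => AltFac r S ∨ Pool.Agent.TH820.FacO r S) N) :
    (∀ χ ∈ Irr G, (∃ n ∈ N, χ n ≠ χ 1) → meromorphicOrderAt (A.L χ) s₀ = 0) ∧
    ((∀ χ ∈ Irr G, (∀ n ∈ N, χ n = χ 1) → IsMonomialChar χ) →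
      ∀ χ ∈ Irr G, 0 ≤ meromorphicOrderAt (A.L χ) s₀) := by
  have h := Pool.Agent.TH820.artin_large A hr N (hN.mono (fun S _ _ hS => by
    rcases hS with hS | hS
    · exact Or.inr (Or.inr hS.rigid)
    · exact hS))
  exact ⟨h.1, h.2.1⟩

end Pool.Agent.X21.Sy
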