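import Mathlib
import Pool.Agent.X21.Sy.Fin

/-!
# Quotients of Dedekind zeta functions: symmetric groups
-/

set_option autoImplicit false
set_option linter.unusedSectionVars false

namespace Pool.Agent.X21.Sy

open Pool.Agent.H302R2 Pool.Agent.H302R10 Pool.Agent.H541R3.ART Filter Topology Equiv Equiv.Perm
  Pool.Agent.W446.AS MulAction Pool.Agent.TH820

/-- the predicate on the factors -/
def AltOr (r : ℕ) (S : Type) [Group S] : Prop := AltFac r S ∨ FacO r S

lemma AltOr.facO {r : ℕ} {S : Type} [Group S] [Finite S] (h : AltOr r S) : FacO r S := by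
  rcases h with hS | hS
  · exact Or.inr (Or.inr hS.rigid)
  · exact hS

theorem ded_built {G : Type} [Group G] [Finite G] {s₀ : ℂ} (A : ArtinData G s₀) {r : ℕ}
    (hr : meromorphicOrderAt (A.Lin ⊥ 1) s₀ = (r : WithTop ℤ)) (N : Subgroup G) [N.Normal]
    (hN : BuiltC r (fun S [Group S] => AltOr r S) N) (U M : Subgroup G) (hUM : U ≤ M)
    (hM : BuiltSC (fun S [Group S] => AltOr r S) (⊤ : Subgroup (M ⧸ N.subgroupOf M)))
    (ρ : M →* ℂˣ) :
    meromorphicOrderAt (A.Lin M ρ) s₀
      ≤ meromorphicOrderAt (A.Lin U (ρ.comp (Subgroup.inclusion hUM))) s₀ :=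
  ded_large A hr N (hN.mono (fun S _ _ hS => AltOr.facO hS)) U M hUM
    (hM.mono (fun S _ _ hS => AltOr.facO hS)) ρ

/-- all quotients of Dedekind zeta functions inside an `S_n`-extension -/
theorem ded_sharp {n : ℕ} (hn : 14 ≤ n) (G : Subgroup (Perm (Fin n)))
    (hG : alternatingGroup (Fin n) ≤ G) {s₀ : ℂ} (A : ArtinData G s₀) {r : ℕ}
    (hr : meromorphicOrderAt (A.Lin ⊥ 1) s₀ = (r : WithTop ℤ))
    (hr1 : r + 1 < n) (hr2 : n.Prime → r + 2 < n) (U M : Subgroup G) (hUM : U ≤ M)
    (ρ : M →* ℂˣ) :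
    meromorphicOrderAt (A.Lin M ρ) s₀
      ≤ meromorphicOrderAt (A.Lin U (ρ.comp (Subgroup.inclusion hUM))) s₀ := by
  have hNn : ((alternatingGroup (Fin n)).subgroupOf G).Normal := inferInstance
  refine ded_built A hr ((alternatingGroup (Fin n)).subgroupOf G) ?_ U M hUM ?_ ρ
  · refine BuiltC.lay ⊥ _ BuiltC.bot bot_le ⟨?_, 1, fun _ =>
      ((alternatingGroup (Fin n)).subgroupOf G).map (QuotientGroup.mk' ⊥), ?_, ?_, ?_⟩
    · exact Subgroup.Normal.map hNn _ (QuotientGroup.mk'_surjective _)
    · intro i j hij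
      exact absurd (Subsingleton.elim i j) hij
    · exact ciSup_const.symm
    · intro _
      refine ⟨alternatingGroup (Fin n), inferInstance, inferInstance,
        (QuotientGroup.mk' ⊥).comp (Subgroup.inclusion hG), Or.inl ⟨n, hn, hr1, hr2,
          ⟨MulEquiv.refl _⟩⟩, ?_⟩
      rw [MonoidHom.range_comp]
      congr 1
      ext g
      constructor
      · rintro ⟨x, rfl⟩
        rw [Subgroup.mem_subgroupOf]
        exact x.2
      · intro hg
        rw [Subgroup.mem_subgroupOf] at hg
        exact ⟨⟨_, hg⟩, rfl⟩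
  · refine BuiltSC.abel ⊥ ⊤ BuiltSC.bot bot_le ?_
    intro a _ b _
    induction a using QuotientGroup.induction_on with | _ a => ?_
    induction b using QuotientGroup.induction_on with | _ b => ?_
    rw [Subgroup.mem_bot]
    change (QuotientGroup.mk (a * b * a⁻¹ * b⁻¹) : M ⧸ _) = 1
    rw [QuotientGroup.eq_one_iff, Subgroup.mem_subgroupOf, Subgroup.mem_subgroupOf,
      mem_alternatingGroup]
    simp only [Subgroup.coe_mul, Subgroup.coe_inv, map_mul, map_inv]
    rcases Int.units_eq_one_or (Perm.sign ((a : G) : Perm (Fin n))) with h | h <;>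
      rcases Int.units_eq_one_or (Perm.sign ((b : G) : Perm (Fin n))) with h' | h' <;>
      rw [h, h'] <;> decide

/-- orders of the L-functions of linear characters -/
lemma order_lin_eq {G : Type} [Group G] [Finite G] {s₀ : ℂ} (A : ArtinData G s₀)
    (H : Subgroup G) [Fintype H] (ψ : H →* ℂˣ) {k : ℤ}
    (h : ∑ x : H, (theta A.ord : G → ℂ) x * (((ψ x)⁻¹ : ℂˣ) : ℂ) = (k : ℂ) * Nat.card H) :
    meromorphicOrderAt (A.Lin H ψ) s₀ = (k : WithTop ℤ) := by
  classical
  choose! m hm using fun χ (hχ : χ ∈ Irr G) => exists_mult hχ H ψ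
  rw [A.order_Lin H ψ m hm]
  have h1 := theta_mult A.ord H ψ m hm
  rw [finsum_eq_sum_of_fintype, h] at h1
  have hH : (Nat.card H : ℂ) ≠ 0 := by exact_mod_cast Nat.card_pos.ne'
  have h2 := mul_right_cancel₀ hH h1
  have h3 : k = (∑ χ ∈ irrF G, (m χ : ℤ) * A.ord χ : ℤ) := by exact_mod_cast h2
  rw [← h3]

section bar

variable {α : Type} [Fintype α] [DecidableEq α] {p : ℕ} [hp : Fact p.Prime]

omit hp in
lemma orbits_eq (H : Subgroup (Perm α)) [Fintype H] [Fintype (orbitRel.Quotient H α)] {m : ℕ}
    (hm : ∑ h : H, (fx (h : Perm α) : ℂ) = (m : ℂ) * (Nat.card H : ℂ)) :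
    m = Fintype.card (orbitRel.Quotient H α) := by
  classical
  have h1 := MulAction.sum_card_fixedBy_eq_card_orbits_mul_card_group H α
  have h2 : ∀ h : H, Fintype.card (fixedBy α h) = fx (h : Perm α) := by
    intro h
    rw [fx, Fintype.card_of_subtype]
    intro a
    simp [MulAction.mem_fixedBy, Subgroup.smul_def]
  simp_rw [h2] at h1
  have h3 : (m : ℂ) * (Nat.card H : ℂ) = ((Fintype.card (orbitRel.Quotient H α) *
      Fintype.card H : ℕ) : ℂ) := by
    rw [← hm, ← h1]
    push_cast
    rfl
  have h5 : m * Nat.card H = Fintype.card (orbitRel.Quotient H α) * Fintype.card H := by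
    exact_mod_cast h3
  rw [Nat.card_eq_fintype_card] at h5
  exact Nat.eq_of_mul_eq_mul_right Fintype.card_pos h5

/-- the even permutations fixing `a` -/
def stabA (a : α) : Subgroup (Perm α) := alternatingGroup α ⊓ MulAction.stabilizer (Perm α) a

omit hp in
lemma mem_stabA {a : α} {g : Perm α} : g ∈ stabA a ↔ Perm.sign g = 1 ∧ g a = a := by
  rw [stabA, Subgroup.mem_inf, mem_alternatingGroup, MulAction.mem_stabilizer_iff]
  rfl

omit hp in
lemma stab_orbits (h5 : 5 ≤ Fintype.card α) (a : α) [Fintype (orbitRel.Quotient (stabA a) α)] :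
    Fintype.card (orbitRel.Quotient (stabA a) α) ≤ 2 := by
  classical
  obtain ⟨b, hb⟩ : ∃ b, b ≠ a := by
    have : Nontrivial α := Fintype.one_lt_card_iff_nontrivial.mp (by omega)
    exact exists_ne a
  have hsurj : Function.Surjective (fun i : Bool => (if i then Quotient.mk _ a else Quotient.mk _ b :
      orbitRel.Quotient (stabA a) α)) := by
    intro q
    induction q using Quotient.inductionOn with | _ c => ?_
    by_cases hc : c = a
    · exact ⟨true, by rw [hc]; rfl⟩
    · refine ⟨false, ?_⟩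
      change Quotient.mk _ b = Quotient.mk _ c
      apply Quotient.sound
      change b ∈ MulAction.orbit (stabA a) c
      by_cases hbc : b = c
      · rw [hbc]
        exact MulAction.mem_orbit_self c
      obtain ⟨d, hd⟩ : ∃ d, d ∉ ({a, b, c} : Finset α) := by
        by_contra hcon
        push Not at hcon
        have h1 : (Finset.univ : Finset α) ⊆ {a, b, c} := fun x _ => hcon x
        have h2 := Finset.card_le_card h1
        rw [Finset.card_univ] at h2
        have h3 := Finset.card_le_three (a := a) (b := b) (c := c)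
        omega
      simp only [Finset.mem_insert, Finset.mem_singleton, not_or] at hd
      refine ⟨⟨swap c b * swap b d, ?_⟩, ?_⟩
      · rw [mem_stabA]
        constructor
        · rw [map_mul, sign_swap (Ne.symm hbc), sign_swap (fun h => hd.2.1 h.symm)]
          decide
        · rw [Perm.mul_apply, swap_apply_of_ne_of_ne hb.symm (fun h => hd.1 h.symm),
            swap_apply_of_ne_of_ne (fun h => hc h.symm) hb.symm]
      · change (swap c b * swap b d) c = b
        rw [Perm.mul_apply, swap_apply_of_ne_of_ne (Ne.symm hbc) (fun h => hd.2.2 h.symm),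
          swap_apply_left]
  calc Fintype.card (orbitRel.Quotient (stabA a) α) ≤ Fintype.card Bool :=
        Fintype.card_le_of_surjective _ hsurj
    _ = 2 := Fintype.card_bool

omit hp in
lemma fx_sum_ne (H : Subgroup (Perm α)) [Fintype H] [Nonempty α] {m : ℕ}
    (hm : ∑ h : H, (fx (h : Perm α) : ℂ) = (m : ℂ) * (Nat.card H : ℂ)) : m ≠ 0 := by
  intro h0
  rw [h0] at hm
  have h7 : ∑ h : H, fx (h : Perm α) = 0 := by
    have : ((∑ h : H, fx (h : Perm α) : ℕ) : ℂ) = 0 := by
      push_cast
      rw [hm]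
      simp
    exact_mod_cast this
  have h8 := (Finset.sum_eq_zero_iff.mp h7) 1 (Finset.mem_univ _)
  rw [Subgroup.coe_one, fx_one] at h8
  exact Fintype.card_ne_zero h8

/-- elements of order `p` in the alternating group -/
lemma card_dvd_alt (hα : Fintype.card α = p) (h5 : 5 ≤ p) [Fintype (alternatingGroup α)] :
    ∃ k : ℕ, 2 ≤ k ∧ p * (Finset.univ.filter fun x : alternatingGroup α => orderOf x = p).card
      = k * Nat.card (alternatingGroup α) := by
  classical
  obtain ⟨q, hq⟩ := card_dvd hα (⊤ : Subgroup (Perm α))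
  have hodd : Odd p := hp.out.odd_of_ne_two (by omega)
  have hsig : ∀ x : Perm α, orderOf x = p → Perm.sign x = 1 := by
    intro x hx
    have h1 : Perm.sign x ^ p = 1 := by
      rw [← map_pow, ← hx, pow_orderOf_eq_one, map_one]
    rcases Int.units_eq_one_or (Perm.sign x) with h | h
    · exact h
    · rw [h, hodd.neg_one_pow] at h1
      exact absurd h1 (by decide)
  have h4 : (Finset.univ.filter fun x : (⊤ : Subgroup (Perm α)) => orderOf x = p).card
      = (Finset.univ.filter fun x : alternatingGroup α => orderOf x = p).card := by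
    symm
    refine Finset.card_bij (fun x _ => ⟨(x : Perm α), Subgroup.mem_top _⟩) ?_ ?_ ?_
    · intro x hx
      rw [Finset.mem_filter] at hx ⊢
      refine ⟨Finset.mem_univ _, ?_⟩
      rw [← Subgroup.orderOf_coe]
      change orderOf (x : Perm α) = p
      rw [Subgroup.orderOf_coe]
      exact hx.2
    · intro x _ y _ h
      apply Subtype.ext
      exact congrArg (fun z : (⊤ : Subgroup (Perm α)) => (z : Perm α)) h
    · intro y hy
      rw [Finset.mem_filter] at hy
      have h5 : orderOf (y : Perm α) = p := by rw [Subgroup.orderOf_coe]; exact hy.2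
      refine ⟨⟨(y : Perm α), mem_alternatingGroup.mpr (hsig _ h5)⟩, ?_, rfl⟩
      rw [Finset.mem_filter]
      refine ⟨Finset.mem_univ _, ?_⟩
      rw [← Subgroup.orderOf_coe]
      exact h5
  rw [h4, Subgroup.card_top] at hq
  have hnt : Nontrivial α := Fintype.one_lt_card_iff_nontrivial.mp (by omega)
  have h6 : 2 * Nat.card (alternatingGroup α) = Nat.card (Perm α) := by
    rw [two_mul_nat_card_alternatingGroup]
  refine ⟨2 * q, ?_, ?_⟩
  · have hq0 : q ≠ 0 := by
      intro h0
      rw [h0, mul_zero] at hq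
      rcases Nat.mul_eq_zero.mp hq with h7 | h7
      · exact hp.out.ne_zero h7
      · obtain ⟨c, hc⟩ := exists_c (α := α) hα
        rw [Finset.card_eq_zero, Finset.filter_eq_empty_iff] at h7
        apply h7 (Finset.mem_univ ⟨c, mem_alternatingGroup.mpr (hsig c hc)⟩)
        rw [← Subgroup.orderOf_coe]
        exact hc
    omega
  · rw [hq, ← h6]
    ring

/-- **Barrier** for the quotients of Dedekind zeta functions. -/
theorem ded_barrier (hα : Fintype.card α = p) (h5 : 5 ≤ p) (s₀ : ℂ) (a : α) :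
    ∃ A : ArtinData (Perm α) s₀,
      meromorphicOrderAt (A.Lin ⊥ 1) s₀ = ((p - 2 : ℕ) : WithTop ℤ) ∧
      meromorphicOrderAt (A.Lin (stabA a) 1) s₀
        < meromorphicOrderAt (A.Lin (alternatingGroup α) 1) s₀ := by
  classical
  have hne : Nonempty α := ⟨a⟩
  have hθ := bt_heilbronn (α := α) hα (by omega)
  have hv := bt_virt (α := α) hα
  obtain ⟨A, hA1, hA2⟩ := artin_of_virt hθ hv s₀
  have hth : (theta A.ord : Perm α → ℂ) = bt p := by
    funext g
    rw [theta, hv.expand g]
    refine Finset.sum_congr rfl fun χ hχ => ?_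
    obtain ⟨k, hk⟩ := hv.pr_int (mem_irrF.mp hχ)
    have h1 := hA1 χ (mem_irrF.mp hχ) k hk
    rw [← A.coe_ord (mem_irrF.mp hχ)] at h1
    have h2 : A.ord χ = k := WithTop.coe_injective h1
    rw [hk, h2]
  refine ⟨A, hA2 _ ?_, ?_⟩
  · rw [bt_one hα]
    push_cast [Nat.cast_sub (show 2 ≤ p by omega)]
    ring
  have hU : meromorphicOrderAt (A.Lin (stabA a) 1) s₀ ≤ ((0 : ℤ) : WithTop ℤ) := by
    have : Fintype (stabA a) := Fintype.ofFinite _
    have : Fintype (orbitRel.Quotient (stabA a) α) := Fintype.ofFinite _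
    obtain ⟨m, hm⟩ := fx_mult (stabA a) 1
    have hm' : ∑ h : stabA a, (fx (h : Perm α) : ℂ) = (m : ℂ) * (Nat.card (stabA a) : ℂ) := by
      rw [← hm]
      refine Finset.sum_congr rfl fun h _ => ?_
      simp
    have h2 := orbits_eq (stabA a) hm'
    have h3 := stab_orbits (α := α) (by omega) a
    rw [order_lin_eq A (stabA a) 1 (k := (m : ℤ) - 2) ?_]
    · have : (m : ℤ) - 2 ≤ 0 := by omega
      exact_mod_cast this
    · rw [hth]
      have h4 : ∀ h : stabA a, bt p (h : Perm α) * (((((1 : stabA a →* ℂˣ) h)⁻¹ : ℂˣ)) : ℂ)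
          = (fx (h : Perm α) : ℂ) - 2 := by
        intro h
        rw [bt, if_neg (fun h' => no_fix hα h' a (mem_stabA.mp h.2).2)]
        simp
      rw [Finset.sum_congr rfl (fun h _ => h4 h), Finset.sum_sub_distrib, hm', Finset.sum_const,
        Finset.card_univ, nsmul_eq_mul, Nat.card_eq_fintype_card]
      push_cast
      ring
  have hM : ((1 : ℤ) : WithTop ℤ) ≤ meromorphicOrderAt (A.Lin (alternatingGroup α) 1) s₀ := by
    obtain ⟨m, hm⟩ := fx_mult (alternatingGroup α) 1
    obtain ⟨k, hk2, hk⟩ := card_dvd_alt (α := α) hα h5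
    have hm' : ∑ h : alternatingGroup α, (fx (h : Perm α) : ℂ)
        = (m : ℂ) * (Nat.card (alternatingGroup α) : ℂ) := by
      rw [← hm]
      refine Finset.sum_congr rfl fun h _ => ?_
      simp
    have hm0 := fx_sum_ne (alternatingGroup α) hm'
    rw [order_lin_eq A (alternatingGroup α) 1 (k := (m : ℤ) - 2 + k) ?_]
    · have : (1 : ℤ) ≤ (m : ℤ) - 2 + k := by omega
      exact_mod_cast this
    · rw [hth]
      have h4 : ∀ h : alternatingGroup α,
          bt p (h : Perm α) * (((((1 : alternatingGroup α →* ℂˣ) h)⁻¹ : ℂˣ)) : ℂ)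
          = (fx (h : Perm α) : ℂ) - 2 + if orderOf h = p then (p : ℂ) else 0 := by
        intro h
        rw [bt, Subgroup.orderOf_coe]
        simp
      have hk' : (p : ℂ) * ((Finset.univ.filter fun x : alternatingGroup α => orderOf x = p).card : ℂ)
          = (k : ℂ) * (Nat.card (alternatingGroup α) : ℂ) := by exact_mod_cast hk
      rw [Finset.sum_congr rfl (fun h _ => h4 h), Finset.sum_add_distrib, Finset.sum_sub_distrib,
        hm', Finset.sum_const, Finset.card_univ, nsmul_eq_mul, ← Finset.sum_filter,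
        Finset.sum_const, nsmul_eq_mul]
      rw [← Nat.card_eq_fintype_card]
      push_cast
      linear_combination hk'
  calc meromorphicOrderAt (A.Lin (stabA a) 1) s₀ ≤ ((0 : ℤ) : WithTop ℤ) := hU
    _ < ((1 : ℤ) : WithTop ℤ) := by exact_mod_cast one_pos
    _ ≤ _ := hM

end bar

end Pool.Agent.X21.Sy
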